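import Pool.Agent.T6.H77.VR.BAS
import Pool.Agent.T6.H77.DW.LINK
import Pool.Agent.T6.H77.DW.LIFT
import Pool.Agent.T6.H77.DW.LOC

/-!
# Weak weak approximation for hypersurfaces of bidegree (2, 2) in `P² × P²`: assembly (helper77)
-/

set_option autoImplicit false

open Filter Topology

namespace Pool.Agent.T6.H77.VR

/-- the points of `F(x, y) = 0` with `x ≠ 0`, `y ≠ 0` -/
def Pt {k : Type} [Field k] (t : Tn k) (S : (Fin 3 → k) × (Fin 3 → k)) : Prop :=
  S.1 ≠ 0 ∧ S.2 ≠ 0 ∧ fm t S.1 S.2 = 0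

/-- the points of `F(x, y) = 0` such that both conics through the point are smooth -/
def Sm {k : Type} [Field k] (t : Tn k) (S : (Fin 3 → k) × (Fin 3 → k)) : Prop :=
  Pt t S ∧ (dm t S.2).det ≠ 0 ∧ (dm (tr t) S.1).det ≠ 0

/-- `X(K)` in the product of the `L v` -/
def XK {K ι : Type} [Field K] {L : ι → Type} [∀ v, Field (L v)] (σ : ∀ v, K →+* L v)
    (t : Tn K) : Set (∀ v, (Fin 3 → L v) × (Fin 3 → L v)) :=
  {S | ∃ x y : Fin 3 → K, x ≠ 0 ∧ y ≠ 0 ∧ fm t x y = 0 ∧
    S = fun v => (fun i => σ v (x i), fun i => σ v (y i))}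

/-- Good places: `L` is a complete ultrametric field with finite residue field `k` (via `π`) with at
least `q₀` elements, `F` is integral and its reduction is good. -/
structure GoodPlace (q₀ : ℕ) {L k : Type} [NontriviallyNormedField L] [Field k] [Fintype k]
    (π : L → k) (t : Tn L) : Prop where
  um : IsUltrametricDist L
  cs : CompleteSpace L
  res : DW.Res π
  card : q₀ ≤ Fintype.card k
  it : ∀ a b c d, ‖t a b c d‖ ≤ 1
  gd : Gd (fun a b c d => π (t a b c d))

namespace MAIN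

section loc

variable {L k : Type} [NontriviallyNormedField L] [Field k] [Fintype k] {π : L → k}
  {t : Tn L} {q₀ : ℕ}

theorem pp_le [IsUltrametricDist L] (ht : ∀ a b c d, ‖t a b c d‖ ≤ 1) {x x' y y' : Fin 3 → L}
    (hx : ∀ i, ‖x i‖ ≤ 1) (hx' : ∀ i, ‖x' i‖ ≤ 1) (hy : ∀ i, ‖y i‖ ≤ 1) (hy' : ∀ i, ‖y' i‖ ≤ 1) :
    ‖pp t x x' y y'‖ ≤ 1 :=
  DW.sum3_le fun a => DW.sum3_le fun b => DW.sum3_le fun c => DW.sum3_le fun d =>
    DW.mul_le1 (DW.mul_le1 (DW.mul_le1 (DW.mul_le1 (ht a b c d) (hx a)) (hx' b)) (hy c)) (hy' d)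

theorem pp_red [IsUltrametricDist L] (h : DW.Res π) (ht : ∀ a b c d, ‖t a b c d‖ ≤ 1)
    {x x' y y' : Fin 3 → L} (hx : ∀ i, ‖x i‖ ≤ 1) (hx' : ∀ i, ‖x' i‖ ≤ 1) (hy : ∀ i, ‖y i‖ ≤ 1)
    (hy' : ∀ i, ‖y' i‖ ≤ 1) : π (pp t x x' y y') = pp (fun a b c d => π (t a b c d))
      (fun j => π (x j)) (fun j => π (x' j)) (fun j => π (y j)) (fun j => π (y' j)) := by
  have e1 := fun a b c d => DW.mul_le1 (ht a b c d) (hx a)
  have e2 := fun a b c d => DW.mul_le1 (e1 a b c d) (hx' b)
  have e3 := fun a b c d => DW.mul_le1 (e2 a b c d) (hy c)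
  have e4 := fun a b c d => DW.mul_le1 (e3 a b c d) (hy' d)
  unfold pp
  rw [h.sum3 fun a => DW.sum3_le fun b => DW.sum3_le fun c => DW.sum3_le fun d => e4 a b c d]
  refine Finset.sum_congr rfl fun a _ => ?_
  rw [h.sum3 fun b => DW.sum3_le fun c => DW.sum3_le fun d => e4 a b c d]
  refine Finset.sum_congr rfl fun b _ => ?_
  rw [h.sum3 fun c => DW.sum3_le fun d => e4 a b c d]
  refine Finset.sum_congr rfl fun c _ => ?_
  rw [h.sum3 fun d => e4 a b c d]
  refine Finset.sum_congr rfl fun d _ => ?_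
  rw [h.mul _ _ (e3 a b c d) (hy' d), h.mul _ _ (e2 a b c d) (hy c),
    h.mul _ _ (e1 a b c d) (hx' b), h.mul _ _ (ht a b c d) (hx a)]

theorem norm_two (h : GoodPlace q₀ π t) : ‖(2 : L)‖ = 1 := by
  have := h.um
  exact h.res.norm_two h.gd.two

/-- `X` is smooth at its `L`-points -/
theorem smooth (h : GoodPlace q₀ π t) {x y : Fin 3 → L} (hx : x ≠ 0) (hy : y ≠ 0)
    (hF : fm t x y = 0) : (∃ j, pp t x (Pi.single j 1) y y ≠ 0) ∨
      ∃ j, pp t x x y (Pi.single j 1) ≠ 0 := by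
  have := h.um
  have := h.cs
  obtain ⟨b, x₀, hb, hbx, ix, i₁, hx1⟩ := DW.LOC.prim x hx
  obtain ⟨c, y₀, hc, hcy, iy, i₂, hy1⟩ := DW.LOC.prim y hy
  have hF0 : fm t x₀ y₀ = 0 := by
    have : fm t x y = (b * c) ^ 2 * fm t x₀ y₀ := by rw [hbx, hcy, fm_smul]
    rw [hF] at this
    exact (mul_eq_zero.1 this.symm).resolve_left (pow_ne_zero _ (mul_ne_zero hb hc))
  have is : ∀ j i : Fin 3, ‖(Pi.single j 1 : Fin 3 → L) i‖ ≤ 1 := by
    intro j i
    by_cases hji : i = j
    · rw [hji, Pi.single_eq_same, norm_one]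
    · rw [Pi.single_eq_of_ne hji, norm_zero]; exact zero_le_one
  have rs : ∀ j : Fin 3, (fun i => π ((Pi.single j 1 : Fin 3 → L) i)) = Pi.single j 1 := by
    intro j
    funext i
    by_cases hji : i = j
    · rw [hji, Pi.single_eq_same, Pi.single_eq_same, h.res.one]
    · rw [Pi.single_eq_of_ne hji, Pi.single_eq_of_ne hji, h.res.zero]
  by_contra hc'
  push Not at hc'
  obtain ⟨c1, c2⟩ := hc'
  have d1 : ∀ j, pp t x₀ (Pi.single j 1) y₀ y₀ = 0 := by
    intro j
    have e1 := c1 j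
    rw [hbx, hcy, pp_smul1, pp_smul3, pp_smul4] at e1
    exact (mul_eq_zero.1 ((mul_eq_zero.1 ((mul_eq_zero.1 e1).resolve_left hb)).resolve_left
      hc)).resolve_left hc
  have d2 : ∀ j, pp t x₀ x₀ y₀ (Pi.single j 1) = 0 := by
    intro j
    have e1 := c2 j
    rw [hbx, hcy, pp_smul1, pp_smul2, pp_smul3] at e1
    exact (mul_eq_zero.1 ((mul_eq_zero.1 ((mul_eq_zero.1 e1).resolve_left hb)).resolve_left
      hb)).resolve_left hc
  rcases h.gd.sm (fun i => π (x₀ i)) (fun i => π (y₀ i))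
    (fun h0 => by
      have := congrFun h0 i₁
      simp only [hx1, h.res.one] at this
      exact one_ne_zero this)
    (fun h0 => by
      have := congrFun h0 i₂
      simp only [hy1, h.res.one] at this
      exact one_ne_zero this)
    (by
      have := pp_red h.res h.it ix ix iy iy
      change _ = fm _ _ _ at this
      rw [← this]
      change π (fm t x₀ y₀) = 0
      rw [hF0, h.res.zero]) with ⟨z, hz⟩ | ⟨z, hz⟩
  · apply hz
    rw [pp_single2]
    refine Finset.sum_eq_zero fun j _ => ?_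
    rw [← rs j, ← pp_red h.res h.it ix (is j) iy iy, d1, h.res.zero, mul_zero]
  · apply hz
    rw [pp_single4]
    refine Finset.sum_eq_zero fun j _ => ?_
    rw [← rs j, ← pp_red h.res h.it ix ix iy (is j), d2, h.res.zero, mul_zero]

end loc

/-- the closure in terms of all solutions -/
def KP {K ι : Type} [Field K] {L : ι → Type} [∀ v, Field (L v)] (σ : ∀ v, K →+* L v)
    (t : Tn K) : Set (∀ v, (Fin 3 → L v) × (Fin 3 → L v)) :=
  {S | ∃ x y : Fin 3 → K, fm t x y = 0 ∧
    S = fun v => (fun i => σ v (x i), fun i => σ v (y i))}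

section glob

variable {K ι : Type} [Field K] {L k : ι → Type} [∀ v, NontriviallyNormedField (L v)]
  [∀ v, Field (k v)] [∀ v, Fintype (k v)] {σ : ∀ v, K →+* L v} {π : ∀ v, L v → k v}
  {t : Tn K}

theorem mem_xk (S : ∀ v, (Fin 3 → L v) × (Fin 3 → L v))
    (w : ι) (h1 : (S w).1 ≠ 0) (h2 : (S w).2 ≠ 0) (h : S ∈ closure (KP σ t)) :
    S ∈ closure (XK σ t) := by
  have hO : IsOpen {S : ∀ v, (Fin 3 → L v) × (Fin 3 → L v) | (S w).1 ≠ 0 ∧ (S w).2 ≠ 0} := by
    refine IsOpen.inter ?_ ?_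
    · exact isOpen_ne.preimage (continuous_fst.comp (continuous_apply w))
    · exact isOpen_ne.preimage (continuous_snd.comp (continuous_apply w))
  rw [mem_closure_iff] at h ⊢
  intro o ho hSo
  obtain ⟨R, ⟨hR1, hR2, hR3⟩, x, y, hxy, rfl⟩ := h _ (ho.inter hO) ⟨hSo, h1, h2⟩
  refine ⟨_, hR1, x, y, ?_, ?_, hxy, rfl⟩
  · rintro rfl
    exact hR2 (funext fun i => by simp)
  · rintro rfl
    exact hR3 (funext fun i => by simp)

/-- approximation from a rational point -/
theorem approx {q₀ : ℕ} {w : List Bool}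
    (hLOC : ∀ (L k : Type) [NontriviallyNormedField L]
      [IsUltrametricDist L] [CompleteSpace L] [Field k] [Fintype k] (π : L → k), DW.Res π →
      q₀ ≤ Fintype.card k → ∀ t : Tn L, Sy t → (∀ a b c d, ‖t a b c d‖ ≤ 1) →
      Gd (fun a b c d => π (t a b c d)) → ∀ p q : (Fin 3 → L) × (Fin 3 → L),
      fm t p.1 p.2 = 0 → fm t q.1 q.2 = 0 → (∃ x', pl t q.2 q.1 x' ≠ 0) →
      ((∃ x', pl t p.2 p.1 x' ≠ 0) → Wd t w p q) ∧
      ((∃ y', pl (tr t) p.1 p.2 y' ≠ 0) → Wd t (false :: w) p q))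
    (hDEN : ∀ (L k : Type) [NontriviallyNormedField L] [IsUltrametricDist L]
      [CompleteSpace L] [Field k] [Fintype k] (π : L → k), DW.Res π → q₀ ≤ Fintype.card k →
      ∀ t : Tn L, Sy t → (∀ a b c d, ‖t a b c d‖ ≤ 1) → Gd (fun a b c d => π (t a b c d)) →
      ∀ x y : Fin 3 → L, x ≠ 0 → y ≠ 0 → fm t x y = 0 → ∀ ε : ℝ, 0 < ε →
      ∃ x' y' : Fin 3 → L, fm t x' y' = 0 ∧ (∃ z, pl t y' x' z ≠ 0) ∧
        ∀ i, ‖x' i - x i‖ < ε ∧ ‖y' i - y i‖ < ε)
    (hCLO : StmCLO) (hσ : DenseRange fun (b : K) (v : ι) => σ v b)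
    (h2 : (2 : K) ≠ 0) (hs : Sy t) (G : Set ι)
    (hG : ∀ v ∈ G, GoodPlace q₀ (π v) (fun a b c d => σ v (t a b c d)))
    (x y : Fin 3 → K) (hxy : fm t x y = 0)
    (hb : (∃ x', pl t y x x' ≠ 0) ∨ ∃ y', pl (tr t) x y y' ≠ 0)
    (hS : ∀ v ∉ G, Sm (fun a b c d => σ v (t a b c d))
      (fun i => σ v (x i), fun i => σ v (y i)))
    (S : ∀ v, (Fin 3 → L v) × (Fin 3 → L v))
    (hS1 : ∀ v ∉ G, S v = (fun i => σ v (x i), fun i => σ v (y i)))
    (hS2 : ∀ v ∈ G, Pt (fun a b c d => σ v (t a b c d)) (S v)) :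
    S ∈ closure (KP σ t) := by
  classical
  have hsy : ∀ v, Sy (fun a b c d => σ v (t a b c d)) := fun v =>
    ⟨fun a b c d => congrArg (σ v) (hs.1 a b c d), fun a b c d => congrArg (σ v) (hs.2 a b c d)⟩
  obtain ⟨w', hw'⟩ : ∃ w' : List Bool, ∀ v ∈ G, ∀ q : (Fin 3 → L v) × (Fin 3 → L v),
      fm (fun a b c d => σ v (t a b c d)) q.1 q.2 = 0 →
      (∃ z, pl (fun a b c d => σ v (t a b c d)) q.2 q.1 z ≠ 0) →
      Wd (fun a b c d => σ v (t a b c d)) w' (fun i => σ v (x i), fun i => σ v (y i)) q := by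
    rcases hb with ⟨u, hu⟩ | ⟨u, hu⟩
    · refine ⟨w, fun v hv q hq1 hq2 => ?_⟩
      have := (hG v hv).um
      have := (hG v hv).cs
      have hF : fm (fun a b c d => σ v (t a b c d)) (fun i => σ v (x i))
          (fun i => σ v (y i)) = 0 := by rw [← fm_map, hxy, map_zero]
      have hu' : pl (fun a b c d => σ v (t a b c d)) (fun i => σ v (y i)) (fun i => σ v (x i))
          (fun i => σ v (u i)) ≠ 0 := by
        rw [← pl_map]
        exact (map_ne_zero (σ v)).2 hu
      have hl := hLOC (L v) (k v) (π v) (hG v hv).res (hG v hv).card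
        (fun a b c d => σ v (t a b c d)) (hsy v) (hG v hv).it
        (hG v hv).gd (fun i => σ v (x i), fun i => σ v (y i)) q hF hq1 hq2
      exact hl.1 ⟨fun i => σ v (u i), hu'⟩
    · refine ⟨false :: w, fun v hv q hq1 hq2 => ?_⟩
      have := (hG v hv).um
      have := (hG v hv).cs
      have hF : fm (fun a b c d => σ v (t a b c d)) (fun i => σ v (x i))
          (fun i => σ v (y i)) = 0 := by rw [← fm_map, hxy, map_zero]
      have hu' : pl (tr fun a b c d => σ v (t a b c d)) (fun i => σ v (x i)) (fun i => σ v (y i))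
          (fun i => σ v (u i)) ≠ 0 := by
        have e : σ v (pl (tr t) x y u) = pl (tr fun a b c d => σ v (t a b c d))
          (fun i => σ v (x i)) (fun i => σ v (y i)) (fun i => σ v (u i)) :=
          pl_map (σ v) (tr t) x y u
        rw [← e]
        exact (map_ne_zero (σ v)).2 hu
      have hl := hLOC (L v) (k v) (π v) (hG v hv).res (hG v hv).card
        (fun a b c d => σ v (t a b c d)) (hsy v) (hG v hv).it
        (hG v hv).gd (fun i => σ v (x i), fun i => σ v (y i)) q hF hq1 hq2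
      exact hl.2 ⟨fun i => σ v (u i), hu'⟩
  have key : ∀ S : ∀ v, (Fin 3 → L v) × (Fin 3 → L v),
      (∀ v ∉ G, S v = (fun i => σ v (x i), fun i => σ v (y i))) →
      (∀ v ∈ G, fm (fun a b c d => σ v (t a b c d)) (S v).1 (S v).2 = 0 ∧
        ∃ z, pl (fun a b c d => σ v (t a b c d)) (S v).2 (S v).1 z ≠ 0) →
      S ∈ closure (KP σ t) := by
    intro S hS1 hS2
    refine hCLO K ι L σ hσ t h2 hs w' G
      (fun v => (fun i => σ v (x i), fun i => σ v (y i))) S ?_ ?_ ?_
    · intro v hv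
      have hF : fm (fun a b c d => σ v (t a b c d)) (fun i => σ v (x i))
          (fun i => σ v (y i)) = 0 := by rw [← fm_map, hxy, map_zero]
      exact ⟨hF, hw' v hv _ (hS2 v hv).1 (hS2 v hv).2⟩
    · intro v hv
      obtain ⟨⟨s1, s2, s3⟩, s4, s5⟩ := hS v hv
      exact ⟨(hS1 v hv).symm, s1, s2, s3, s4, s5⟩
    · exact subset_closure ⟨x, y, hxy, rfl⟩
  have happ : ∀ (N : ℕ) (v : ι), ∃ R : (Fin 3 → L v) × (Fin 3 → L v),
      (v ∉ G → R = S v) ∧ (v ∈ G →
        (fm (fun a b c d => σ v (t a b c d)) R.1 R.2 = 0 ∧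
        ∃ z, pl (fun a b c d => σ v (t a b c d)) R.2 R.1 z ≠ 0) ∧
        ∀ i, ‖R.1 i - (S v).1 i‖ < 1 / (N + 1) ∧ ‖R.2 i - (S v).2 i‖ < 1 / (N + 1)) := by
    intro N v
    by_cases hv : v ∈ G
    · have := (hG v hv).um
      have := (hG v hv).cs
      obtain ⟨s1, s2, s3⟩ := hS2 v hv
      obtain ⟨x', y', h1, h3, h4⟩ := hDEN (L v) (k v) (π v) (hG v hv).res (hG v hv).card
        (fun a b c d => σ v (t a b c d)) (hsy v)
        (hG v hv).it (hG v hv).gd (S v).1 (S v).2 s1 s2 s3 (1 / (N + 1)) (by positivity)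
      exact ⟨(x', y'), fun h => absurd hv h, fun _ => ⟨⟨h1, h3⟩, h4⟩⟩
    · exact ⟨S v, fun _ => rfl, fun h => absurd h hv⟩
  choose R hR1 hR2 using happ
  have hRcl : ∀ N, (fun v => R N v) ∈ closure (KP σ t) := by
    intro N
    refine key _ (fun v hv => ?_) (fun v hv => (hR2 N v hv).1)
    rw [hR1 N v hv, hS1 v hv]
  have hlim : Tendsto (fun N v => R N v) atTop (𝓝 S) := by
    rw [tendsto_pi_nhds]
    intro v
    by_cases hv : v ∈ G
    · have key : ∀ (f : ℕ → Fin 3 → L v) (s : Fin 3 → L v),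
          (∀ n i, ‖f n i - s i‖ < 1 / ((n : ℝ) + 1)) → Tendsto f atTop (𝓝 s) := by
        intro f s hf
        rw [tendsto_pi_nhds]
        intro i
        rw [tendsto_iff_norm_sub_tendsto_zero]
        exact squeeze_zero (fun n => norm_nonneg _) (fun n => (hf n i).le)
          tendsto_one_div_add_atTop_nhds_zero_nat
      exact (key _ _ fun n i => ((hR2 n v hv).2 i).1).prodMk_nhds
        (key _ _ fun n i => ((hR2 n v hv).2 i).2)
    · have : (fun n => R n v) = fun _ => S v := funext fun n => by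
        rw [hR1 n v hv]
      rw [this]
      exact tendsto_const_nhds
  have := mem_closure_of_tendsto hlim (Eventually.of_forall hRcl)
  rwa [closure_closure] at this

end glob

end MAIN

open MAIN in
theorem main (hLOC : StmLOC) (hDEN : StmDEN) (hCLO : StmCLO) : ∃ q₀ : ℕ,
    ∀ (K ι : Type) [Field K] (L k : ι → Type) [∀ v, NontriviallyNormedField (L v)]
      [∀ v, Field (k v)] [∀ v, Fintype (k v)] (σ : ∀ v, K →+* L v) (π : ∀ v, L v → k v)
      (t : Tn K), Sy t → (DenseRange fun (b : K) (v : ι) => σ v b) → ∀ G : Set ι,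
      (∀ v ∈ G, GoodPlace q₀ (π v) fun a b c d => σ v (t a b c d)) →
      ∀ T ∈ closure (XK σ t), (∀ v ∉ G, Sm (fun a b c d => σ v (t a b c d)) (T v)) →
      ∀ S : ∀ v, (Fin 3 → L v) × (Fin 3 → L v), (∀ v ∉ G, S v = T v) →
      (∀ v ∈ G, Pt (fun a b c d => σ v (t a b c d)) (S v)) → S ∈ closure (XK σ t) := by
  classical
  obtain ⟨q₁, w, hloc⟩ := hLOC
  obtain ⟨q₂, hden⟩ := hDEN
  refine ⟨max q₁ q₂, ?_⟩
  intro K ι _ L k _ _ _ σ π t hs hσ G hG T hT hTo S hSG hS
  by_cases hne : G.Nonempty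
  swap
  · have : S = T := funext fun v => hSG v fun hv => hne ⟨v, hv⟩
    rw [this]
    exact hT
  obtain ⟨v₀, hv₀⟩ := hne
  refine mem_xk S v₀ (hS v₀ hv₀).1 (hS v₀ hv₀).2.1 ?_
  have h2 : (2 : K) ≠ 0 := by
    have h3 := norm_two (hG v₀ hv₀)
    intro h0
    rw [← map_ofNat (σ v₀) 2, h0, map_zero, norm_zero] at h3
    exact zero_ne_one h3
  -- the rational points
  have main1 : ∀ x y : Fin 3 → K, x ≠ 0 → y ≠ 0 → fm t x y = 0 →
      (∀ v ∉ G, Sm (fun a b c d => σ v (t a b c d))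
        (fun i => σ v (x i), fun i => σ v (y i))) →
      (fun v => if v ∈ G then S v else (fun i => σ v (x i), fun i => σ v (y i))) ∈
        closure (KP σ t) := by
    intro x y hx hy hF hSm
    have hx' : (fun i => σ v₀ (x i)) ≠ 0 := by
      intro h0
      apply hx
      funext i
      exact (map_eq_zero (σ v₀)).1 (congrFun h0 i)
    have hy' : (fun i => σ v₀ (y i)) ≠ 0 := by
      intro h0
      apply hy
      funext i
      exact (map_eq_zero (σ v₀)).1 (congrFun h0 i)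
    have es : ∀ j : Fin 3, (fun i => σ v₀ ((Pi.single j 1 : Fin 3 → K) i)) = Pi.single j 1 := by
      intro j
      funext i
      by_cases hji : i = j
      · rw [hji, Pi.single_eq_same, Pi.single_eq_same, map_one]
      · rw [Pi.single_eq_of_ne hji, Pi.single_eq_of_ne hji, map_zero]
    refine approx (π := π) (q₀ := max q₁ q₂)
      (fun L k _ _ _ _ _ π h1 h2 => hloc L k π h1 ((le_max_left _ _).trans h2))
      (fun L k _ _ _ _ _ π h1 h2 => hden L k π h1 ((le_max_right _ _).trans h2))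
      hCLO hσ h2 hs G hG x y hF ?_ hSm _ (fun v hv => if_neg hv)
      (fun v hv => by rw [if_pos hv]; exact hS v hv)
    rcases smooth (hG v₀ hv₀) hx' hy' (by rw [← fm_map, hF, map_zero]) with ⟨j, hj⟩ | ⟨j, hj⟩
    · refine Or.inl ⟨Pi.single j 1, fun h0 => hj ?_⟩
      rw [← es j, ← pp_map]
      change σ v₀ (pl t y x (Pi.single j 1)) = 0
      rw [h0, map_zero]
    · refine Or.inr ⟨Pi.single j 1, fun h0 => hj ?_⟩
      rw [← es j, ← pp_map, ← pl_tr, h0, map_zero]
  -- the limit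
  have hΘ : Continuous fun (R : ∀ v, (Fin 3 → L v) × (Fin 3 → L v)) v =>
      if v ∈ G then S v else R v := by
    refine continuous_pi fun v => ?_
    by_cases hv : v ∈ G
    · simp only [if_pos hv]
      exact continuous_const
    · simp only [if_neg hv]
      exact continuous_apply v
  have hST : S = (fun (R : ∀ v, (Fin 3 → L v) × (Fin 3 → L v)) v =>
      if v ∈ G then S v else R v) T := by
    funext v
    by_cases hv : v ∈ G
    · simp only [if_pos hv]
    · simp only [if_neg hv]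
      exact hSG v hv
  have hfin : ∀ U : Set (∀ v, (Fin 3 → L v) × (Fin 3 → L v)), IsOpen U → T ∈ U →
      (∀ x y : Fin 3 → K, x ≠ 0 → y ≠ 0 → fm t x y = 0 →
        (fun v => (fun i => σ v (x i), fun i => σ v (y i))) ∈ U →
        ∀ v ∉ G, Sm (fun a b c d => σ v (t a b c d))
        (fun i => σ v (x i), fun i => σ v (y i))) → S ∈ closure (KP σ t) := by
    intro U hU hTU hUU
    have h3 : T ∈ closure (XK σ t ∩ U) := by
      rw [Set.inter_comm]
      exact hU.inter_closure ⟨hTU, hT⟩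
    rw [hST]
    have h4 := map_mem_closure hΘ h3 (t := closure (KP σ t)) (by
      rintro R ⟨⟨x, y, hx, hy, hF, rfl⟩, hRU⟩
      exact main1 x y hx hy hF (hUU x y hx hy hF hRU))
    rwa [closure_closure] at h4
  by_cases hne' : ∃ v₁, v₁ ∉ G
  · obtain ⟨v₁, hv₁⟩ := hne'
    obtain ⟨-, t4, t5⟩ := hTo v₁ hv₁
    have hc1 : Continuous fun R : ∀ v, (Fin 3 → L v) × (Fin 3 → L v) =>
        (dm (fun a b c d => σ v₁ (t a b c d)) (R v₁).2).det := by
      have : Continuous fun y : Fin 3 → L v₁ =>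
          (dm (fun a b c d => σ v₁ (t a b c d)) y).det := by
        refine Continuous.matrix_det (continuous_matrix fun a b => ?_)
        simp only [dm, Matrix.of_apply]
        fun_prop
      exact this.comp (continuous_snd.comp (continuous_apply v₁))
    have hc2 : Continuous fun R : ∀ v, (Fin 3 → L v) × (Fin 3 → L v) =>
        (dm (tr (fun a b c d => σ v₁ (t a b c d))) (R v₁).1).det := by
      have : Continuous fun y : Fin 3 → L v₁ =>
          (dm (tr (fun a b c d => σ v₁ (t a b c d))) y).det := by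
        refine Continuous.matrix_det (continuous_matrix fun a b => ?_)
        simp only [dm, Matrix.of_apply]
        fun_prop
      exact this.comp (continuous_fst.comp (continuous_apply v₁))
    refine hfin ({R | (dm (fun a b c d => σ v₁ (t a b c d)) (R v₁).2).det ≠ 0} ∩
      {R | (dm (tr (fun a b c d => σ v₁ (t a b c d))) (R v₁).1).det ≠ 0})
      ((isOpen_ne.preimage hc1).inter (isOpen_ne.preimage hc2)) ⟨t4, t5⟩ ?_
    rintro x y hx hy hF ⟨u1, u2⟩ v hv
    have d1 : (dm t y).det ≠ 0 := by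
      intro h0
      apply u1
      change (dm _ fun i => σ v₁ (y i)).det = 0
      rw [← dm_map, h0, map_zero]
    have d2 : (dm (tr t) x).det ≠ 0 := by
      intro h0
      apply u2
      change (dm (fun a b c d => σ v₁ (tr t a b c d)) fun i => σ v₁ (x i)).det = 0
      rw [← dm_map, h0, map_zero]
    refine ⟨⟨?_, ?_, ?_⟩, ?_, ?_⟩
    · intro h0
      apply hx
      funext i
      exact (map_eq_zero (σ v)).1 (congrFun h0 i)
    · intro h0
      apply hy
      funext i
      exact (map_eq_zero (σ v)).1 (congrFun h0 i)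
    · change fm _ (fun i => σ v (x i)) (fun i => σ v (y i)) = 0
      rw [← fm_map, hF, map_zero]
    · change (dm _ fun i => σ v (y i)).det ≠ 0
      rw [← dm_map]
      exact (map_ne_zero (σ v)).2 d1
    · change (dm (fun a b c d => σ v (tr t a b c d)) fun i => σ v (x i)).det ≠ 0
      rw [← dm_map]
      exact (map_ne_zero (σ v)).2 d2
  · push Not at hne'
    exact hfin Set.univ isOpen_univ trivial fun x y _ _ _ _ v hv => absurd (hne' v) hv

end Pool.Agent.T6.H77.VR
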