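import Pool.Agent.T6.H77.VR.BAS
import Pool.Agent.T6.H77.RK.ZJD
import Pool.Agent.T6.H77.RK.COTW

/-!
# Connection with the hub (module CON, helper22)
-/

set_option autoImplicit false

namespace Pool.Agent.T6.H77.VR.CONN

open Polynomial
open Pool.Agent.T6.H77.RK.COTW (bl dv cr)

section alg

theorem fall3 {p : Fin 3 → Prop} : (∀ i, p i) ↔ p 0 ∧ p 1 ∧ p 2 := by
  constructor
  · intro h
    exact ⟨h 0, h 1, h 2⟩
  · rintro ⟨h0, h1, h2⟩ i
    fin_cases i
    · exact h0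
    · exact h1
    · exact h2

variable {k : Type} [Field k]

theorem sub_deg {p q : k[X]} {n : ℕ} (hp : p.natDegree ≤ n) (hq : q.natDegree ≤ n) :
    (p - q).natDegree ≤ n :=
  (natDegree_sub_le_of_le hp hq).trans (max_le le_rfl le_rfl)

/-- a vector whose cross product with `n ≠ 0` is zero is a multiple of `n` -/
theorem prop (v n : Fin 3 → k) (hn : n ≠ 0) (h : cr v n = 0) : ∃ c : k, v = c • n := by
  have h0 : v 1 * n 2 = v 2 * n 1 := by
    have := congrFun h 0; simp only [cr, Matrix.cons_val_zero, Pi.zero_apply] at this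
    linear_combination this
  have h1 : v 2 * n 0 = v 0 * n 2 := by
    have := congrFun h 1
    simp only [cr, Matrix.cons_val_one, Matrix.cons_val_zero, Pi.zero_apply] at this
    linear_combination this
  have h2 : v 0 * n 1 = v 1 * n 0 := by
    have := congrFun h 2
    simp only [cr, Matrix.cons_val, Pi.zero_apply] at this
    linear_combination this
  obtain ⟨i, hi⟩ : ∃ i, n i ≠ 0 := by
    by_contra hc
    push Not at hc
    exact hn (funext hc)
  refine ⟨v i / n i, ?_⟩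
  funext j
  simp only [Pi.smul_apply, smul_eq_mul]
  rw [div_mul_eq_mul_div, eq_div_iff hi]
  revert j
  rw [fall3]
  revert i
  rw [fall3]
  refine ⟨fun _ => ⟨rfl, h2.symm, h1⟩, fun _ => ⟨h2, rfl, h0.symm⟩, fun _ => ⟨h1.symm, h0, rfl⟩⟩

theorem cr_cr (v z x : Fin 3 → k) (h1 : ∑ i, v i * z i = 0) (h2 : ∑ i, v i * x i = 0) :
    cr v (cr z x) = 0 := by
  rw [Fin.sum_univ_three] at h1 h2
  funext i
  revert i
  rw [fall3]
  refine ⟨?_, ?_, ?_⟩
  · simp only [cr, Matrix.cons_val_zero, Matrix.cons_val_one, Matrix.cons_val, Pi.zero_apply]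
    linear_combination z 0 * h2 - x 0 * h1
  · simp only [cr, Matrix.cons_val_zero, Matrix.cons_val_one, Matrix.cons_val, Pi.zero_apply]
    linear_combination z 1 * h2 - x 1 * h1
  · simp only [cr, Matrix.cons_val_zero, Matrix.cons_val_one, Matrix.cons_val, Pi.zero_apply]
    linear_combination z 2 * h2 - x 2 * h1

theorem dv_eq (D : Matrix (Fin 3) (Fin 3) k) (x : Fin 3 → k) : dv D x = D.mulVec x := by
  funext i
  rfl

theorem bl_dot (D : Matrix (Fin 3) (Fin 3) k) (hD : ∀ a b, D a b = D b a) (x z : Fin 3 → k) :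
    ∑ i, dv D x i * z i = bl D x z := by
  simp only [bl, dv, Fin.sum_univ_three]
  rw [hD 1 0, hD 2 0, hD 2 1]
  ring

theorem cr_self (n : Fin 3 → k) (c : k) : cr n (c • n) = 0 := by
  funext i
  revert i
  rw [fall3]
  simp only [cr, Pi.smul_apply, smul_eq_mul, Matrix.cons_val_zero, Matrix.cons_val_one,
    Matrix.cons_val, Pi.zero_apply]
  refine ⟨?_, ?_, ?_⟩ <;> ring

/-- two isotropic vectors which are orthogonal are proportional -/
theorem iso (D : Matrix (Fin 3) (Fin 3) k) (hD : ∀ a b, D a b = D b a) (hdet : D.det ≠ 0)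
    (z x : Fin 3 → k) (hz : z ≠ 0) (hzz : bl D z z = 0) (hxx : bl D x x = 0)
    (hzx : bl D z x = 0) : ∃ c : k, x = c • z := by
  have hxz : bl D x z = 0 := by rw [RK.COTW.bl_symm D hD]; exact hzx
  by_cases hn : cr z x = 0
  · have h1 : cr x z = 0 := by
      funext i
      revert i
      have e0 := congrFun hn 0
      have e1 := congrFun hn 1
      have e2 := congrFun hn 2
      rw [fall3]
      simp only [cr, Matrix.cons_val_zero, Matrix.cons_val_one,
        Matrix.cons_val, Pi.zero_apply] at e0 e1 e2 ⊢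
      refine ⟨?_, ?_, ?_⟩
      · linear_combination -e0
      · linear_combination -e1
      · linear_combination -e2
    exact prop x z hz h1
  · obtain ⟨c1, h1⟩ := prop (dv D z) (cr z x) hn
      (cr_cr _ _ _ (by rw [bl_dot D hD]; exact hzz) (by rw [bl_dot D hD]; exact hzx))
    obtain ⟨c2, h2⟩ := prop (dv D x) (cr z x) hn
      (cr_cr _ _ _ (by rw [bl_dot D hD]; exact hxz) (by rw [bl_dot D hD]; exact hxx))
    have hc1 : c1 ≠ 0 := by
      rintro rfl
      rw [zero_smul, dv_eq] at h1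
      exact hz (Matrix.eq_zero_of_mulVec_eq_zero hdet h1)
    have h3 : D.mulVec (c2 • z - c1 • x) = 0 := by
      rw [Matrix.mulVec_sub, Matrix.mulVec_smul, Matrix.mulVec_smul, ← dv_eq, ← dv_eq, h1, h2,
        smul_smul, smul_smul, mul_comm, sub_self]
    have h4 := Matrix.eq_zero_of_mulVec_eq_zero hdet h3
    have h5 : c1 • x = c2 • z := (sub_eq_zero.mp h4).symm
    refine ⟨c2 / c1, ?_⟩
    rw [div_eq_inv_mul, ← smul_smul, ← h5, smul_smul, inv_mul_cancel₀ hc1, one_smul]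

/-- coordinates in the basis `b₁, b₂, b₃` -/
theorem coord (b₁ b₂ b₃ : Fin 3 → k) (hdet : (Matrix.of ![b₁, b₂, b₃]).det ≠ 0)
    (y : Fin 3 → k) : ∃ r s v : k, y = r • b₁ + s • b₂ + v • b₃ := by
  set M := Matrix.of ![b₁, b₂, b₃] with hM
  have hu : IsUnit M.det := isUnit_iff_ne_zero.mpr hdet
  set c := Matrix.vecMul y M⁻¹ with hc
  have h1 : Matrix.vecMul c M = y := by
    rw [hc, Matrix.vecMul_vecMul, Matrix.nonsing_inv_mul _ hu, Matrix.vecMul_one]
  refine ⟨c 0, c 1, c 2, ?_⟩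
  rw [← h1]
  funext j
  simp [Matrix.vecMul, dotProduct, Fin.sum_univ_three, hM]

/-- independence -/
theorem indep (b₁ b₂ b₃ : Fin 3 → k) (hdet : (Matrix.of ![b₁, b₂, b₃]).det ≠ 0)
    (r s v : k) (h : r • b₁ + s • b₂ + v • b₃ = 0) : r = 0 ∧ s = 0 ∧ v = 0 := by
  have h1 : Matrix.vecMul ![r, s, v] (Matrix.of ![b₁, b₂, b₃]) = 0 := by
    rw [← h]
    funext j
    simp [Matrix.vecMul, dotProduct, Fin.sum_univ_three]
  have h2 := Matrix.eq_zero_of_vecMul_eq_zero hdet h1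
  exact ⟨congrFun h2 0, congrFun h2 1, congrFun h2 2⟩

/-- the discriminant on a line has at most six zeros -/
theorem six [Fintype k] (t : Tn k) (b₁ b₂ : Fin 3 → k)
    (h : ∃ r s : k, (dm t (r • b₁ + s • b₂)).det ≠ 0) :
    {σ : k | (dm t (b₁ + σ • b₂)).det = 0}.ncard ≤ 6 := by
  classical
  set M : Matrix (Fin 3) (Fin 3) (Polynomial k) :=
    Matrix.of fun a b => C (dm t b₂ a b) * X ^ 2 +
      C (∑ c, ∑ d, t a b c d * (b₁ c * b₂ d + b₂ c * b₁ d)) * X + C (dm t b₁ a b) with hM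
  have hd : ∀ i j, (M i j).natDegree ≤ 2 := fun i j => RK.ZJD.quad_deg _ _ _
  obtain ⟨h1, h2⟩ := RK.ZJD.deg_det 2 M hd
  have h3 : (Matrix.of fun i j => (M i j).coeff 2) = dm t b₂ := by
    ext i j
    exact RK.ZJD.quad_coeff _ _ _
  rw [h3] at h2
  have hev : ∀ σ : k, M.det.eval σ = (dm t (b₁ + σ • b₂)).det := by
    intro σ
    have h4 : (evalRingHom σ) M.det = (dm t (b₁ + σ • b₂)).det := by
      rw [RingHom.map_det]
      congr 1
      ext i j
      simp only [hM, RingHom.mapMatrix_apply, Matrix.map_apply, Matrix.of_apply, dm,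
        coe_evalRingHom, eval_add, eval_mul, eval_C, eval_X, eval_pow, Fin.sum_univ_three,
        Pi.add_apply, Pi.smul_apply, smul_eq_mul]
      ring
    simpa using h4
  have hdm : ∀ (c : k) (y : Fin 3 → k), (dm t (c • y)).det = (c ^ 2) ^ 3 * (dm t y).det := by
    intro c y
    have e : dm t (c • y) = (c ^ 2) • dm t y := by
      ext i j
      simp only [dm, Matrix.of_apply, Matrix.smul_apply, Pi.smul_apply, smul_eq_mul,
        Finset.mul_sum]
      refine Finset.sum_congr rfl fun a _ => Finset.sum_congr rfl fun b _ => ?_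
      ring
    rw [e, Matrix.det_smul, Fintype.card_fin]
  have hP : M.det ≠ 0 := by
    intro h0
    obtain ⟨r, s, hrs⟩ := h
    rw [h0, coeff_zero] at h2
    by_cases hr : r = 0
    · subst hr
      rw [zero_smul, zero_add, hdm, ← h2, mul_zero] at hrs
      exact hrs rfl
    · have e : r • b₁ + s • b₂ = r • (b₁ + (s / r) • b₂) := by
        rw [smul_add, smul_smul, mul_div_cancel₀ s hr]
      rw [e, hdm, ← hev, h0, eval_zero, mul_zero] at hrs
      exact hrs rfl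
  have hsub : {σ : k | (dm t (b₁ + σ • b₂)).det = 0} ⊆ (M.det.roots.toFinset : Set k) := by
    intro σ hσ
    rw [Finset.mem_coe, Multiset.mem_toFinset, Polynomial.mem_roots hP]
    show M.det.eval σ = 0
    rw [hev]
    exact hσ
  calc _ ≤ (M.det.roots.toFinset : Set k).ncard := Set.ncard_le_ncard hsub (Finset.finite_toSet _)
    _ = M.det.roots.toFinset.card := Set.ncard_coe_finset _
    _ ≤ Multiset.card M.det.roots := Multiset.toFinset_card_le _
    _ ≤ M.det.natDegree := Polynomial.card_roots' _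
    _ ≤ 6 := by simpa using h1

theorem pp_deg (t : Tn k) (x x' y y' : Fin 3 → k[X]) (a b c d : ℕ)
    (hx : ∀ i, (x i).natDegree ≤ a) (hx' : ∀ i, (x' i).natDegree ≤ b)
    (hy : ∀ i, (y i).natDegree ≤ c) (hy' : ∀ i, (y' i).natDegree ≤ d) :
    (pp (ct t) x x' y y').natDegree ≤ a + b + c + d := by
  unfold pp
  refine natDegree_sum_le_of_forall_le _ _ fun i _ => natDegree_sum_le_of_forall_le _ _ fun j _ =>
    natDegree_sum_le_of_forall_le _ _ fun l _ => natDegree_sum_le_of_forall_le _ _ fun m _ => ?_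
  have h0 : (ct t i j l m).natDegree ≤ 0 := by
    unfold ct
    rw [natDegree_C]
  have h1 := natDegree_mul_le_of_le (natDegree_mul_le_of_le (natDegree_mul_le_of_le
    (natDegree_mul_le_of_le h0 (hx i)) (hx' j)) (hy l)) (hy' m)
  simpa using h1

theorem cv_deg (v : Fin 3 → k) (i : Fin 3) : (cv v i).natDegree ≤ 0 := by
  unfold cv
  rw [natDegree_C]

theorem uv_deg (u₀ u₁ : Fin 3 → k) (i : Fin 3) : (uv u₀ u₁ i).natDegree ≤ 1 := by
  unfold uv
  compute_degree

theorem le_of_le' {p : k[X]} {a b : ℕ} (h : p.natDegree ≤ a) (hab : a ≤ b) : p.natDegree ≤ b :=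
  h.trans hab

theorem dp_deg (t : Tn k) (x₀ u₀ u₁ w : Fin 3 → k) : (dp t x₀ u₀ u₁ w).natDegree ≤ 2 := by
  unfold dp dl pl fm
  have h1 := pp_deg t (cv x₀) (uv u₀ u₁) (cv w) (cv w) 0 1 0 0 (cv_deg _) (uv_deg _ _) (cv_deg _)
    (cv_deg _)
  have h2 := pp_deg t (cv x₀) (cv x₀) (cv w) (cv w) 0 0 0 0 (cv_deg _) (cv_deg _) (cv_deg _)
    (cv_deg _)
  have h3 := pp_deg t (uv u₀ u₁) (uv u₀ u₁) (cv w) (cv w) 1 1 0 0 (uv_deg _ _) (uv_deg _ _)
    (cv_deg _) (cv_deg _)
  refine sub_deg ?_ ?_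
  · exact (natDegree_pow_le_of_le 2 h1).trans (by norm_num)
  · exact (natDegree_mul_le_of_le h2 h3).trans (by norm_num)

theorem ofNat_deg (n : ℕ) [n.AtLeastTwo] : (OfNat.ofNat n : k[X]).natDegree ≤ 0 := by
  rw [natDegree_ofNat]

theorem np_deg (t : Tn k) (x₀ b₁ b₂ u₀ u₁ w : Fin 3 → k) :
    (np t x₀ b₁ b₂ u₀ u₁ w).natDegree ≤ 8 := by
  have f0 : (fm (ct t) (cv x₀) (cv w)).natDegree ≤ 0 :=
    pp_deg t (cv x₀) (cv x₀) (cv w) (cv w) 0 0 0 0 (cv_deg _) (cv_deg _) (cv_deg _) (cv_deg _)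
  have p1 : (pl (ct t) (cv w) (cv x₀) (uv u₀ u₁)).natDegree ≤ 1 :=
    pp_deg t (cv x₀) (uv u₀ u₁) (cv w) (cv w) 0 1 0 0 (cv_deg _) (uv_deg _ _) (cv_deg _)
    (cv_deg _)
  have f2 : ∀ a b : Fin 3 → k, (pp (ct t) (uv u₀ u₁) (uv u₀ u₁) (cv a) (cv b)).natDegree ≤ 2 :=
    fun a b => pp_deg t (uv u₀ u₁) (uv u₀ u₁) (cv a) (cv b) 1 1 0 0 (uv_deg _ _) (uv_deg _ _)
    (cv_deg _) (cv_deg _)
  have g1 : ∀ a b : Fin 3 → k, (pp (ct t) (cv x₀) (uv u₀ u₁) (cv a) (cv b)).natDegree ≤ 1 :=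
    fun a b => pp_deg t (cv x₀) (uv u₀ u₁) (cv a) (cv b) 0 1 0 0 (cv_deg _) (uv_deg _ _)
    (cv_deg _) (cv_deg _)
  have de4 : (de (ct t) (cv b₁) (cv b₂) (uv u₀ u₁)).natDegree ≤ 4 := by
    unfold de fm
    refine sub_deg ?_ ?_
    · exact (natDegree_pow_le_of_le 2 (f2 b₁ b₂)).trans (by norm_num)
    · exact (natDegree_mul_le_of_le (f2 b₁ b₁) (f2 b₂ b₂)).trans (by norm_num)
  have cA2 : (cA (ct t) (cv x₀) (cv b₁) (cv b₂) (uv u₀ u₁)).natDegree ≤ 2 := by
    unfold cA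
    refine sub_deg ?_ ?_
    · exact (natDegree_pow_le_of_le 2 (g1 b₁ b₂)).trans (by norm_num)
    · exact (natDegree_mul_le_of_le (g1 b₁ b₁) (g1 b₂ b₂)).trans (by norm_num)
  have cB3 : (cB (ct t) (cv x₀) (cv b₁) (cv b₂) (uv u₀ u₁)).natDegree ≤ 3 := by
    unfold cB
    refine sub_deg (sub_deg ?_ ?_) ?_
    · exact (natDegree_mul_le_of_le (natDegree_mul_le_of_le (ofNat_deg 2) (g1 b₁ b₂))
        (f2 b₁ b₂)).trans (by norm_num)
    · exact (natDegree_mul_le_of_le (g1 b₁ b₁) (f2 b₂ b₂)).trans (by norm_num)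
    · exact (natDegree_mul_le_of_le (g1 b₂ b₂) (f2 b₁ b₁)).trans (by norm_num)
  have fu : (fm (ct t) (uv u₀ u₁) (cv w)).natDegree ≤ 2 := f2 w w
  unfold np nn
  refine sub_deg ?_ ?_
  · refine (natDegree_pow_le_of_le 2 (m := 4) ?_).trans (by norm_num)
    refine sub_deg ?_ ?_
    · exact (natDegree_mul_le_of_le f0 de4).trans (by norm_num)
    · exact (natDegree_mul_le_of_le (natDegree_mul_le_of_le (ofNat_deg 4) fu) cA2).trans
        (by norm_num)
  · refine (natDegree_mul_le_of_le (m := 3) (n := 5) (natDegree_mul_le_of_le (m := 0) (n := 3)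
      (ofNat_deg 4) ?_ |>.trans (by norm_num)) ?_).trans (by norm_num)
    · refine sub_deg ?_ ?_
      · exact (natDegree_mul_le_of_le f0 cB3).trans (by norm_num)
      · exact (natDegree_mul_le_of_le (natDegree_mul_le_of_le (ofNat_deg 4) p1) cA2).trans
          (by norm_num)
    · refine sub_deg ?_ ?_
      · exact (natDegree_mul_le_of_le p1 de4).trans (by norm_num)
      · exact (natDegree_mul_le_of_le fu cB3).trans (by norm_num)

/-- the quadratic form on the line `b₁, b₂` -/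
theorem fm_line {t : Tn k} (hs : Sy t) (x b₁ b₂ : Fin 3 → k) (r s : k) :
    fm t x (r • b₁ + s • b₂) =
      r ^ 2 * fm t x b₁ + 2 * (r * s * pp t x x b₁ b₂) + s ^ 2 * fm t x b₂ := by
  rw [fm_add_y hs, fm_smul_y, fm_smul_y, pp_smul3, pp_smul4]
  ring

theorem pp_line {t : Tn k} (x w b₁ b₂ : Fin 3 → k) (r s : k) :
    pp t x x w (r • b₁ + s • b₂) = r * pp t x x w b₁ + s * pp t x x w b₂ := by
  rw [pp_add4, pp_smul4, pp_smul4]

/-- a zero of the form on the line, which is not a zero of the linear form -/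
theorem dir {t : Tn k} (hs : Sy t) (h2 : (2 : k) ≠ 0) (x w b₁ b₂ : Fin 3 → k) (d : k)
    (hd : d ≠ 0) (hde : de t b₁ b₂ x = d ^ 2)
    (hp : ¬ (pp t x x w b₁ = 0 ∧ pp t x x w b₂ = 0)) :
    ∃ r s : k, fm t x (r • b₁ + s • b₂) = 0 ∧ pp t x x w (r • b₁ + s • b₂) ≠ 0 := by
  by_contra hcon
  push Not at hcon
  apply hp
  unfold de at hde
  set α := fm t x b₁ with hα
  set β := pp t x x b₁ b₂ with hβ
  set γ := fm t x b₂ with hγ
  by_cases ha : α = 0
  · have hb : β ≠ 0 := by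
      intro hb
      rw [ha, hb] at hde
      apply hd
      have : d ^ 2 = 0 := by rw [← hde]; ring
      exact pow_eq_zero_iff (two_ne_zero) |>.mp this
    have e1 := hcon 1 0 (by rw [fm_line hs, ← hα, ← hβ, ← hγ, ha]; ring)
    rw [pp_line] at e1
    have P1 : pp t x x w b₁ = 0 := by linear_combination e1
    have e2 := hcon (-γ) (2 * β) (by rw [fm_line hs, ← hα, ← hβ, ← hγ, ha]; ring)
    rw [pp_line, P1] at e2
    refine ⟨P1, ?_⟩
    have e3 : (2 * β) * pp t x x w b₂ = 0 := by linear_combination e2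
    exact (mul_eq_zero.mp e3).resolve_left (mul_ne_zero h2 hb)
  · have e1 := hcon (-β + d) α (by
      rw [fm_line hs, ← hα, ← hβ, ← hγ]; linear_combination (-α) * hde)
    have e2 := hcon (-β - d) α (by
      rw [fm_line hs, ← hα, ← hβ, ← hγ]; linear_combination (-α) * hde)
    rw [pp_line] at e1 e2
    have e3 : (2 * d) * pp t x x w b₁ = 0 := by linear_combination e1 - e2
    have P1 := (mul_eq_zero.mp e3).resolve_left (mul_ne_zero h2 hd)
    rw [P1] at e1
    have e4 : α * pp t x x w b₂ = 0 := by linear_combination e1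
    exact ⟨P1, (mul_eq_zero.mp e4).resolve_left ha⟩

end alg

/-- few points of the family lie in a small set closed under scaling -/
theorem exc {k : Type} [Field k] [Fintype k] (x₀ u₀ u₁ : Fin 3 → k)
    (hdet : (Matrix.of ![x₀, u₀, u₁]).det ≠ 0) (s : k → k)
    (hq : 6 ≤ Fintype.card k) (E : Set (Fin 3 → k)) (hE : ∀ c : k, c ≠ 0 → ∀ v ∈ E, c • v ∈ E)
    (hc : E.ncard ≤ 4 * Fintype.card k) :
    {T : k | s T • x₀ + (u₀ + T • u₁) ∈ E}.ncard ≤ 4 := by
  classical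
  by_contra hcon
  push Not at hcon
  set A : Finset k := Finset.univ.filter (fun T => s T • x₀ + (u₀ + T • u₁) ∈ E) with hA
  have hAc : {T : k | s T • x₀ + (u₀ + T • u₁) ∈ E}.ncard = A.card := by
    rw [← Set.ncard_coe_finset]
    congr 1
    ext T
    simp [hA]
  set Ef : Finset (Fin 3 → k) := E.toFinset with hEf
  have hEc : E.ncard = Ef.card := Set.ncard_eq_toFinset_card' E
  have h1 : (A ×ˢ (Finset.univ.erase (0 : k))).card ≤ Ef.card := by
    refine Finset.card_le_card_of_injOn (fun p => p.2 • (s p.1 • x₀ + (u₀ + p.1 • u₁))) ?_ ?_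
    · intro p hp
      rw [Finset.mem_coe, Finset.mem_product, Finset.mem_erase] at hp
      have h5 : p.2 • (s p.1 • x₀ + (u₀ + p.1 • u₁)) ∈ E :=
        hE p.2 hp.2.1 _ (by simpa [hA] using hp.1)
      simpa [hEf] using h5
    · intro p hp p' hp' h
      rw [Finset.mem_coe, Finset.mem_product, Finset.mem_erase] at hp hp'
      simp only at h
      have h2 : (p.2 * s p.1 - p'.2 * s p'.1) • x₀ + (p.2 - p'.2) • u₀ +
          (p.2 * p.1 - p'.2 * p'.1) • u₁ = 0 := by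
        have h3 := sub_eq_zero.mpr h
        rw [← h3]
        module
      obtain ⟨_, e2, e3⟩ := indep _ _ _ hdet _ _ _ h2
      have e4 : p.2 = p'.2 := sub_eq_zero.mp e2
      rw [e4] at e3
      have e5 : p'.2 * (p.1 - p'.1) = 0 := by linear_combination e3
      have e6 := (mul_eq_zero.mp e5).resolve_left hp'.2.1
      exact Prod.ext (sub_eq_zero.mp e6) e4
  rw [Finset.card_product, Finset.card_erase_of_mem (Finset.mem_univ _), Finset.card_univ,
    ← hEc] at h1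
  have h3 : 5 ≤ A.card := by omega
  have h4 : 5 * (Fintype.card k - 1) ≤ A.card * (Fintype.card k - 1) :=
    Nat.mul_le_mul_right _ h3
  omega

/-- the parameters `T` with `X T ∈ E` -/
noncomputable def ft {k : Type} [Fintype k] (X : k → Fin 3 → k) (E : Set (Fin 3 → k)) :
    Finset k := (Set.toFinite {T : k | X T ∈ E}).toFinset

theorem mem_ft {k : Type} [Fintype k] (X : k → Fin 3 → k) (E : Set (Fin 3 → k)) (T : k) :
    T ∈ ft X E ↔ X T ∈ E := by
  simp [ft]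

theorem card_ft {k : Type} [Fintype k] (X : k → Fin 3 → k) (E : Set (Fin 3 → k)) :
    {T : k | X T ∈ E}.ncard = (ft X E).card :=
  Set.ncard_eq_toFinset_card _ _

end Pool.Agent.T6.H77.VR.CONN

namespace Pool.Agent.T6.H77.VR

open CONN Polynomial
open Pool.Agent.T6.H77.RK.COTW (bl)

theorem con (hW : StmWT) (hP : StmPT) : StmCON := by
  classical
  obtain ⟨q1, hW⟩ := hW
  refine ⟨max q1 400, ?_⟩
  intro k _ _ t hq hG x₀ b₁ b₂ b₃ u₀ u₁ hL z w hz hw hzw
  have hq1 : q1 ≤ Fintype.card k := (le_max_left _ _).trans hq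
  have hq4 : 400 ≤ Fintype.card k := (le_max_right _ _).trans hq
  have h2 := hG.two
  have hs := hG.sy
  obtain ⟨κ, hκ, hsp⟩ := hL.sp
  have f1 : fm t x₀ b₁ = 0 := by simpa using hsp 1 0 0
  have f2 : fm t x₀ b₂ = 0 := by simpa using hsp 0 1 0
  have f3 : fm t x₀ b₃ = 0 := by simpa using hsp 0 0 1
  have hfr : ∀ r s : k, fm t x₀ (r • b₁ + s • b₂) = 0 := by
    intro r s
    have h := hsp r s 0
    rw [zero_smul, add_zero, mul_zero] at h
    exact h
  have f12 : pp t x₀ x₀ b₁ b₂ = 0 := by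
    have h := hfr 1 1
    rw [one_smul, one_smul, fm_add_y hs, f1, f2] at h
    have h5 : 2 * pp t x₀ x₀ b₁ b₂ = 0 := by linear_combination h
    exact (mul_eq_zero.mp h5).resolve_left h2
  have hb3 : ∀ r s : k, pp t x₀ x₀ (r • b₁ + s • b₂) b₃ = κ * r := by
    intro r s
    have h := hsp r s 1
    rw [one_smul, fm_add_y hs, hfr, f3] at h
    have h5 : 2 * (pp t x₀ x₀ (r • b₁ + s • b₂) b₃ - κ * r) = 0 := by linear_combination h
    exact sub_eq_zero.mp ((mul_eq_zero.mp h5).resolve_left h2)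
  have hb0 : ∀ r s : k, r • b₁ + s • b₂ = 0 → r = 0 ∧ s = 0 := by
    intro r s h
    have h5 := indep b₁ b₂ b₃ hL.bb r s 0 (by rw [zero_smul, add_zero]; exact h)
    exact ⟨h5.1, h5.2.1⟩
  have hw0 : w ≠ 0 := by
    rintro rfl
    exact hw.a0 (pp_zero3 _ _ _)
  have hx0 : x₀ ≠ 0 := by
    rintro rfl
    exact hw.a0 (pp_zero1 _ _ _)
  have hS := hW k hq1 h2 (dp t x₀ u₀ u₁ w) (np t x₀ b₁ b₂ u₀ u₁ w) (dp_deg _ _ _ _ _)
    (np_deg _ _ _ _ _ _ _) hw.nd hw.nn hw.dn
  set S : Set k := {τ : k | IsSquare ((dp t x₀ u₀ u₁ w).eval τ) ∧ (dp t x₀ u₀ u₁ w).eval τ ≠ 0 ∧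
    ¬ IsSquare ((np t x₀ b₁ b₂ u₀ u₁ w).eval τ)} with hSdef
  have hex : ∀ T : k, T ∈ S → ∃ s d : k, fm t (s • x₀ + (u₀ + T • u₁)) w = 0 ∧ d ≠ 0 ∧
      de t b₁ b₂ (s • x₀ + (u₀ + T • u₁)) = d ^ 2 := by
    intro T hT
    obtain ⟨hT1, _, hT3⟩ := hT
    rw [eval_dp] at hT1
    rw [eval_np] at hT3
    exact hP k t h2 hs x₀ b₁ b₂ (u₀ + T • u₁) w f1 f2 f12 hw.a0 hT1 hT3
  choose! s d hsd using hex
  -- small sets
  set E1 : Set (Fin 3 → k) := {x | ∀ y', pp t x x w y' = 0} with hE1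
  set E2 : Set (Fin 3 → k) := {x | ∃ c : k, x = c • z} with hE2
  set E3 : (Fin 3 → k) → Set (Fin 3 → k) := fun y' => {x | fm t x y' = 0 ∧ fm t x w = 0} with hE3
  have n1 : {T : k | s T • x₀ + (u₀ + T • u₁) ∈ E1}.ncard ≤ 4 := by
    refine exc x₀ u₀ u₁ hL.uu s (by omega) E1 ?_ (hG.sx.bx w hw0)
    intro c _ v hv y'
    rw [pp_smul1, pp_smul2, hv y', mul_zero, mul_zero]
  have n2 : {T : k | s T • x₀ + (u₀ + T • u₁) ∈ E2}.ncard ≤ 4 := by
    refine exc x₀ u₀ u₁ hL.uu s (by omega) E2 ?_ ?_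
    · rintro c _ v ⟨c', rfl⟩
      exact ⟨c * c', smul_smul _ _ _⟩
    · have h5 : E2 = (fun c : k => c • z) '' Set.univ := by
        ext x
        simp only [hE2, Set.image_univ, Set.mem_range]
        constructor
        · rintro ⟨c, rfl⟩
          exact ⟨c, rfl⟩
        · rintro ⟨c, rfl⟩
          exact ⟨c, rfl⟩
      have h6 : E2.ncard ≤ Fintype.card k := by
        rw [h5]
        refine (Set.ncard_image_le (Set.toFinite _)).trans ?_
        rw [Set.ncard_univ, Nat.card_eq_fintype_card]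
      omega
  have hE3s : ∀ y' : Fin 3 → k, ∀ c : k, c ≠ 0 → ∀ v ∈ E3 y', c • v ∈ E3 y' := by
    rintro y' c _ v ⟨h5, h6⟩
    exact ⟨by rw [fm_smul_x, h5, mul_zero], by rw [fm_smul_x, h6, mul_zero]⟩
  have n3 : {T : k | s T • x₀ + (u₀ + T • u₁) ∈ E3 b₂}.ncard ≤ 4 := by
    refine exc x₀ u₀ u₁ hL.uu s (by omega) (E3 b₂) (hE3s b₂) ?_
    have h5 := hw.ex 0 1 (fun h => one_ne_zero (hb0 0 1 h).2) (Or.inl rfl)
    rw [zero_smul, zero_add, one_smul] at h5
    exact h5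
  have n4 : ∀ σ : k, (dm t (b₁ + σ • b₂)).det = 0 →
      {T : k | s T • x₀ + (u₀ + T • u₁) ∈ E3 (b₁ + σ • b₂)}.ncard ≤ 4 := by
    intro σ hσ
    refine exc x₀ u₀ u₁ hL.uu s (by omega) (E3 (b₁ + σ • b₂)) (hE3s _) ?_
    have h5 := hw.ex 1 σ (fun h => one_ne_zero (hb0 1 σ h).1) (Or.inr (by
      rw [one_smul]; exact hσ))
    rw [one_smul] at h5
    exact h5
  have n6 := six t b₁ b₂ hL.ds
  -- choice of the parameter
  set Z : Finset k := Finset.univ.filter (fun σ => (dm t (b₁ + σ • b₂)).det = 0) with hZ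
  have hZc : Z.card ≤ 6 := by
    rw [← Set.ncard_coe_finset]
    refine le_trans (le_of_eq ?_) n6
    congr 1
    ext σ
    simp [hZ]
  set X : k → Fin 3 → k := fun T => s T • x₀ + (u₀ + T • u₁) with hX
  set B : Finset k := ft X E1 ∪ ft X E2 ∪ ft X (E3 b₂) ∪
    Z.biUnion (fun σ => ft X (E3 (b₁ + σ • b₂))) with hB
  have hBc : B.card ≤ 36 := by
    have c4 : (Z.biUnion (fun σ => ft X (E3 (b₁ + σ • b₂)))).card ≤ Z.card * 4 := by
      refine Finset.card_biUnion_le_card_mul _ _ _ ?_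
      intro σ hσ
      rw [← card_ft]
      exact n4 σ (by simpa [hZ] using hσ)
    have d1 : (ft X E1).card ≤ 4 := by rw [← card_ft]; exact n1
    have d2 : (ft X E2).card ≤ 4 := by rw [← card_ft]; exact n2
    have d3 : (ft X (E3 b₂)).card ≤ 4 := by rw [← card_ft]; exact n3
    have c5 := Finset.card_union_le (ft X E1 ∪ ft X E2 ∪ ft X (E3 b₂))
      (Z.biUnion (fun σ => ft X (E3 (b₁ + σ • b₂))))
    have c6 := Finset.card_union_le (ft X E1 ∪ ft X E2) (ft X (E3 b₂))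
    have c7 := Finset.card_union_le (ft X E1) (ft X E2)
    rw [← hB] at c5
    omega
  set Sf : Finset k := S.toFinset with hSf
  have hSc : S.ncard = Sf.card := Set.ncard_eq_toFinset_card' S
  have hlt : B.card < Sf.card := by omega
  obtain ⟨T, hT, hTB⟩ := Finset.exists_mem_notMem_of_card_lt_card hlt
  have hTS : T ∈ S := by simpa [hSf] using hT
  obtain ⟨g1, g2, g3⟩ := hsd T hTS
  simp only [hB, Finset.mem_union, mem_ft, Finset.mem_biUnion, not_or, not_exists,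
    not_and] at hTB
  obtain ⟨⟨⟨m1, m2⟩, m3⟩, m4⟩ := hTB
  set x₂ : Fin 3 → k := s T • x₀ + (u₀ + T • u₁) with hx₂
  have m4' : ∀ σ : k, (dm t (b₁ + σ • b₂)).det = 0 → x₂ ∉ E3 (b₁ + σ • b₂) := by
    intro σ hσ
    exact m4 σ (by simpa [hZ] using hσ)
  have hx₂0 : ∀ c : k, x₂ ≠ c • x₀ := by
    intro c h
    have h5 : (s T - c) • x₀ + (1 : k) • u₀ + T • u₁ = 0 := by
      have h6 := sub_eq_zero.mpr h
      rw [← h6, hx₂]
      module
    exact one_ne_zero (indep _ _ _ hL.uu _ _ _ h5).2.1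
  -- the direction
  have hdir : ∃ r s' : k, fm t x₂ (r • b₁ + s' • b₂) = 0 ∧
      pp t x₂ x₂ w (r • b₁ + s' • b₂) ≠ 0 := by
    refine dir hs h2 x₂ w b₁ b₂ (d T) g2 g3 ?_
    rintro ⟨P1, P2⟩
    obtain ⟨r, s', v, hw'⟩ := coord b₁ b₂ b₃ hL.bb w
    have hv : v ≠ 0 := by
      rintro rfl
      apply hw.a0
      rw [hw', zero_smul, add_zero]
      exact hfr r s'
    have P0 : pp t x₂ x₂ w w = r * pp t x₂ x₂ w b₁ + s' * pp t x₂ x₂ w b₂ +
        v * pp t x₂ x₂ w b₃ := by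
      have e0 : pp t x₂ x₂ w (r • b₁ + s' • b₂ + v • b₃) = r * pp t x₂ x₂ w b₁ +
          s' * pp t x₂ x₂ w b₂ + v * pp t x₂ x₂ w b₃ := by
        rw [pp_add4, pp_line, pp_smul4]
      rw [← e0, ← hw']
    have g1' : pp t x₂ x₂ w w = 0 := g1
    rw [g1', P1, P2] at P0
    have P3 : pp t x₂ x₂ w b₃ = 0 := by
      have h5 : v * pp t x₂ x₂ w b₃ = 0 := by linear_combination -P0
      exact (mul_eq_zero.mp h5).resolve_left hv
    apply m1
    intro y'
    obtain ⟨r', s'', v', rfl⟩ := coord b₁ b₂ b₃ hL.bb y'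
    rw [pp_add4, pp_line, pp_smul4, P1, P2, P3]
    ring
  obtain ⟨r, s', hF, hpn⟩ := hdir
  have hr : r ≠ 0 := by
    rintro rfl
    rw [zero_smul, zero_add] at hF hpn
    have hs'0 : s' ≠ 0 := by
      rintro rfl
      rw [zero_smul] at hpn
      exact hpn (pp_zero4 _ _ _)
    rw [fm_smul_y] at hF
    apply m3
    exact ⟨(mul_eq_zero.mp hF).resolve_left (pow_ne_zero 2 hs'0), g1⟩
  have hre : r • b₁ + s' • b₂ = r • (b₁ + (s' / r) • b₂) := by
    rw [smul_add, smul_smul, mul_div_cancel₀ s' hr]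
  have hdet : (dm t (r • b₁ + s' • b₂)).det ≠ 0 := by
    intro h
    have e : dm t (r • (b₁ + (s' / r) • b₂)) = (r ^ 2) • dm t (b₁ + (s' / r) • b₂) := by
      ext i j
      simp only [dm, Matrix.of_apply, Matrix.smul_apply, Pi.smul_apply, smul_eq_mul,
        Finset.mul_sum]
      refine Finset.sum_congr rfl fun a _ => Finset.sum_congr rfl fun b _ => ?_
      ring
    rw [hre, e, Matrix.det_smul] at h
    have h5 := (mul_eq_zero.mp h).resolve_left (pow_ne_zero _ (pow_ne_zero 2 hr))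
    refine m4' (s' / r) h5 ⟨?_, g1⟩
    rw [hre, fm_smul_y] at hF
    exact (mul_eq_zero.mp hF).resolve_left (pow_ne_zero 2 hr)
  set y' : Fin 3 → k := r • b₁ + s' • b₂ with hy'
  have blpl : ∀ y x x' : Fin 3 → k, bl (dm t y) x x' = pl t y x x' := fun y x x' =>
    (pl_dm y x x').symm
  -- the moves
  refine ⟨(x₂, w), g1, ?_, (x₂, y'), hF, ?_, (x₀, y'), hfr r s', ?_, (x₀, b₃), f3, ?_, rfl⟩
  · show w = w ∧ pl t w z x₂ ≠ 0
    refine ⟨rfl, fun h => ?_⟩
    obtain ⟨c, hc⟩ := iso (dm t w) (dm_symm hs w) hw.dt z x₂ hz (by rw [blpl]; exact hzw)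
      (by rw [blpl]; exact g1) (by rw [blpl]; exact h)
    exact m2 ⟨c, hc⟩
  · show x₂ = x₂ ∧ pl (tr t) x₂ w y' ≠ 0
    refine ⟨rfl, ?_⟩
    rw [pl_tr]
    exact hpn
  · show y' = y' ∧ pl t y' x₂ x₀ ≠ 0
    refine ⟨rfl, fun h => ?_⟩
    rw [pl_symm hs] at h
    obtain ⟨c, hc⟩ := iso (dm t y') (dm_symm hs y') hdet x₀ x₂ hx0
      (by rw [blpl]; exact hfr r s') (by rw [blpl]; exact hF) (by rw [blpl]; exact h)
    exact hx₂0 c hc
  · show x₀ = x₀ ∧ pl (tr t) x₀ y' b₃ ≠ 0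
    refine ⟨rfl, ?_⟩
    rw [pl_tr, hy', hb3]
    exact mul_ne_zero hκ hr

end Pool.Agent.T6.H77.VR
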