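import Pool.Agent.T6.H77.VR.BAS
import Pool.Agent.T6.H77.DW.LOC
import Pool.Agent.T6.H77.DW.LINK
import Pool.Agent.T6.H77.DW.LIFT

/-!
# The points which are smooth on the conics `F(·, y) = 0` are dense (helper71 for helper77)
-/

set_option autoImplicit false

namespace Pool.Agent.T6.H77.VR

namespace DEN

open Polynomial

/-- twice the reflected point -/
def rp {K : Type} [CommRing K] (t : Tn K) (x y u : Fin 3 → K) : Fin 3 → K :=
  fun i => fm t x u * y i - (pp t x x y u + pp t x x y u) * u i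

theorem rp_map {R S : Type} [CommRing R] [CommRing S] (σ : R →+* S) (t : Tn R)
    (x y u : Fin 3 → R) : (fun i => σ (rp t x y u i)) =
    rp (fun a b c d => σ (t a b c d)) (fun i => σ (x i)) (fun i => σ (y i))
      (fun i => σ (u i)) := by
  funext i
  simp only [rp, map_sub, map_mul, map_add, pp_map, fm_map]

section fin

variable {k : Type} [Field k] [Fintype k]

/-- the kernel of a nonzero linear form has many elements -/
theorem ker_card (p : (Fin 3 → k) → k) (hadd : ∀ u v, p (u + v) = p u + p v)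
    (hsmul : ∀ (c : k) u, p (c • u) = c * p u) (v : Fin 3 → k) (hv : p v ≠ 0) :
    Fintype.card k ^ 2 ≤ {u | p u = 0}.ncard := by
  classical
  have h1 : Fintype.card k ^ 3 ≤ Fintype.card k * {u | p u = 0}.ncard := by
    have h2 : ∀ u, p (u + (-(p u / p v)) • v) = 0 := by
      intro u
      rw [hadd, hsmul]
      field_simp
      ring
    have h3 : Function.Injective (fun u : Fin 3 → k =>
        ((p u, ⟨u + (-(p u / p v)) • v, h2 u⟩) : k × {u | p u = 0})) := by
      intro u w h
      simp only [Prod.mk.injEq, Subtype.mk.injEq] at h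
      obtain ⟨h4, h5⟩ := h
      rw [h4] at h5
      exact add_right_cancel h5
    have h6 := Nat.card_le_card_of_injective _ h3
    rw [Nat.card_prod, Nat.card_eq_fintype_card, Nat.card_eq_fintype_card, Fintype.card_fun,
      Fintype.card_fin] at h6
    rw [pow_succ, pow_succ, pow_one] at *
    rw [← Nat.card_coe_set_eq]
    nlinarith [h6]
  have h0 : 0 < Fintype.card k := Fintype.card_pos
  have h2 : Fintype.card k * Fintype.card k ^ 2 ≤ Fintype.card k * {u | p u = 0}.ncard := by
    rw [← pow_succ']; exact h1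
  exact Nat.le_of_mul_le_mul_left h2 h0

end fin

section red

variable {L k : Type} [NontriviallyNormedField L] [IsUltrametricDist L] [Field k] {π : L → k}
  {t : Tn L}

theorem pp_red (h : DW.Res π) (it : ∀ a b c d, ‖t a b c d‖ ≤ 1) {x x' y y' : Fin 3 → L}
    (hx : ∀ i, ‖x i‖ ≤ 1) (hx' : ∀ i, ‖x' i‖ ≤ 1) (hy : ∀ i, ‖y i‖ ≤ 1) (hy' : ∀ i, ‖y' i‖ ≤ 1) :
    ‖pp t x x' y y'‖ ≤ 1 ∧ π (pp t x x' y y') = pp (fun a b c d => π (t a b c d))
      (fun i => π (x i)) (fun i => π (x' i)) (fun i => π (y i)) (fun i => π (y' i)) := by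
  have h1 : ∀ a b, ‖t a b a b * 0‖ ≤ 1 := fun a b => by simp
  have h2 : ∀ a b c d, ‖t a b c d * x a‖ ≤ 1 := fun a b c d => DW.mul_le1 (it _ _ _ _) (hx _)
  have h3 : ∀ a b c d, ‖t a b c d * x a * x' b‖ ≤ 1 := fun a b c d =>
    DW.mul_le1 (h2 _ _ _ _) (hx' _)
  have h4 : ∀ a b c d, ‖t a b c d * x a * x' b * y c‖ ≤ 1 := fun a b c d =>
    DW.mul_le1 (h3 _ _ _ _) (hy _)
  have h5 : ∀ a b c d, ‖t a b c d * x a * x' b * y c * y' d‖ ≤ 1 := fun a b c d =>
    DW.mul_le1 (h4 _ _ _ _) (hy' _)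
  unfold pp
  refine ⟨DW.sum3_le fun a => DW.sum3_le fun b => DW.sum3_le fun c => DW.sum3_le fun d =>
    h5 a b c d, ?_⟩
  rw [h.sum3 fun a => DW.sum3_le fun b => DW.sum3_le fun c => DW.sum3_le fun d => h5 a b c d]
  refine Finset.sum_congr rfl fun a _ => ?_
  rw [h.sum3 fun b => DW.sum3_le fun c => DW.sum3_le fun d => h5 a b c d]
  refine Finset.sum_congr rfl fun b _ => ?_
  rw [h.sum3 fun c => DW.sum3_le fun d => h5 a b c d]
  refine Finset.sum_congr rfl fun c _ => ?_
  rw [h.sum3 fun d => h5 a b c d]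
  refine Finset.sum_congr rfl fun d _ => ?_
  rw [h.mul _ _ (h4 a b c d) (hy' d), h.mul _ _ (h3 a b c d) (hy c),
    h.mul _ _ (h2 a b c d) (hx' b), h.mul _ _ (it a b c d) (hx a)]

theorem rp_red (h : DW.Res π) (it : ∀ a b c d, ‖t a b c d‖ ≤ 1) {x y u : Fin 3 → L}
    (hx : ∀ i, ‖x i‖ ≤ 1) (hy : ∀ i, ‖y i‖ ≤ 1) (hu : ∀ i, ‖u i‖ ≤ 1) :
    (∀ i, ‖rp t x y u i‖ ≤ 1) ∧ (fun i => π (rp t x y u i)) = rp (fun a b c d => π (t a b c d))
      (fun i => π (x i)) (fun i => π (y i)) (fun i => π (u i)) := by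
  have h1 : ‖fm t x u‖ ≤ 1 ∧ π (fm t x u) = fm (fun a b c d => π (t a b c d))
      (fun i => π (x i)) (fun i => π (u i)) := pp_red h it hx hx hu hu
  have h2 := pp_red h it hx hx hy hu
  have h3 : ‖pp t x x y u + pp t x x y u‖ ≤ 1 :=
    (IsUltrametricDist.norm_add_le_max _ _).trans (max_le h2.1 h2.1)
  have h4 : ∀ i, ‖fm t x u * y i‖ ≤ 1 := fun i => DW.mul_le1 h1.1 (hy i)
  have h5 : ∀ i, ‖(pp t x x y u + pp t x x y u) * u i‖ ≤ 1 := fun i => DW.mul_le1 h3 (hu i)
  refine ⟨fun i => DW.sub_le1 (h4 i) (h5 i), ?_⟩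
  funext i
  simp only [rp]
  rw [h.sub (h4 i) (h5 i), h.mul _ _ h1.1 (hy i), h.mul _ _ h3 (hu i), h.add _ _ h2.1 h2.1,
    h2.2, h1.2]

end red

section van

variable {L : Type} [NontriviallyNormedField L] {t : Tn L}

/-- a polynomial which vanishes near `0` vanishes -/
theorem van (P : L[X]) (S : Set L) (hS : S ∈ nhds (0 : L)) (h : ∀ s ∈ S, P.eval s = 0) (s : L) :
    P.eval s = 0 := by
  have h1 : P = 0 := Polynomial.eq_zero_of_infinite_isRoot P
    ((infinite_of_mem_nhds 0 hS).mono fun s hs => h s hs)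
  rw [h1, eval_zero]

theorem eval1 (x z y u : Fin 3 → L) (s : L) :
    (pp (ct t) (cv x) (cv z) (uv y u) (uv y u)).eval s =
      pp t x z (y + s • u) (y + s • u) := by
  rw [← coe_evalRingHom, pp_map]
  simp only [ct, cv, uv, coe_evalRingHom, eval_C, eval_add, eval_mul, eval_X]
  rfl

theorem eval2 (x z y u d : Fin 3 → L) (s : L) :
    (pp (ct t) (cv x) (cv z) (rp (ct t) (cv x) (cv y) (uv u d))
      (rp (ct t) (cv x) (cv y) (uv u d))).eval s =
      pp t x z (rp t x y (u + s • d)) (rp t x y (u + s • d)) := by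
  rw [← coe_evalRingHom, pp_map, rp_map]
  simp only [ct, cv, uv, coe_evalRingHom, eval_C, eval_add, eval_mul, eval_X]
  rfl

theorem cont4 (x x' v u d : Fin 3 → L) : Continuous fun s : L => pp t x x' v (u + s • d) := by
  simp only [pp, Pi.add_apply, Pi.smul_apply, smul_eq_mul]
  fun_prop

theorem contf (x u d : Fin 3 → L) : Continuous fun s : L => fm t x (u + s • d) := by
  simp only [fm, pp, Pi.add_apply, Pi.smul_apply, smul_eq_mul]
  fun_prop

/-- first case -/
theorem case1 (hs : Sy t) (x y : Fin 3 → L) (hF : fm t x y = 0) (ε : ℝ) (hε : 0 < ε)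
    (H : ∀ v : Fin 3 → L, (∀ i, ‖v i - y i‖ < ε) → fm t x v = 0 → ∀ z, pp t x z v v = 0)
    (us : Fin 3 → L) (h1 : pp t x x y us = 0) (h2 : fm t x us ≠ 0) (u z : Fin 3 → L) :
    pp t x z (rp t x y u) (rp t x y u) = 0 := by
  set d : Fin 3 → L := u - us with hd
  have key := van (pp (ct t) (cv x) (cv z) (rp (ct t) (cv x) (cv y) (uv us d))
      (rp (ct t) (cv x) (cv y) (uv us d)))
    {s | fm t x (us + s • d) ≠ 0 ∧ ∀ i, ‖(2 * pp t x x y (us + s • d) / fm t x (us + s • d)) *
      (us + s • d) i‖ < ε} ?_ ?_ 1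
  · rw [eval2, one_smul, hd, add_sub_cancel] at key
    exact key
  · have c1 : ∀ᶠ s in nhds (0 : L), fm t x (us + s • d) ≠ 0 := by
      have := (contf (t := t) x us d).continuousAt (x := 0)
      refine this.eventually_ne ?_
      simpa using h2
    have c2 : ∀ i, ∀ᶠ s in nhds (0 : L), ‖(2 * pp t x x y (us + s • d) /
        fm t x (us + s • d)) * (us + s • d) i‖ < ε := by
      intro i
      have c3 : ContinuousAt (fun s : L => ‖(2 * pp t x x y (us + s • d) /
        fm t x (us + s • d)) * (us + s • d) i‖) 0 := by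
        refine ContinuousAt.norm (ContinuousAt.mul (ContinuousAt.div₀ ?_ ?_ ?_) ?_)
        · exact (continuous_const.mul (cont4 x x y us d)).continuousAt
        · exact (contf x us d).continuousAt
        · simpa using h2
        · have : Continuous fun s : L => (us + s • d) i := by
            simp only [Pi.add_apply, Pi.smul_apply, smul_eq_mul]
            fun_prop
          exact this.continuousAt
      have c4 := c3.eventually_lt (continuousAt_const (y := ε))
      apply c4
      simp [h1, hε]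
    exact c1.and (Filter.eventually_all.2 c2)
  · rintro s ⟨s1, s2⟩
    rw [eval2]
    set w : Fin 3 → L := us + s • d with hw
    set c : L := 2 * pp t x x y w / fm t x w with hc
    have e1 : c * fm t x w = 2 * pp t x x y w := by rw [hc]; field_simp
    have e2 : rp t x y w = fm t x w • (y + (-c) • w) := by
      funext i
      simp only [rp, Pi.smul_apply, Pi.add_apply, smul_eq_mul]
      linear_combination (w i) * e1
    have e3 : fm t x (y + (-c) • w) = 0 := by
      rw [fm_add_y hs, hF, pp_smul4, fm_smul_y]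
      linear_combination c * e1
    have e4 := H (y + (-c) • w) (fun i => by
      have : (y + (-c) • w) i - y i = -(c * w i) := by
        simp only [Pi.add_apply, Pi.smul_apply, smul_eq_mul]; ring
      rw [this, norm_neg]
      exact s2 i) e3 z
    rw [e2, pp_smul3, pp_smul4, e4]
    ring

/-- second case -/
theorem case2 (h2 : (2 : L) ≠ 0) (hs : Sy t) (x y : Fin 3 → L) (hF : fm t x y = 0) (ε : ℝ)
    (hε : 0 < ε)
    (H : ∀ v : Fin 3 → L, (∀ i, ‖v i - y i‖ < ε) → fm t x v = 0 → ∀ z, pp t x z v v = 0)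
    (hc : ∀ u, pp t x x y u = 0 → fm t x u = 0) (u : Fin 3 → L) (hu : pp t x x y u = 0)
    (z : Fin 3 → L) : pp t x z u u = 0 := by
  have key := fun s : L => van (pp (ct t) (cv x) (cv z) (uv y u) (uv y u))
    {s | ∀ i, ‖s * u i‖ < ε} ?_ ?_ s
  · have k0 := key 0
    have k1 := key 1
    have k2 := key (-1)
    rw [eval1] at k0 k1 k2
    rw [zero_smul, add_zero] at k0
    rw [one_smul, pp_add3, pp_add4, pp_add4] at k1
    rw [pp_add3, pp_add4, pp_add4, pp_smul3, pp_smul4, pp_smul3, pp_smul4] at k2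
    have : 2 * pp t x z u u = 0 := by linear_combination k1 + k2 - 2 * k0
    exact (mul_eq_zero.1 this).resolve_left h2
  · have c2 : ∀ i, ∀ᶠ s in nhds (0 : L), ‖s * u i‖ < ε := by
      intro i
      have c3 : Continuous (fun s : L => ‖s * u i‖) := by fun_prop
      have c4 := (c3.continuousAt (x := 0)).eventually_lt (continuousAt_const (y := ε))
      apply c4
      simpa using hε
    exact Filter.eventually_all.2 c2
  · intro s s1
    rw [eval1]
    refine H _ (fun i => ?_) ?_ z
    · have : (y + s • u) i - y i = s * u i := by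
        simp only [Pi.add_apply, Pi.smul_apply, smul_eq_mul]; ring
      rw [this]
      exact s1 i
    · rw [fm_add_y hs, hF, pp_smul4, fm_smul_y, hu, hc u hu]
      ring

end van

end DEN

open DEN in
theorem den (hC : StmCO) : StmDEN := by
  refine ⟨6, ?_⟩
  intro L k _ _ _ _ _ π h hq t hs it hG x₀ y₀ hx0 hy0 hF0 ε₀ hε₀
  by_contra hcon
  push Not at hcon
  obtain ⟨b, x, hb, hbx, ix, i₀, hi₀⟩ := DW.LOC.prim x₀ hx0
  obtain ⟨c, y, hc, hcy, iy, j₀, hj₀⟩ := DW.LOC.prim y₀ hy0
  have hF : fm t x y = 0 := by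
    have : fm t x₀ y₀ = (b * c) ^ 2 * fm t x y := by rw [hbx, hcy, fm_smul]
    rw [hF0] at this
    exact (mul_eq_zero.1 this.symm).resolve_left (pow_ne_zero _ (mul_ne_zero hb hc))
  have hcn : 0 < ‖c‖ := norm_pos_iff.2 hc
  set ε : ℝ := ε₀ / ‖c‖ with hεd
  have hε : 0 < ε := div_pos hε₀ hcn
  have H : ∀ v : Fin 3 → L, (∀ i, ‖v i - y i‖ < ε) → fm t x v = 0 →
      ∀ z, pp t x z v v = 0 := by
    intro v hv hFv z
    by_contra hz
    obtain ⟨i, hi⟩ := hcon x₀ (c • v) (by rw [hbx, fm_smul, hFv, mul_zero]) ⟨z, by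
      rw [hbx, pl_pp, pp_smul1, pp_smul3, pp_smul4]
      exact mul_ne_zero hb (mul_ne_zero hc (mul_ne_zero hc hz))⟩
    have h1 : ‖x₀ i - x₀ i‖ < ε₀ := by simpa using hε₀
    have h2 := hi h1
    have h3 : (c • v) i - y₀ i = c * (v i - y i) := by
      rw [hcy]
      simp only [Pi.smul_apply, smul_eq_mul]; ring
    rw [h3, norm_mul] at h2
    have h4 := hv i
    rw [hεd, lt_div_iff₀ hcn] at h4
    rw [mul_comm] at h4
    exact absurd h4 (not_lt.2 h2)
  set tb : Tn k := fun a b c d => π (t a b c d) with htb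
  set xb : Fin 3 → k := fun i => π (x i) with hxb
  set yb : Fin 3 → k := fun i => π (y i) with hyb
  have xb0 : xb ≠ 0 := fun h0 => by
    have := congrFun h0 i₀
    simp only [hxb, hi₀, h.one] at this
    exact one_ne_zero this
  have yb0 : yb ≠ 0 := fun h0 => by
    have := congrFun h0 j₀
    simp only [hyb, hj₀, h.one] at this
    exact one_ne_zero this
  have Fb : fm tb xb yb = 0 := by
    have := (pp_red h it ix ix iy iy).2
    change π (fm t x y) = fm tb xb yb at this
    rw [← this, hF, h.zero]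
  -- lifts
  have lift : ∀ u : Fin 3 → k, ∃ U : Fin 3 → L, (∀ i, ‖U i‖ ≤ 1) ∧ (fun i => π (U i)) = u := by
    intro u
    choose U h1 h2 using fun i => h.surj (u i)
    exact ⟨U, h1, funext h2⟩
  have hpb : ∃ v, pp tb xb xb yb v ≠ 0 := by
    rcases hG.sm xb yb xb0 yb0 Fb with hh | hh
    · obtain ⟨z, hz⟩ := hh
      exfalso
      apply hz
      obtain ⟨Z, iZ, rZ⟩ := lift z
      have h1 := (pp_red h it ix iZ iy iy).2
      rw [H y (fun i => by simpa using hε) hF Z, h.zero] at h1
      rw [← rZ]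
      exact h1.symm
    · exact hh
  obtain ⟨vb, hvb⟩ := hpb
  have hbx := hG.sz.bx xb xb0
  have two : (2 : L) ≠ 0 := by
    have := h.norm_two hG.two
    intro h0
    rw [h0, norm_zero] at this
    exact zero_ne_one this
  by_cases hcase : ∀ u, pp t x x y u = 0 → fm t x u = 0
  · -- second case
    obtain ⟨V, iV, rV⟩ := lift vb
    have pV := pp_red h it ix ix iy iV
    have pV1 : ‖pp t x x y V‖ = 1 := h.norm_one_of pV.1 (by rw [pV.2, rV]; exact hvb)
    have pV0 : pp t x x y V ≠ 0 := by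
      intro h0
      rw [h0, norm_zero] at pV1
      exact zero_ne_one pV1
    have h1 := ker_card (pp tb xb xb yb) (fun u v => pp_add4 _ _ _ _ _)
      (fun c u => pp_smul4 _ _ _ _ _) vb hvb
    have h2 : {u | pp tb xb xb yb u = 0} ⊆ {v | ∀ y', pp (tr tb) v v xb y' = 0} := by
      intro u hu z
      rw [pp_tr]
      obtain ⟨U, iU, rU⟩ := lift u
      obtain ⟨Z, iZ, rZ⟩ := lift z
      have pU := pp_red h it ix ix iy iU
      rw [rU] at pU
      have pU1 : ‖pp t x x y U‖ < 1 := (h.ker _ pU.1).1 (by rw [pU.2]; exact hu)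
      set W : Fin 3 → L := U + (-(pp t x x y U / pp t x x y V)) • V with hW
      have hW1 : ∀ i, ‖W i - U i‖ < 1 := by
        intro i
        have : W i - U i = -(pp t x x y U / pp t x x y V * V i) := by
          simp only [hW, Pi.add_apply, Pi.smul_apply, smul_eq_mul]; ring
        rw [this, norm_neg, norm_mul, norm_div, pV1, div_one]
        exact (mul_le_of_le_one_right (norm_nonneg _) (iV i)).trans_lt pU1
      have hW2 : ∀ i, ‖W i‖ ≤ 1 ∧ π (W i) = π (U i) := fun i => h.eq_of (iU i) (hW1 i)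
      have hW3 : pp t x x y W = 0 := by
        rw [hW, pp_add4, pp_smul4]
        field_simp
        ring
      have h3 := case2 two hs x y hF ε hε H hcase W hW3 Z
      have h4 := (pp_red h it ix iZ (fun i => (hW2 i).1) (fun i => (hW2 i).1)).2
      rw [h3, h.zero, rZ, show (fun i => π (W i)) = u from by
        rw [← rU]; exact funext fun i => (hW2 i).2] at h4
      exact h4.symm
    have h3 := Set.ncard_le_ncard h2 (Set.toFinite _)
    nlinarith
  · -- first case
    push Not at hcase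
    obtain ⟨us, hu1, hu2⟩ := hcase
    have h1 := hC k (tr tb) hG.two hG.sy.tr yb xb (by rw [fm_tr]; exact Fb) ⟨vb, by
      rw [pl_tr]; exact hvb⟩
    have h2 : {v | fm (tr tb) v xb = 0 ∧ pl (tr tb) xb yb v ≠ 0} ⊆
        {v | ∀ y', pp (tr tb) v v xb y' = 0} := by
      rintro u ⟨q1, q2⟩ z
      rw [fm_tr] at q1
      rw [pl_tr] at q2
      rw [pp_tr]
      obtain ⟨U, iU, rU⟩ := lift u
      obtain ⟨Z, iZ, rZ⟩ := lift z
      have h3 := case1 hs x y hF ε hε H us hu1 hu2 U Z
      have h4 := rp_red h it ix iy iU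
      have h5 := (pp_red h it ix iZ h4.1 h4.1).2
      rw [h3, h.zero, rZ, h4.2, rU] at h5
      have h6 : rp tb xb yb u = (-(2 * pp tb xb xb yb u)) • u := by
        funext i
        simp only [rp, q1, Pi.smul_apply, smul_eq_mul]; ring
      change 0 = pp tb xb z (rp tb xb yb u) (rp tb xb yb u) at h5
      rw [h6, pp_smul3, pp_smul4] at h5
      have h7 : -(2 * pp tb xb xb yb u) ≠ 0 := neg_ne_zero.2 (mul_ne_zero hG.two q2)
      have h8 := (mul_eq_zero.1 h5.symm).resolve_left h7
      exact (mul_eq_zero.1 h8).resolve_left h7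
    have h3 := Set.ncard_le_ncard h2 (Set.toFinite _)
    nlinarith

end Pool.Agent.T6.H77.VR
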