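import Pool.Agent.T6.H77.VR.BAS

/-!
# Connectivity over large finite fields (module FQ, helper70)
-/

set_option autoImplicit false

namespace Pool.Agent.T6.H77.VR

namespace FQ

variable {k : Type} [Field k] {t : Tn k}

theorem st_symm (hs : Sy t) {b : Bool} {p q : (Fin 3 → k) × (Fin 3 → k)} (h : St t b p q) :
    St t b q p := by
  cases b with
  | true =>
    have h' : p.2 = q.2 ∧ pl t p.2 p.1 q.1 ≠ 0 := by simpa [St] using h
    have : q.2 = p.2 ∧ pl t q.2 q.1 p.1 ≠ 0 :=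
      ⟨h'.1.symm, by rw [← h'.1, pl_symm hs]; exact h'.2⟩
    simpa [St] using this
  | false =>
    have h' : p.1 = q.1 ∧ pl (tr t) p.1 p.2 q.2 ≠ 0 := by simpa [St] using h
    have : q.1 = p.1 ∧ pl (tr t) q.1 q.2 p.2 ≠ 0 :=
      ⟨h'.1.symm, by rw [← h'.1, pl_symm hs.tr]; exact h'.2⟩
    simpa [St] using this

theorem wd_append {w₁ w₂ : List Bool} : ∀ {p q r : (Fin 3 → k) × (Fin 3 → k)},
    Wd t w₁ p q → Wd t w₂ q r → Wd t (w₁ ++ w₂) p r := by
  induction w₁ with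
  | nil =>
    intro p q r h1 h2
    have : p = q := h1
    rw [this]; exact h2
  | cons b w ih =>
    intro p q r h1 h2
    obtain ⟨s, hs, h3, h4⟩ := h1
    exact ⟨s, hs, h3, ih h4 h2⟩

theorem wd_reverse (hs : Sy t) {w : List Bool} : ∀ {p q : (Fin 3 → k) × (Fin 3 → k)},
    fm t p.1 p.2 = 0 → Wd t w p q → Wd t w.reverse q p := by
  induction w with
  | nil =>
    intro p q _ h
    exact Eq.symm h
  | cons b w ih =>
    intro p q hp h
    obtain ⟨s, hs', h3, h4⟩ := h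
    rw [List.reverse_cons]
    exact wd_append (ih hs' h4) ⟨p, hp, st_symm hs h3, rfl⟩

end FQ

open FQ in
/-- FQ: connectivity over large finite fields -/
theorem fq (hG : StmGX) (hW : StmGW) (hN : StmCON) : StmFQ := by
  obtain ⟨q1, hG⟩ := hG
  obtain ⟨q2, C, hW⟩ := hW
  obtain ⟨q3, hN⟩ := hN
  refine ⟨q1 + q2 + q3 + (256 * C + 1), ?_⟩
  intro k _ _ t hq hgd x y x' y' hxy hz hxy' hz'
  obtain ⟨x₀, b₁, b₂, b₃, u₀, u₁, hln⟩ := hgd.ln
  have step : ∀ x y : Fin 3 → k, fm t x y = 0 → (∃ z, pl (tr t) x y z ≠ 0) →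
      ∃ z w : Fin 3 → k, z ≠ 0 ∧ fm t z w = 0 ∧ Gw t x₀ b₁ b₂ u₀ u₁ w ∧
        (∃ u, pl (tr t) z w u ≠ 0) ∧ Wd t [false, true, false] (x, y) (z, w) := by
    intro x y hxy hz
    have g1 := hG k t (by omega) hgd.two hgd.sy hgd.sx hgd.sz x y hxy hz
    have g2 := hW k t (by omega) hgd x₀ b₁ b₂ b₃ u₀ u₁ hln
    set S := {w | ∃ x₁ y₁ : Fin 3 → k, fm t x y₁ = 0 ∧ pl (tr t) x y y₁ ≠ 0 ∧
      fm t x₁ y₁ = 0 ∧ pl t y₁ x x₁ ≠ 0 ∧ fm t x₁ w = 0 ∧ pl (tr t) x₁ y₁ w ≠ 0} with hS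
    set T := {w | ¬ Gw t x₀ b₁ b₂ u₀ u₁ w} with hT
    have hne : ¬ S ⊆ T := by
      intro hsub
      have h1 : S.ncard ≤ T.ncard := Set.ncard_le_ncard hsub (Set.toFinite _)
      have h2 : Fintype.card k ^ 3 ≤ 256 * (C * Fintype.card k ^ 2) :=
        g1.trans (Nat.mul_le_mul_left _ (h1.trans g2))
      have hk : 0 < Fintype.card k := Fintype.card_pos
      have h3 : Fintype.card k ^ 2 * Fintype.card k ≤ Fintype.card k ^ 2 * (256 * C) := by
        calc _ = Fintype.card k ^ 3 := by ring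
          _ ≤ _ := h2
          _ = _ := by ring
      have h4 := Nat.le_of_mul_le_mul_left h3 (by positivity)
      omega
    obtain ⟨w, hw1, hw2⟩ := Set.not_subset.mp hne
    obtain ⟨x₁, y₁, a1, a2, a3, a4, a5, a6⟩ := hw1
    have hgw : Gw t x₀ b₁ b₂ u₀ u₁ w := not_not.mp hw2
    refine ⟨x₁, w, ?_, a5, hgw, ⟨y₁, ?_⟩, ?_⟩
    · rintro rfl
      apply a6
      rw [pl_tr, pp_zero1]
    · rw [pl_symm hgd.sy.tr]; exact a6
    · refine ⟨(x, y₁), a1, ?_, (x₁, y₁), a3, ?_, (x₁, w), a5, ?_, rfl⟩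
      · simpa [St] using a2
      · simpa [St] using a4
      · simpa [St] using a6
  obtain ⟨z, w, hz0, hzw, hgw, hu, hwd⟩ := step x y hxy hz
  obtain ⟨z', w', hz0', hzw', hgw', hu', hwd'⟩ := step x' y' hxy' hz'
  have c1 := hN k t (by omega) hgd x₀ b₁ b₂ b₃ u₀ u₁ hln z w hz0 hgw hzw
  have c2 := hN k t (by omega) hgd x₀ b₁ b₂ b₃ u₀ u₁ hln z' w' hz0' hgw' hzw'
  have c3 := wd_append (wd_append hwd' c2) (wd_reverse hgd.sy (p := (z, w)) hzw c1)
  have e : ([false, true, false] ++ [true, false, true, false] ++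
      [true, false, true, false].reverse) =
      [false, true, false, true, false, true, false, false, true, false, true] := rfl
  rw [e] at c3
  exact ⟨z, w, hz0, hzw, hgw.dt, hgw.jr, hu, hwd, c3⟩

end Pool.Agent.T6.H77.VR
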