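import Pool.Agent.T6.H77.VR.Stm
import Pool.Agent.T6.H77.RK.ZJD

/-!
# Most vectors are good (module GW, helper33)
-/

set_option autoImplicit false

namespace Pool.Agent.T6.H77.VR.GW

open Polynomial

section alg

variable {R S : Type} [CommRing R] [CommRing S]

theorem pp_add3 (t : Tn R) (x x' y y' u : Fin 3 → R) :
    pp t x x' (y + y') u = pp t x x' y u + pp t x x' y' u := by
  simp only [pp, Pi.add_apply, ← Finset.sum_add_distrib]
  refine Finset.sum_congr rfl fun a _ => Finset.sum_congr rfl fun b _ =>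
    Finset.sum_congr rfl fun c _ => Finset.sum_congr rfl fun d _ => ?_
  ring

theorem pp_add4 (t : Tn R) (x x' y u u' : Fin 3 → R) :
    pp t x x' y (u + u') = pp t x x' y u + pp t x x' y u' := by
  simp only [pp, Pi.add_apply, ← Finset.sum_add_distrib]
  refine Finset.sum_congr rfl fun a _ => Finset.sum_congr rfl fun b _ =>
    Finset.sum_congr rfl fun c _ => Finset.sum_congr rfl fun d _ => ?_
  ring

theorem pp_smul3 (t : Tn R) (x x' y u : Fin 3 → R) (l : R) :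
    pp t x x' (l • y) u = l * pp t x x' y u := by
  simp only [pp, Pi.smul_apply, smul_eq_mul, Finset.mul_sum]
  refine Finset.sum_congr rfl fun a _ => Finset.sum_congr rfl fun b _ =>
    Finset.sum_congr rfl fun c _ => Finset.sum_congr rfl fun d _ => ?_
  ring

theorem pp_smul4 (t : Tn R) (x x' y u : Fin 3 → R) (l : R) :
    pp t x x' y (l • u) = l * pp t x x' y u := by
  simp only [pp, Pi.smul_apply, smul_eq_mul, Finset.mul_sum]
  refine Finset.sum_congr rfl fun a _ => Finset.sum_congr rfl fun b _ =>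
    Finset.sum_congr rfl fun c _ => Finset.sum_congr rfl fun d _ => ?_
  ring

theorem pp_single (t : Tn R) (x x' y u : Fin 3 → R) :
    ∑ c, pp t x x' y (Pi.single c 1) * u c = pp t x x' y u := by
  have h : u = ∑ c, u c • (Pi.single c (1 : R) : Fin 3 → R) := by
    ext i
    simp [Finset.sum_apply, Pi.single_apply]
  conv_rhs => rw [h]
  rw [Fin.sum_univ_three, Fin.sum_univ_three, pp_add4, pp_add4, pp_smul4, pp_smul4, pp_smul4]
  ring

/-- the form `dm` on `z + l y` -/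
theorem dm_line (t : Tn R) (z y : Fin 3 → R) (l : R) (a b : Fin 3) :
    dm t (z + l • y) a b = dm t y a b * l ^ 2 +
      (∑ c, ∑ d, t a b c d * (z c * y d + y c * z d)) * l + dm t z a b := by
  simp only [dm, Matrix.of_apply, Pi.add_apply, Pi.smul_apply, smul_eq_mul, Finset.sum_mul,
    ← Finset.sum_add_distrib]
  refine Finset.sum_congr rfl fun c _ => Finset.sum_congr rfl fun d _ => ?_
  ring

theorem dm_smul (t : Tn R) (y : Fin 3 → R) (l : R) : dm t (l • y) = l ^ 2 • dm t y := by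
  ext a b
  simp only [dm, Matrix.of_apply, Pi.smul_apply, smul_eq_mul, Matrix.smul_apply, Finset.mul_sum]
  refine Finset.sum_congr rfl fun c _ => Finset.sum_congr rfl fun d _ => ?_
  ring

/-! ### ring homomorphisms -/

/-- the image of the coefficients -/
def tm (φ : R →+* S) (t : Tn R) : Tn S := fun a b c d => φ (t a b c d)

theorem pp_map (φ : R →+* S) (t : Tn R) (x x' y y' : Fin 3 → R) :
    φ (pp t x x' y y') = pp (tm φ t) (φ ∘ x) (φ ∘ x') (φ ∘ y) (φ ∘ y') := by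
  simp only [pp, map_sum, map_mul, tm, Function.comp_apply]

theorem dl_map (φ : R →+* S) (t : Tn R) (x u w : Fin 3 → R) :
    φ (dl t x u w) = dl (tm φ t) (φ ∘ x) (φ ∘ u) (φ ∘ w) := by
  simp only [dl, fm, pl, map_sub, map_mul, map_pow, pp_map]

theorem nn_map (φ : R →+* S) (t : Tn R) (x b b' u w : Fin 3 → R) :
    φ (nn t x b b' u w) = nn (tm φ t) (φ ∘ x) (φ ∘ b) (φ ∘ b') (φ ∘ u) (φ ∘ w) := by
  simp only [nn, de, cA, cB, fm, pl, map_sub, map_mul, map_pow, pp_map, map_ofNat]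

end alg

section deg

variable {k : Type} [Field k]

/-- bounds for the two degrees -/
def Dg (i j : ℕ) (P : k[X][X]) : Prop := P.natDegree ≤ i ∧ ∀ n, (P.coeff n).natDegree ≤ j

theorem Dg.mono {i j i' j' : ℕ} {P : k[X][X]} (h : Dg i j P) (hi : i ≤ i') (hj : j ≤ j') :
    Dg i' j' P := ⟨h.1.trans hi, fun n => (h.2 n).trans hj⟩

theorem Dg.add {i j : ℕ} {P Q : k[X][X]} (h : Dg i j P) (h' : Dg i j Q) : Dg i j (P + Q) := by
  refine ⟨(natDegree_add_le _ _).trans (max_le h.1 h'.1), fun n => ?_⟩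
  rw [coeff_add]
  exact (natDegree_add_le _ _).trans (max_le (h.2 n) (h'.2 n))

theorem Dg.sub {i j : ℕ} {P Q : k[X][X]} (h : Dg i j P) (h' : Dg i j Q) : Dg i j (P - Q) := by
  refine ⟨(natDegree_sub_le _ _).trans (max_le h.1 h'.1), fun n => ?_⟩
  rw [coeff_sub]
  exact (natDegree_sub_le _ _).trans (max_le (h.2 n) (h'.2 n))

theorem Dg.mul {i j i' j' : ℕ} {P Q : k[X][X]} (h : Dg i j P) (h' : Dg i' j' Q) :
    Dg (i + i') (j + j') (P * Q) := by
  refine ⟨natDegree_mul_le.trans (add_le_add h.1 h'.1), fun n => ?_⟩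
  rw [coeff_mul]
  refine natDegree_sum_le_of_forall_le _ _ fun p _ => ?_
  exact natDegree_mul_le.trans (add_le_add (h.2 _) (h'.2 _))

theorem Dg.sum {ι : Type} {s : Finset ι} {i j : ℕ} {f : ι → k[X][X]}
    (h : ∀ a ∈ s, Dg i j (f a)) : Dg i j (∑ a ∈ s, f a) := by
  classical
  induction s using Finset.induction_on with
  | empty => exact ⟨by simp, fun n => by simp⟩
  | insert a s ha ih =>
    rw [Finset.sum_insert ha]
    exact (h a (Finset.mem_insert_self a s)).add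
      (ih fun b hb => h b (Finset.mem_insert_of_mem hb))

theorem dg_C {j : ℕ} {p : k[X]} (h : p.natDegree ≤ j) : Dg 0 j (C p) := by
  refine ⟨by simp, fun n => ?_⟩
  rw [coeff_C]
  split
  · exact h
  · simp

theorem dg_natCast (n : ℕ) : Dg 0 0 (n : k[X][X]) := by
  have : (n : k[X][X]) = C ((n : ℕ) : k[X]) := by simp
  rw [this]
  exact dg_C (by simp)

theorem Dg.pow {i j : ℕ} {P : k[X][X]} (h : Dg i j P) : Dg (2 * i) (2 * j) (P ^ 2) := by
  rw [pow_two, two_mul, two_mul]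
  exact h.mul h

/-- vectors with bounds for the two degrees -/
def Dv (i j : ℕ) (x : Fin 3 → k[X][X]) : Prop := ∀ a, Dg i j (x a)

theorem dg_pp {t : Tn k[X][X]} (ht : ∀ a b c d, Dg 0 0 (t a b c d)) {i₁ j₁ i₂ j₂ i₃ j₃ i₄ j₄ : ℕ}
    {x x' y y' : Fin 3 → k[X][X]} (h₁ : Dv i₁ j₁ x) (h₂ : Dv i₂ j₂ x') (h₃ : Dv i₃ j₃ y)
    (h₄ : Dv i₄ j₄ y') : Dg (i₁ + i₂ + i₃ + i₄) (j₁ + j₂ + j₃ + j₄) (pp t x x' y y') := by
  unfold pp
  refine Dg.sum fun a _ => Dg.sum fun b _ => Dg.sum fun c _ => Dg.sum fun d _ => ?_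
  have := ((((ht a b c d).mul (h₁ a)).mul (h₂ b)).mul (h₃ c)).mul (h₄ d)
  rwa [zero_add, zero_add] at this

theorem dg_dl {t : Tn k[X][X]} (ht : ∀ a b c d, Dg 0 0 (t a b c d))
    {x u w : Fin 3 → k[X][X]} (hx : Dv 0 0 x) (hu : Dv 1 0 u) (hw : Dv 0 1 w) :
    Dg 2 4 (dl t x u w) := by
  unfold dl fm pl
  exact (dg_pp ht hx hu hw hw).pow.sub ((dg_pp ht hx hx hw hw).mul (dg_pp ht hu hu hw hw))

theorem dg_nn {t : Tn k[X][X]} (ht : ∀ a b c d, Dg 0 0 (t a b c d))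
    {x b b' u w : Fin 3 → k[X][X]} (hx : Dv 0 0 x) (hb : Dv 0 0 b) (hb' : Dv 0 0 b')
    (hu : Dv 1 0 u) (hw : Dv 0 1 w) :
    Dg 8 4 (nn t x b b' u w) := by
  have h4 : Dg 0 0 (4 : k[X][X]) := by
    have := dg_natCast (k := k) 4
    exact_mod_cast this
  have h2 : Dg 0 0 (2 : k[X][X]) := by
    have := dg_natCast (k := k) 2
    exact_mod_cast this
  have hde : Dg 4 0 (de t b b' u) := by
    unfold de fm
    exact (dg_pp ht hu hu hb hb').pow.sub ((dg_pp ht hu hu hb hb).mul (dg_pp ht hu hu hb' hb'))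
  have hcA : Dg 2 0 (cA t x b b' u) := by
    unfold cA
    exact (dg_pp ht hx hu hb hb').pow.sub ((dg_pp ht hx hu hb hb).mul (dg_pp ht hx hu hb' hb'))
  have hcB : Dg 3 0 (cB t x b b' u) := by
    unfold cB
    exact (((h2.mul (dg_pp ht hx hu hb hb')).mul (dg_pp ht hu hu hb hb')).sub
      ((dg_pp ht hx hu hb hb).mul (dg_pp ht hu hu hb' hb'))).sub
      ((dg_pp ht hx hu hb' hb').mul (dg_pp ht hu hu hb hb))
  have f0 : Dg 0 2 (fm t x w) := dg_pp ht hx hx hw hw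
  have f2 : Dg 2 2 (fm t u w) := dg_pp ht hu hu hw hw
  have f1 : Dg 1 2 (pl t w x u) := dg_pp ht hx hu hw hw
  unfold nn
  refine Dg.sub (Dg.pow (i := 4) (j := 2) ?_) (Dg.mul (i := 3) (j := 2) (i' := 5) (j' := 2) ?_ ?_)
  · exact (f0.mul hde).sub ((h4.mul f2).mul hcA)
  · have := h4.mul (i' := 3) (j' := 2) ((f0.mul hcB).sub ((h4.mul f1).mul hcA))
    exact this
  · exact (f1.mul hde).sub (f2.mul hcB)

theorem ht_ct (t : Tn k) (a b c d : Fin 3) : Dg 0 0 (ct (ct t) a b c d) := by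
  unfold ct
  exact dg_C (by simp)

theorem dv_cv (x : Fin 3 → k) : Dv 0 0 (cv (cv x)) := fun i => by
  unfold cv
  exact dg_C (by simp)

theorem dv_uv (u₀ u₁ : Fin 3 → k) : Dv 1 0 (uv (cv u₀) (cv u₁)) := fun i => by
  unfold uv cv
  refine Dg.add ((dg_C (by simp)).mono (Nat.zero_le 1) le_rfl) ?_
  refine ⟨?_, fun n => ?_⟩
  · refine natDegree_mul_le.trans ?_
    rw [natDegree_X, natDegree_C]
  · rw [X_mul, coeff_C_mul_X]
    split
    · simp
    · simp

theorem dv_w (w v : Fin 3 → k) : Dv 0 1 (cv (uv w v)) := fun i => by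
  unfold cv
  refine dg_C ?_
  unfold uv
  refine (natDegree_add_le _ _).trans (max_le (by simp) ?_)
  refine natDegree_mul_le.trans ?_
  rw [natDegree_X, natDegree_C]

theorem map_ct (t : Tn k) (l : k) :
    tm (mapRingHom (evalRingHom l)) (ct (ct t)) = ct t := by
  funext a b c d
  simp [tm, ct]

theorem map_cv (x : Fin 3 → k) (l : k) :
    (mapRingHom (evalRingHom l)) ∘ (cv (cv x)) = cv x := by
  funext i
  simp [cv]

theorem map_uv (u₀ u₁ : Fin 3 → k) (l : k) :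
    (mapRingHom (evalRingHom l)) ∘ (uv (cv u₀) (cv u₁)) = uv u₀ u₁ := by
  funext i
  simp [uv, cv]

theorem map_w (w v : Fin 3 → k) (l : k) :
    (mapRingHom (evalRingHom l)) ∘ (cv (uv w v)) = cv (w + l • v) := by
  funext i
  have h : eval l (C (w i) + X * C (v i)) = w i + l * v i := by
    rw [eval_add, eval_mul, eval_C, eval_C, eval_X]
  simp only [Function.comp_apply, cv, uv, coe_mapRingHom, map_C, coe_evalRingHom, h,
    Pi.add_apply, Pi.smul_apply, smul_eq_mul]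

theorem dp_map (t : Tn k) (x u₀ u₁ w v : Fin 3 → k) (l : k) :
    (dp (ct t) (cv x) (cv u₀) (cv u₁) (uv w v)).map (evalRingHom l) =
      dp t x u₀ u₁ (w + l • v) := by
  rw [← coe_mapRingHom]
  unfold dp
  rw [dl_map, map_ct, map_cv, map_uv, map_w]

theorem np_map (t : Tn k) (x b b' u₀ u₁ w v : Fin 3 → k) (l : k) :
    (np (ct t) (cv x) (cv b) (cv b') (cv u₀) (cv u₁) (uv w v)).map (evalRingHom l) =
      np t x b b' u₀ u₁ (w + l • v) := by
  rw [← coe_mapRingHom]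
  unfold np
  rw [nn_map, map_ct, map_cv, map_cv, map_cv, map_uv, map_w]

theorem dg_dp (t : Tn k) (x u₀ u₁ w v : Fin 3 → k) :
    Dg 2 4 (dp (ct t) (cv x) (cv u₀) (cv u₁) (uv w v)) :=
  dg_dl (ht_ct t) (dv_cv x) (dv_uv u₀ u₁) (dv_w w v)

theorem dg_np (t : Tn k) (x b b' u₀ u₁ w v : Fin 3 → k) :
    Dg 8 4 (np (ct t) (cv x) (cv b) (cv b') (cv u₀) (cv u₁) (uv w v)) :=
  dg_nn (ht_ct t) (dv_cv x) (dv_cv b) (dv_cv b') (dv_uv u₀ u₁) (dv_w w v)

end deg

section cnt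

variable {k : Type} [Field k] [Fintype k]

open Pool.Agent.T6.H77.RK.ZJD in
/-- zeros of the discriminant -/
theorem cnt_dt (t : Tn k) (y0 : Fin 3 → k) (hy0 : (dm t y0).det ≠ 0) :
    {w | (dm t w).det = 0}.ncard ≤ 6 * Fintype.card k ^ 2 := by
  refine cnt _ y0 6 fun z => ?_
  set M : Matrix (Fin 3) (Fin 3) (Polynomial k) :=
    Matrix.of fun a b => C (dm t y0 a b) * X ^ 2 +
      C (∑ c, ∑ d, t a b c d * (z c * y0 d + y0 c * z d)) * X + C (dm t z a b) with hM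
  have hd : ∀ i j, (M i j).natDegree ≤ 2 := fun i j => quad_deg _ _ _
  obtain ⟨h1, h2⟩ := deg_det 2 M hd
  have h3 : (Matrix.of fun i j => (M i j).coeff 2) = dm t y0 := by
    ext i j
    exact quad_coeff _ _ _
  rw [h3] at h2
  refine ⟨M.det, ?_, by simpa using h1, ?_⟩
  · intro h0
    rw [h0] at h2
    exact hy0 (by simpa using h2.symm)
  · intro l hl
    have h4 : (evalRingHom l) M.det = (dm t (z + l • y0)).det := by
      rw [RingHom.map_det]
      congr 1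
      ext i j
      rw [dm_line]
      simp only [hM, RingHom.mapMatrix_apply, Matrix.map_apply, Matrix.of_apply,
        coe_evalRingHom, eval_add, eval_mul, eval_C, eval_X, eval_pow]
    rw [Set.mem_ofPred_eq] at hl
    rw [hl] at h4
    simpa using h4

open Pool.Agent.T6.H77.RK.ZJD in
/-- zeros of a quadratic form -/
theorem cnt_a0 (t : Tn k) (x y0 : Fin 3 → k) (hy0 : fm t x y0 ≠ 0) :
    {w | fm t x w = 0}.ncard ≤ 2 * Fintype.card k ^ 2 := by
  refine cnt _ y0 2 fun z => ?_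
  refine ⟨C (fm t x y0) * X ^ 2 + C (pp t x x z y0 + pp t x x y0 z) * X + C (fm t x z), ?_,
    quad_deg _ _ _, ?_⟩
  · intro h0
    apply hy0
    rw [← quad_coeff (fm t x z) (pp t x x z y0 + pp t x x y0 z) (fm t x y0), h0, coeff_zero]
  · intro l hl
    rw [Set.mem_ofPred_eq] at hl
    rw [← hl]
    simp only [fm, eval_add, eval_mul, eval_C, eval_X, eval_pow, pp_add3, pp_add4, pp_smul3,
      pp_smul4]
    ring

open Pool.Agent.T6.H77.RK.ZJD in
/-- no direction is lost -/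
theorem cnt_jr (t : Tn k) (y0 : Fin 3 → k) (x : Fin 3 → Fin 3 → k)
    (h : (Matrix.of fun j c => pp t (x j) (x j) y0 (Pi.single c 1)).det ≠ 0) :
    {w | ¬ Jr t w}.ncard ≤ 3 * Fintype.card k ^ 2 := by
  refine cnt _ y0 3 fun z => ?_
  set M : Matrix (Fin 3) (Fin 3) (Polynomial k) :=
    Matrix.of fun j c => C (pp t (x j) (x j) y0 (Pi.single c 1)) * X +
      C (pp t (x j) (x j) z (Pi.single c 1)) with hM
  have hd : ∀ i j, (M i j).natDegree ≤ 1 := fun i j => lin_deg _ _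
  obtain ⟨h1, h2⟩ := deg_det 1 M hd
  have h3 : (Matrix.of fun i j => (M i j).coeff 1) =
      Matrix.of fun j c => pp t (x j) (x j) y0 (Pi.single c 1) := by
    ext i j
    exact lin_coeff _ _
  rw [h3] at h2
  refine ⟨M.det, ?_, by simpa using h1, ?_⟩
  · intro h0
    rw [h0] at h2
    exact h (by simpa using h2.symm)
  · intro l hl
    have h4 : (evalRingHom l) M.det =
        (Matrix.of fun j c => pp t (x j) (x j) (z + l • y0) (Pi.single c 1)).det := by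
      rw [RingHom.map_det]
      congr 1
      ext i j
      simp only [hM, RingHom.mapMatrix_apply, Matrix.map_apply, Matrix.of_apply,
        coe_evalRingHom, eval_add, eval_mul, eval_C, eval_X, pp_add3, pp_smul3]
      ring
    by_contra hne
    apply hl
    intro η hη
    have h5 : (Matrix.of fun j c => pp t (x j) (x j) (z + l • y0)
        (Pi.single c (1 : k))).det ≠ 0 := by
      intro h0
      apply hne
      rw [h0] at h4
      simpa using h4
    apply Matrix.eq_zero_of_mulVec_eq_zero h5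
    funext j
    simp only [Matrix.mulVec, dotProduct, Matrix.of_apply, Pi.zero_apply]
    rw [pp_single]
    exact hη (x j)

/-- the bad directions on the line of `b₁`, `b₂` -/
theorem cnt_ex (t : Tn k) (b₁ b₂ : Fin 3 → k) (hli : ∀ r s : k, r • b₁ + s • b₂ = 0 → r = 0 ∧ s = 0)
    (hfx : ∀ y : Fin 3 → k, y ≠ 0 →
      {y' | 4 * Fintype.card k < {x | fm t x y = 0 ∧ fm t x y' = 0}.ncard}.ncard ≤
        8 * Fintype.card k)
    (hds : ∃ r s : k, (dm t (r • b₁ + s • b₂)).det ≠ 0) :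
    {w | ¬ ∀ r s : k, r • b₁ + s • b₂ ≠ 0 → (r = 0 ∨ (dm t (r • b₁ + s • b₂)).det = 0) →
      {x | fm t x (r • b₁ + s • b₂) = 0 ∧ fm t x w = 0}.ncard ≤ 4 * Fintype.card k}.ncard ≤
      56 * Fintype.card k ^ 2 := by
  classical
  -- the polynomial `det dm (b₁ + X b₂)`
  set M : Matrix (Fin 3) (Fin 3) (Polynomial k) :=
    Matrix.of fun a b => C (dm t b₂ a b) * X ^ 2 +
      C (∑ c, ∑ d, t a b c d * (b₁ c * b₂ d + b₂ c * b₁ d)) * X + C (dm t b₁ a b) with hM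
  have hd : ∀ i j, (M i j).natDegree ≤ 2 := fun i j => RK.ZJD.quad_deg _ _ _
  obtain ⟨h1, h2⟩ := RK.ZJD.deg_det 2 M hd
  have h3 : (Matrix.of fun i j => (M i j).coeff 2) = dm t b₂ := by
    ext i j
    exact RK.ZJD.quad_coeff _ _ _
  rw [h3] at h2
  have hev : ∀ l : k, M.det.eval l = (dm t (b₁ + l • b₂)).det := by
    intro l
    have h4 : (evalRingHom l) M.det = (dm t (b₁ + l • b₂)).det := by
      rw [RingHom.map_det]
      congr 1
      ext i j
      rw [dm_line]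
      simp only [hM, RingHom.mapMatrix_apply, Matrix.map_apply, Matrix.of_apply,
        coe_evalRingHom, eval_add, eval_mul, eval_C, eval_X, eval_pow]
    simpa using h4
  have hsc : ∀ (c : k) (y : Fin 3 → k), (dm t (c • y)).det = c ^ 6 * (dm t y).det := by
    intro c y
    rw [dm_smul, Matrix.det_smul]
    simp only [Fintype.card_fin]
    ring
  have hM0 : M.det ≠ 0 := by
    intro h0
    obtain ⟨r, s, hrs⟩ := hds
    apply hrs
    by_cases hr : r = 0
    · rw [h0, coeff_zero] at h2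
      rw [hr, zero_smul, zero_add, hsc, ← h2, mul_zero]
    · have e : r • b₁ + s • b₂ = r • (b₁ + (r⁻¹ * s) • b₂) := by
        rw [smul_add, smul_smul, mul_inv_cancel_left₀ hr]
      rw [e, hsc, ← hev, h0, eval_zero, mul_zero]
  -- the finite set of directions
  set A : (Fin 3 → k) → Finset (Fin 3 → k) := fun y => Finset.univ.filter fun y' =>
    4 * Fintype.card k < {x | fm t x y = 0 ∧ fm t x y' = 0}.ncard with hA
  have hAc : ∀ y, y ≠ 0 → (A y).card ≤ 8 * Fintype.card k := by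
    intro y hy
    have := hfx y hy
    rw [Set.ncard_eq_toFinset_card'] at this
    convert this using 2
    ext w
    simp [hA]
  set Y : Finset (Fin 3 → k) := insert b₂ (M.det.roots.toFinset.image fun l => b₁ + l • b₂) with hY
  have hYc : Y.card ≤ 7 := by
    calc Y.card ≤ (M.det.roots.toFinset.image fun l => b₁ + l • b₂).card + 1 :=
          Finset.card_insert_le _ _
      _ ≤ M.det.roots.toFinset.card + 1 := by
          gcongr
          exact Finset.card_image_le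
      _ ≤ Multiset.card M.det.roots + 1 := by
          gcongr
          exact Multiset.toFinset_card_le _
      _ ≤ 6 + 1 := by
          gcongr
          exact (Polynomial.card_roots' _).trans (by simpa using h1)
  have hYne : ∀ y ∈ Y, y ≠ 0 := by
    intro y hy h0
    rcases Finset.mem_insert.1 hy with rfl | hy
    · have := (hli 0 1 (by rw [zero_smul, one_smul, zero_add, h0])).2
      exact one_ne_zero this
    · obtain ⟨l, _, rfl⟩ := Finset.mem_image.1 hy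
      have := (hli 1 l (by rw [one_smul, h0])).1
      exact one_ne_zero this
  have hscale : ∀ (c : k) (y w : Fin 3 → k), c ≠ 0 →
      {x | fm t x (c • y) = 0 ∧ fm t x w = 0} = {x | fm t x y = 0 ∧ fm t x w = 0} := by
    intro c y w hc
    ext x
    have e : fm t x (c • y) = c ^ 2 * fm t x y := by
      unfold fm
      rw [pp_smul3, pp_smul4]
      ring
    simp only [Set.mem_ofPred_eq, e, mul_eq_zero, pow_eq_zero_iff, ne_eq, OfNat.ofNat_ne_zero,
      not_false_eq_true, hc, false_or]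
  have hsub : {w | ¬ ∀ r s : k, r • b₁ + s • b₂ ≠ 0 →
      (r = 0 ∨ (dm t (r • b₁ + s • b₂)).det = 0) →
      {x | fm t x (r • b₁ + s • b₂) = 0 ∧ fm t x w = 0}.ncard ≤ 4 * Fintype.card k} ⊆
      ((Y.biUnion A : Finset (Fin 3 → k)) : Set (Fin 3 → k)) := by
    intro w hw
    rw [Set.mem_ofPred_eq] at hw
    push Not at hw
    obtain ⟨r, s, hrs, hor, hlt⟩ := hw
    rw [Finset.mem_coe, Finset.mem_biUnion]
    by_cases hr : r = 0
    · have hs : s ≠ 0 := by
        rintro rfl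
        apply hrs
        rw [hr, zero_smul, zero_smul, add_zero]
      refine ⟨b₂, Finset.mem_insert_self _ _, ?_⟩
      rw [hA, Finset.mem_filter]
      refine ⟨Finset.mem_univ _, ?_⟩
      rw [hr, zero_smul, zero_add, hscale s b₂ w hs] at hlt
      exact hlt
    · have e : r • b₁ + s • b₂ = r • (b₁ + (r⁻¹ * s) • b₂) := by
        rw [smul_add, smul_smul, mul_inv_cancel_left₀ hr]
      have hdet : (dm t (b₁ + (r⁻¹ * s) • b₂)).det = 0 := by
        rcases hor with h | h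
        · exact absurd h hr
        · rw [e, hsc] at h
          exact (mul_eq_zero.1 h).resolve_left (pow_ne_zero 6 hr)
      refine ⟨b₁ + (r⁻¹ * s) • b₂, ?_, ?_⟩
      · refine Finset.mem_insert_of_mem (Finset.mem_image.2 ⟨r⁻¹ * s, ?_, rfl⟩)
        rw [Multiset.mem_toFinset, mem_roots hM0, IsRoot, hev, hdet]
      · rw [hA, Finset.mem_filter]
        refine ⟨Finset.mem_univ _, ?_⟩
        rw [e, hscale r _ w hr] at hlt
        exact hlt
  have hq : 0 < Fintype.card k := Fintype.card_pos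
  calc _ ≤ ((Y.biUnion A : Finset (Fin 3 → k)) : Set (Fin 3 → k)).ncard :=
        Set.ncard_le_ncard hsub (Set.toFinite _)
    _ = (Y.biUnion A).card := Set.ncard_coe_finset _
    _ ≤ Y.card * (8 * Fintype.card k) := Finset.card_biUnion_le_card_mul _ _ _
        fun y hy => hAc y (hYne y hy)
    _ ≤ 7 * (8 * Fintype.card k) := Nat.mul_le_mul_right _ hYc
    _ ≤ 56 * Fintype.card k ^ 2 := by nlinarith

end cnt

end Pool.Agent.T6.H77.VR.GW

namespace Pool.Agent.T6.H77.VR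

open Polynomial GW

/-- GW: most vectors are good -/
theorem gw (hS : StmSQ) (hL : StmLN) : StmGW := by
  obtain ⟨q₁, C₁, h₁⟩ := hS 1 4
  obtain ⟨q₂, C₂, h₂⟩ := hS 4 4
  obtain ⟨q₃, C₃, h₃⟩ := hS 5 8
  refine ⟨max q₁ (max q₂ q₃), 70 + 3 * C₁ + 3 * C₂ + 3 * C₃, ?_⟩
  intro k _ _ t hq hG x₀ b₁ b₂ b₃ u₀ u₁ hLn
  have hq₁ : q₁ ≤ Fintype.card k := (le_max_left _ _).trans hq
  have hq₂ : q₂ ≤ Fintype.card k := ((le_max_left _ _).trans (le_max_right _ _)).trans hq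
  have hq₃ : q₃ ≤ Fintype.card k := ((le_max_right _ _).trans (le_max_right _ _)).trans hq
  have hpos : 0 < Fintype.card k := Fintype.card_pos
  -- the seven sets
  have s1 : {w | (dm t w).det = 0}.ncard ≤ 6 * Fintype.card k ^ 2 := by
    obtain ⟨r, s, h⟩ := hLn.ds
    exact cnt_dt t _ h
  have s2 : {w | fm t x₀ w = 0}.ncard ≤ 2 * Fintype.card k ^ 2 := by
    obtain ⟨κ, hκ, h⟩ := hLn.sp
    refine cnt_a0 t x₀ ((1 : k) • b₁ + (0 : k) • b₂ + (1 : k) • b₃) ?_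
    rw [h, mul_one, mul_one]
    exact mul_ne_zero hG.two hκ
  have s3 : {w | ¬ Jr t w}.ncard ≤ 3 * Fintype.card k ^ 2 := by
    obtain ⟨y, x, h⟩ := hG.jr
    exact cnt_jr t y x h
  have s4 : {w | ¬ NSq (dp t x₀ u₀ u₁ w)}.ncard ≤ 3 * C₁ * Fintype.card k ^ 2 + 1 := by
    obtain ⟨w₀, hw₀⟩ := hLn.nd
    refine hL k (fun w => ¬ NSq (dp t x₀ u₀ u₁ w)) w₀ C₁ fun v => ?_
    have hdg := dg_dp t x₀ u₀ u₁ w₀ v
    have := h₁ k hq₁ hG.two (dp (ct t) (cv x₀) (cv u₀) (cv u₁) (uv w₀ v)) hdg.1 hdg.2 0 (by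
      rw [dp_map, zero_smul, add_zero]
      exact hw₀)
    simpa only [dp_map] using this
  have s5 : {w | ¬ NSq (np t x₀ b₁ b₂ u₀ u₁ w)}.ncard ≤
      3 * C₂ * Fintype.card k ^ 2 + 1 := by
    obtain ⟨w₀, hw₀⟩ := hLn.nn
    refine hL k (fun w => ¬ NSq (np t x₀ b₁ b₂ u₀ u₁ w)) w₀ C₂ fun v => ?_
    have hdg := dg_np t x₀ b₁ b₂ u₀ u₁ w₀ v
    have := h₂ k hq₂ hG.two (np (ct t) (cv x₀) (cv b₁) (cv b₂) (cv u₀) (cv u₁) (uv w₀ v))
      hdg.1 hdg.2 0 (by
      rw [np_map, zero_smul, add_zero]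
      exact hw₀)
    simpa only [np_map] using this
  have s6 : {w | ¬ NSq (dp t x₀ u₀ u₁ w * np t x₀ b₁ b₂ u₀ u₁ w)}.ncard ≤
      3 * C₃ * Fintype.card k ^ 2 + 1 := by
    obtain ⟨w₀, hw₀⟩ := hLn.dn
    refine hL k (fun w => ¬ NSq (dp t x₀ u₀ u₁ w * np t x₀ b₁ b₂ u₀ u₁ w)) w₀ C₃ fun v => ?_
    have hdg := (dg_dp t x₀ u₀ u₁ w₀ v).mul (dg_np t x₀ b₁ b₂ u₀ u₁ w₀ v)
    have := h₃ k hq₃ hG.two (dp (ct t) (cv x₀) (cv u₀) (cv u₁) (uv w₀ v) *
      np (ct t) (cv x₀) (cv b₁) (cv b₂) (cv u₀) (cv u₁) (uv w₀ v)) hdg.1 hdg.2 0 (by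
      rw [Polynomial.map_mul, dp_map, np_map, zero_smul, add_zero]
      exact hw₀)
    simpa only [Polynomial.map_mul, dp_map, np_map] using this
  have hli : ∀ r s : k, r • b₁ + s • b₂ = 0 → r = 0 ∧ s = 0 := by
    intro r s h
    have h1 : Matrix.vecMul ![r, s, 0] (Matrix.of ![b₁, b₂, b₃]) = 0 := by
      funext i
      have := congrFun h i
      simp only [Pi.add_apply, Pi.smul_apply, smul_eq_mul, Pi.zero_apply] at this
      simp only [Matrix.vecMul, dotProduct, Fin.sum_univ_three, Matrix.of_apply, Pi.zero_apply]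
      simpa using this
    have := Matrix.eq_zero_of_vecMul_eq_zero hLn.bb h1
    exact ⟨by simpa using congrFun this 0, by simpa using congrFun this 1⟩
  have s7 := cnt_ex t b₁ b₂ hli hG.sx.fx hLn.ds
  have hsub : {w | ¬ Gw t x₀ b₁ b₂ u₀ u₁ w} ⊆
      {w | (dm t w).det = 0} ∪ ({w | fm t x₀ w = 0} ∪ ({w | ¬ Jr t w} ∪
      ({w | ¬ NSq (dp t x₀ u₀ u₁ w)} ∪ ({w | ¬ NSq (np t x₀ b₁ b₂ u₀ u₁ w)} ∪
      ({w | ¬ NSq (dp t x₀ u₀ u₁ w * np t x₀ b₁ b₂ u₀ u₁ w)} ∪
      {w | ¬ ∀ r s : k, r • b₁ + s • b₂ ≠ 0 →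
        (r = 0 ∨ (dm t (r • b₁ + s • b₂)).det = 0) →
        {x | fm t x (r • b₁ + s • b₂) = 0 ∧ fm t x w = 0}.ncard ≤
          4 * Fintype.card k}))))) := by
    intro w hw
    by_contra h
    simp only [Set.mem_union, Set.mem_ofPred_eq, not_or, not_not] at h
    obtain ⟨h1, h2, h3, h4, h5, h6, h7⟩ := h
    exact hw ⟨h1, h2, h3, h4, h5, h6, h7⟩
  have hcard := Set.ncard_le_ncard hsub (Set.toFinite _)
  have u1 := Set.ncard_union_le {w | (dm t w).det = 0} ({w | fm t x₀ w = 0} ∪ ({w | ¬ Jr t w} ∪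
      ({w | ¬ NSq (dp t x₀ u₀ u₁ w)} ∪ ({w | ¬ NSq (np t x₀ b₁ b₂ u₀ u₁ w)} ∪
      ({w | ¬ NSq (dp t x₀ u₀ u₁ w * np t x₀ b₁ b₂ u₀ u₁ w)} ∪
      {w | ¬ ∀ r s : k, r • b₁ + s • b₂ ≠ 0 →
        (r = 0 ∨ (dm t (r • b₁ + s • b₂)).det = 0) →
        {x | fm t x (r • b₁ + s • b₂) = 0 ∧ fm t x w = 0}.ncard ≤
          4 * Fintype.card k})))))
  have u2 := Set.ncard_union_le {w | fm t x₀ w = 0} ({w | ¬ Jr t w} ∪
      ({w | ¬ NSq (dp t x₀ u₀ u₁ w)} ∪ ({w | ¬ NSq (np t x₀ b₁ b₂ u₀ u₁ w)} ∪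
      ({w | ¬ NSq (dp t x₀ u₀ u₁ w * np t x₀ b₁ b₂ u₀ u₁ w)} ∪
      {w | ¬ ∀ r s : k, r • b₁ + s • b₂ ≠ 0 →
        (r = 0 ∨ (dm t (r • b₁ + s • b₂)).det = 0) →
        {x | fm t x (r • b₁ + s • b₂) = 0 ∧ fm t x w = 0}.ncard ≤
          4 * Fintype.card k}))))
  have u3 := Set.ncard_union_le {w | ¬ Jr t w}
      ({w | ¬ NSq (dp t x₀ u₀ u₁ w)} ∪ ({w | ¬ NSq (np t x₀ b₁ b₂ u₀ u₁ w)} ∪
      ({w | ¬ NSq (dp t x₀ u₀ u₁ w * np t x₀ b₁ b₂ u₀ u₁ w)} ∪
      {w | ¬ ∀ r s : k, r • b₁ + s • b₂ ≠ 0 →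
        (r = 0 ∨ (dm t (r • b₁ + s • b₂)).det = 0) →
        {x | fm t x (r • b₁ + s • b₂) = 0 ∧ fm t x w = 0}.ncard ≤
          4 * Fintype.card k})))
  have u4 := Set.ncard_union_le
      {w | ¬ NSq (dp t x₀ u₀ u₁ w)} ({w | ¬ NSq (np t x₀ b₁ b₂ u₀ u₁ w)} ∪
      ({w | ¬ NSq (dp t x₀ u₀ u₁ w * np t x₀ b₁ b₂ u₀ u₁ w)} ∪
      {w | ¬ ∀ r s : k, r • b₁ + s • b₂ ≠ 0 →
        (r = 0 ∨ (dm t (r • b₁ + s • b₂)).det = 0) →
        {x | fm t x (r • b₁ + s • b₂) = 0 ∧ fm t x w = 0}.ncard ≤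
          4 * Fintype.card k}))
  have u5 := Set.ncard_union_le
      {w | ¬ NSq (np t x₀ b₁ b₂ u₀ u₁ w)}
      ({w | ¬ NSq (dp t x₀ u₀ u₁ w * np t x₀ b₁ b₂ u₀ u₁ w)} ∪
      {w | ¬ ∀ r s : k, r • b₁ + s • b₂ ≠ 0 →
        (r = 0 ∨ (dm t (r • b₁ + s • b₂)).det = 0) →
        {x | fm t x (r • b₁ + s • b₂) = 0 ∧ fm t x w = 0}.ncard ≤
          4 * Fintype.card k})
  have u6 := Set.ncard_union_le
      {w | ¬ NSq (dp t x₀ u₀ u₁ w * np t x₀ b₁ b₂ u₀ u₁ w)}
      {w | ¬ ∀ r s : k, r • b₁ + s • b₂ ≠ 0 →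
        (r = 0 ∨ (dm t (r • b₁ + s • b₂)).det = 0) →
        {x | fm t x (r • b₁ + s • b₂) = 0 ∧ fm t x w = 0}.ncard ≤
          4 * Fintype.card k}
  have hsq : 1 ≤ Fintype.card k ^ 2 := Nat.one_le_pow _ _ hpos
  have e : (70 + 3 * C₁ + 3 * C₂ + 3 * C₃) * Fintype.card k ^ 2 =
      6 * Fintype.card k ^ 2 + (2 * Fintype.card k ^ 2 + (3 * Fintype.card k ^ 2 +
      ((3 * C₁ * Fintype.card k ^ 2 + Fintype.card k ^ 2) +
      ((3 * C₂ * Fintype.card k ^ 2 + Fintype.card k ^ 2) +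
      ((3 * C₃ * Fintype.card k ^ 2 + Fintype.card k ^ 2) + 56 * Fintype.card k ^ 2))))) := by
    ring
  rw [e]
  omega

end Pool.Agent.T6.H77.VR
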