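import Pool.Agent.T6.H77.VR.Stm

/-!
# Hypersurfaces of bidegree (2, 2) in `P² × P²`: growth (helper61)
-/

set_option autoImplicit false

open Finset
open scoped Classical

namespace Pool.Agent.T6.H77.VR

namespace GX

lemma ncard_eq {V : Type} [Fintype V] (P : V → Prop) [DecidablePred P] :
    {X : V | P X}.ncard = (univ.filter P).card := by
  rw [← Set.ncard_coe_finset]
  congr 1
  ext X
  simp

lemma pp_tr {R : Type} [CommRing R] (t : Tn R) (x x' y y' : Fin 3 → R) :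
    pp (tr t) y y' x x' = pp t x x' y y' := by
  unfold pp tr
  simp only [Fin.sum_univ_three]
  ring

lemma fm_tr {R : Type} [CommRing R] (t : Tn R) (x y : Fin 3 → R) : fm (tr t) y x = fm t x y :=
  pp_tr t x x y y

lemma sy_tr {R : Type} {t : Tn R} (h : Sy t) : Sy (tr t) :=
  ⟨fun a b c d => h.2 c d a b, fun a b c d => h.1 c d a b⟩

lemma pp_zero₁ {R : Type} [CommRing R] (t : Tn R) (x' y y' : Fin 3 → R) :
    pp t 0 x' y y' = 0 := by
  unfold pp
  simp

lemma pp_zero₂ {R : Type} [CommRing R] (t : Tn R) (x y y' : Fin 3 → R) :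
    pp t x 0 y y' = 0 := by
  unfold pp
  simp

variable {k : Type} [Field k] [Fintype k]

/-- number of pairs with the same end point -/
lemma card_pairs {t : Tn k} (hQ : StmQZ) (hs : Gs t) (hz : Gs (tr t)) {x w : Fin 3 → k}
    (hx : x ≠ 0) (hw : w ≠ 0) :
    ((univ.filter (fun x₁ : Fin 3 → k => fm t x₁ w = 0)).sigma
      (fun x₁ => univ.filter (fun y₁ : Fin 3 → k => fm t x y₁ = 0 ∧ fm t x₁ y₁ = 0))).card ≤
      24 * Fintype.card k ^ 3 := by
  set q := Fintype.card k with hqd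
  rw [Finset.card_sigma]
  have h1 : (univ.filter (fun x₁ : Fin 3 → k => fm t x₁ w = 0)).card ≤ 2 * q ^ 2 := by
    have h := hQ k t w (hs.nz w hw)
    rw [ncard_eq] at h
    exact h
  have h2 : ∀ x₁ : Fin 3 → k, (univ.filter (fun y₁ : Fin 3 → k => fm t x y₁ = 0 ∧
      fm t x₁ y₁ = 0)).card ≤ 2 * q ^ 2 := by
    intro x₁
    have h := hQ k (tr t) x (hz.nz x hx)
    rw [ncard_eq] at h
    refine le_trans (Finset.card_le_card ?_) h
    intro v hv
    simp only [mem_filter, mem_univ, true_and] at hv ⊢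
    rw [fm_tr]
    exact hv.1
  have h4 : (univ.filter (fun x₁ : Fin 3 → k => 4 * q < (univ.filter (fun y₁ : Fin 3 → k =>
      fm t x y₁ = 0 ∧ fm t x₁ y₁ = 0)).card)).card ≤ 8 * q := by
    have h := hz.fx x hx
    rw [ncard_eq] at h
    refine le_trans (Finset.card_le_card ?_) h
    intro v hv
    simp only [mem_filter, mem_univ, true_and] at hv ⊢
    rw [ncard_eq]
    simp only [fm_tr]
    exact hv
  have h5 : ∀ x₁ ∈ univ.filter (fun x₁ : Fin 3 → k => fm t x₁ w = 0),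
      (univ.filter (fun y₁ : Fin 3 → k => fm t x y₁ = 0 ∧ fm t x₁ y₁ = 0)).card ≤
      4 * q + if (4 * q < (univ.filter (fun y₁ : Fin 3 → k =>
        fm t x y₁ = 0 ∧ fm t x₁ y₁ = 0)).card) then 2 * q ^ 2 else 0 := by
    intro x₁ _
    by_cases h : 4 * q < (univ.filter (fun y₁ : Fin 3 → k =>
        fm t x y₁ = 0 ∧ fm t x₁ y₁ = 0)).card
    · rw [if_pos h]
      exact le_trans (h2 x₁) (Nat.le_add_left _ _)
    · rw [if_neg h, add_zero]
      exact not_lt.mp h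
  refine le_trans (Finset.sum_le_sum h5) ?_
  rw [Finset.sum_add_distrib, Finset.sum_const, smul_eq_mul, ← Finset.sum_filter,
    Finset.sum_const, smul_eq_mul]
  have h6 : ((univ.filter (fun x₁ : Fin 3 → k => fm t x₁ w = 0)).filter
      (fun x₁ => 4 * q < (univ.filter (fun y₁ : Fin 3 → k =>
        fm t x y₁ = 0 ∧ fm t x₁ y₁ = 0)).card)).card ≤ 8 * q :=
    le_trans (Finset.card_le_card (Finset.filter_subset_filter _ (Finset.subset_univ _))) h4
  calc _ ≤ (2 * q ^ 2) * (4 * q) + (8 * q) * (2 * q ^ 2) :=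
        Nat.add_le_add (Nat.mul_le_mul_right _ h1) (Nat.mul_le_mul_right _ h6)
    _ = 24 * q ^ 3 := by ring

end GX

theorem gx (hC : StmCO) (hQ : StmQZ) : StmGX := by
  refine ⟨100, ?_⟩
  intro k _ _ t hq h2 hsy hs hz x y hxy hy'
  set q := Fintype.card k with hqd
  have hx : x ≠ 0 := by
    rintro rfl
    obtain ⟨y', hy'⟩ := hy'
    apply hy'
    unfold pl
    rw [GX.pp_tr]
    exact GX.pp_zero₁ t 0 y y'
  let A₁ : Finset (Fin 3 → k) := univ.filter (fun y₁ => fm t x y₁ = 0 ∧ pl (tr t) x y y₁ ≠ 0 ∧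
    ∃ x', pl t y₁ x x' ≠ 0)
  let A₂ : (Fin 3 → k) → Finset (Fin 3 → k) := fun y₁ => univ.filter (fun x₁ =>
    fm t x₁ y₁ = 0 ∧ pl t y₁ x x₁ ≠ 0 ∧ ∃ y', pl (tr t) x₁ y₁ y' ≠ 0)
  let A₃ : (Fin 3 → k) → (Fin 3 → k) → Finset (Fin 3 → k) := fun y₁ x₁ => univ.filter (fun w =>
    fm t x₁ w = 0 ∧ pl (tr t) x₁ y₁ w ≠ 0)
  have c1 : q ^ 2 ≤ A₁.card + 5 * q := by
    have h1 := hC k (tr t) h2 (GX.sy_tr hsy) y x (by rw [GX.fm_tr]; exact hxy) hy'
    have h3 := hz.bx x hx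
    rw [GX.ncard_eq] at h1 h3
    have h4 : (univ.filter (fun y₁ => fm (tr t) y₁ x = 0 ∧ pl (tr t) x y y₁ ≠ 0)).card ≤
        (A₁ ∪ univ.filter (fun y₁ => ∀ x', pp (tr t) y₁ y₁ x x' = 0)).card := by
      apply Finset.card_le_card
      intro y₁ hy₁
      simp only [mem_union, mem_filter, mem_univ, true_and, A₁] at hy₁ ⊢
      by_cases h : ∀ x', pp (tr t) y₁ y₁ x x' = 0
      · exact Or.inr h
      · push Not at h
        obtain ⟨x', hx'⟩ := h
        refine Or.inl ⟨by rw [← GX.fm_tr]; exact hy₁.1, hy₁.2, x', ?_⟩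
        unfold pl
        rw [← GX.pp_tr]
        exact hx'
    have h5 := Finset.card_union_le A₁ (univ.filter (fun y₁ => ∀ x', pp (tr t) y₁ y₁ x x' = 0))
    rw [← hqd] at h1 h3
    omega
  have c2 : ∀ y₁ ∈ A₁, q ^ 2 ≤ (A₂ y₁).card + 5 * q := by
    intro y₁ hy₁
    simp only [mem_filter, mem_univ, true_and, A₁] at hy₁
    obtain ⟨hf, hp, he⟩ := hy₁
    have hy₁0 : y₁ ≠ 0 := by
      rintro rfl
      exact hp (GX.pp_zero₂ (tr t) y x x)
    have h1 := hC k t h2 hsy x y₁ hf he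
    have h3 := hs.bx y₁ hy₁0
    rw [GX.ncard_eq] at h1 h3
    have h4 : (univ.filter (fun x' => fm t x' y₁ = 0 ∧ pl t y₁ x x' ≠ 0)).card ≤
        (A₂ y₁ ∪ univ.filter (fun x₁ => ∀ y', pp t x₁ x₁ y₁ y' = 0)).card := by
      apply Finset.card_le_card
      intro x₁ hx₁
      simp only [mem_union, mem_filter, mem_univ, true_and, A₂] at hx₁ ⊢
      by_cases h : ∀ y', pp t x₁ x₁ y₁ y' = 0
      · exact Or.inr h
      · push Not at h
        obtain ⟨y', hy'⟩ := h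
        refine Or.inl ⟨hx₁.1, hx₁.2, y', ?_⟩
        unfold pl
        rw [GX.pp_tr]
        exact hy'
    have h5 := Finset.card_union_le (A₂ y₁) (univ.filter (fun x₁ => ∀ y', pp t x₁ x₁ y₁ y' = 0))
    rw [← hqd] at h1 h3
    omega
  have c3 : ∀ y₁ ∈ A₁, ∀ x₁ ∈ A₂ y₁, q ^ 2 ≤ (A₃ y₁ x₁).card + q := by
    intro y₁ hy₁ x₁ hx₁
    simp only [mem_filter, mem_univ, true_and, A₂] at hx₁
    obtain ⟨hf, hp, he⟩ := hx₁
    have h1 := hC k (tr t) h2 (GX.sy_tr hsy) y₁ x₁ (by rw [GX.fm_tr]; exact hf) he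
    rw [GX.ncard_eq] at h1
    simp only [GX.fm_tr] at h1
    exact h1
  let T : Finset (Σ _ : Fin 3 → k, Σ _ : Fin 3 → k, (Fin 3 → k)) :=
    A₁.sigma (fun y₁ => (A₂ y₁).sigma (fun x₁ => A₃ y₁ x₁))
  rw [GX.ncard_eq]
  set N := (univ.filter (fun w : Fin 3 → k => ∃ x₁ y₁ : Fin 3 → k, fm t x y₁ = 0 ∧
    pl (tr t) x y y₁ ≠ 0 ∧ fm t x₁ y₁ = 0 ∧ pl t y₁ x x₁ ≠ 0 ∧ fm t x₁ w = 0 ∧
    pl (tr t) x₁ y₁ w ≠ 0)) with hN
  obtain ⟨r, hr⟩ : ∃ r, q = r + 100 := ⟨q - 100, by omega⟩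
  -- lower bound
  have l3 : ∀ y₁ ∈ A₁, ∀ x₁ ∈ A₂ y₁, (r + 100) * (r + 99) ≤ (A₃ y₁ x₁).card := by
    intro y₁ hy₁ x₁ hx₁
    have := c3 y₁ hy₁ x₁ hx₁
    rw [hr] at this
    nlinarith
  have l2 : ∀ y₁ ∈ A₁, (r + 100) * (r + 95) ≤ (A₂ y₁).card := by
    intro y₁ hy₁
    have := c2 y₁ hy₁
    rw [hr] at this
    nlinarith
  have l1 : (r + 100) * (r + 95) ≤ A₁.card := by
    have := c1
    rw [hr] at this
    nlinarith
  have hT : (r + 100) * (r + 95) * ((r + 100) * (r + 95) * ((r + 100) * (r + 99))) ≤ T.card := by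
    rw [Finset.card_sigma]
    calc _ ≤ A₁.card * ((r + 100) * (r + 95) * ((r + 100) * (r + 99))) :=
          Nat.mul_le_mul_right _ l1
      _ = A₁.card • ((r + 100) * (r + 95) * ((r + 100) * (r + 99))) := rfl
      _ ≤ _ := by
          apply Finset.card_nsmul_le_sum
          intro y₁ hy₁
          rw [Finset.card_sigma]
          calc _ ≤ (A₂ y₁).card * ((r + 100) * (r + 99)) := Nat.mul_le_mul_right _ (l2 y₁ hy₁)
            _ = (A₂ y₁).card • ((r + 100) * (r + 99)) := rfl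
            _ ≤ _ := Finset.card_nsmul_le_sum _ _ _ fun x₁ hx₁ => l3 y₁ hy₁ x₁ hx₁
  -- upper bound
  have hU : T.card ≤ 24 * q ^ 3 * N.card := by
    apply Finset.card_le_mul_card_image_of_maps_to (f := fun s => s.2.2)
    · intro s hs'
      simp only [Finset.mem_sigma, mem_filter, mem_univ, true_and, T, A₁, A₂, A₃] at hs'
      simp only [hN, mem_filter, mem_univ, true_and]
      exact ⟨s.2.1, s.1, hs'.1.1, hs'.1.2.1, hs'.2.1.1, hs'.2.1.2.1, hs'.2.2.1, hs'.2.2.2⟩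
    · intro w hw
      simp only [hN, mem_filter, mem_univ, true_and] at hw
      obtain ⟨x₁, y₁, -, -, -, -, -, hne⟩ := hw
      have hw0 : w ≠ 0 := by
        rintro rfl
        exact hne (GX.pp_zero₂ (tr t) y₁ x₁ x₁)
      refine le_trans ?_ (GX.card_pairs hQ hs hz hx hw0)
      apply Finset.card_le_card_of_injOn (fun s => ⟨s.2.1, s.1⟩)
      · intro s hs'
        simp only [Finset.mem_sigma, coe_filter, mem_filter, mem_univ, true_and, T, A₁, A₂, A₃,
          Set.mem_ofPred_eq] at hs'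
        simp only [Finset.coe_sigma, Set.mem_sigma_iff, coe_filter, mem_univ, true_and,
          Set.mem_ofPred_eq]
        refine ⟨?_, hs'.1.1.1, hs'.1.2.1.1⟩
        rw [← hs'.2]
        exact hs'.1.2.2.1
      · intro s hs₁ s' hs₂ hss
        simp only [coe_filter, Set.mem_ofPred_eq] at hs₁ hs₂
        obtain ⟨t1, t2, t3⟩ := s
        obtain ⟨s1, s2, s3⟩ := s'
        simp only [Sigma.mk.injEq, heq_eq_eq] at hss
        have e3 : t3 = s3 := by
          have e1 := hs₁.2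
          have e2 := hs₂.2
          exact e1.trans e2.symm
        rw [hss.1, hss.2, e3]
  -- conclusion
  rw [hr] at hU ⊢
  have h7 : (r + 100) ^ 3 * ((r + 95) ^ 2 * (r + 99)) ≤ (r + 100) ^ 3 * (24 * N.card) := by
    calc (r + 100) ^ 3 * ((r + 95) ^ 2 * (r + 99)) =
          (r + 100) * (r + 95) * ((r + 100) * (r + 95) * ((r + 100) * (r + 99))) := by ring
      _ ≤ _ := hT
      _ ≤ _ := hU
      _ = _ := by ring
  have h8 := Nat.le_of_mul_le_mul_left h7 (by positivity)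
  nlinarith

end Pool.Agent.T6.H77.VR
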