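import Pool.Agent.T6.H77.VR.Stm
import Pool.Agent.T6.H77.RK.HEN
import Pool.Agent.T6.H77.RK.LC

/-!
# Points with the same general reduction are joined by moves (helper54)
-/

set_option autoImplicit false

namespace Pool.Agent.T6.H77.VR

namespace LC

section alg

variable {k : Type} [Field k] {t : Tn k}

theorem pp_tr (x x' y y' : Fin 3 → k) : pp (tr t) y y' x x' = pp t x x' y y' := by
  simp only [pp, tr]
  simp only [Fin.sum_univ_three]; ring

theorem fm_swap (x y : Fin 3 → k) : fm (tr t) y x = fm t x y := pp_tr x x y y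

theorem pl_self (x y : Fin 3 → k) : pl t y x x = fm t x y := rfl

theorem Sy.tr (h : Sy t) : Sy (tr t) := ⟨fun a b c d => h.2 c d a b, fun a b c d => h.1 c d a b⟩

theorem pl_symm (hs : Sy t) (y x x' : Fin 3 → k) : pl t y x x' = pl t y x' x := by
  unfold pl pp
  rw [Finset.sum_comm]
  refine Finset.sum_congr rfl fun a _ => Finset.sum_congr rfl fun b _ =>
    Finset.sum_congr rfl fun c _ => Finset.sum_congr rfl fun d _ => ?_
  rw [hs.1 b a c d]; ring

theorem pl_add_right (y x x' z : Fin 3 → k) :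
    pl t y x (x' + z) = pl t y x x' + pl t y x z := by
  simp only [pl, pp, Pi.add_apply, mul_add, add_mul, Finset.sum_add_distrib]

theorem pl_add_left (y x x' z : Fin 3 → k) :
    pl t y (x + x') z = pl t y x z + pl t y x' z := by
  simp only [pl, pp, Pi.add_apply, mul_add, add_mul, Finset.sum_add_distrib]

theorem pl_smul_right (c : k) (y x x' : Fin 3 → k) :
    pl t y x (c • x') = c * pl t y x x' := by
  simp only [pl, pp, Pi.smul_apply, smul_eq_mul, Finset.mul_sum]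
  refine Finset.sum_congr rfl fun a _ => Finset.sum_congr rfl fun b _ =>
    Finset.sum_congr rfl fun c _ => Finset.sum_congr rfl fun d _ => ?_
  ring

theorem pl_smul_left (c : k) (y x x' : Fin 3 → k) :
    pl t y (c • x) x' = c * pl t y x x' := by
  simp only [pl, pp, Pi.smul_apply, smul_eq_mul, Finset.mul_sum]
  refine Finset.sum_congr rfl fun a _ => Finset.sum_congr rfl fun b _ =>
    Finset.sum_congr rfl fun c _ => Finset.sum_congr rfl fun d _ => ?_
  ring

theorem fm_add (hs : Sy t) (x u y : Fin 3 → k) :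
    fm t (x + u) y = fm t x y + 2 * pl t y x u + fm t u y := by
  rw [← pl_self, pl_add_left, pl_add_right, pl_add_right, pl_symm hs y u x, pl_self, pl_self]
  ring

theorem fm_smul (c : k) (x y : Fin 3 → k) : fm t (c • x) y = c ^ 2 * fm t x y := by
  rw [← pl_self, pl_smul_left, pl_smul_right, pl_self]; ring

/-- the reflected point -/
theorem fm_ref (hs : Sy t) {x y : Fin 3 → k} (h : fm t x y = 0)
    (u : Fin 3 → k) (c : k) :
    fm t (c • (fm t u y • x + (-(2 * pl t y x u)) • u)) y = 0 := by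
  rw [fm_smul, fm_add hs, fm_smul, fm_smul, h, pl_smul_left, pl_smul_right]
  ring

theorem exP (h2 : (2 : k) ≠ 0) (hs : Sy t) {x y : Fin 3 → k}
    (h : fm t x y = 0) (hu : ∃ u, pl t y x u ≠ 0) :
    ∃ u, fm t u y = 0 ∧ pl t y x u ≠ 0 := by
  obtain ⟨u, hu⟩ := hu
  refine ⟨_, fm_ref hs h u 1, ?_⟩
  rw [one_smul, pl_add_right, pl_smul_right, pl_smul_right, pl_self, h, mul_zero, zero_add]
  exact mul_ne_zero (neg_ne_zero.2 (mul_ne_zero h2 hu)) hu

theorem pl_single (y x z : Fin 3 → k) :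
    pl t y x z = ∑ i, pl t y x (Pi.single i 1) * z i := by
  have : z = ∑ i, z i • (Pi.single i 1 : Fin 3 → k) := by
    funext j
    simp [Finset.sum_apply, Pi.single_apply]
  conv_lhs => rw [this]
  simp only [Fin.sum_univ_three, pl_add_right, pl_smul_right]
  ring

end alg

section red

variable {L k : Type} [NontriviallyNormedField L] [IsUltrametricDist L] [Field k] {π : L → k}
  {t : Tn L}

theorem pp_le (hm : ∀ a b c d, ‖t a b c d‖ ≤ 1) {x x' y y' : Fin 3 → L} (hx : ∀ i, ‖x i‖ ≤ 1)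
    (hx' : ∀ i, ‖x' i‖ ≤ 1) (hy : ∀ i, ‖y i‖ ≤ 1) (hy' : ∀ i, ‖y' i‖ ≤ 1) :
    ‖pp t x x' y y'‖ ≤ 1 :=
  DW.sum3_le fun a => DW.sum3_le fun b => DW.sum3_le fun c => DW.sum3_le fun d =>
    DW.mul_le1 (DW.mul_le1 (DW.mul_le1 (DW.mul_le1 (hm _ _ _ _) (hx _)) (hx' _)) (hy _)) (hy' _)

theorem pp_red (h : DW.Res π) (hm : ∀ a b c d, ‖t a b c d‖ ≤ 1) {x x' y y' : Fin 3 → L}
    (hx : ∀ i, ‖x i‖ ≤ 1) (hx' : ∀ i, ‖x' i‖ ≤ 1) (hy : ∀ i, ‖y i‖ ≤ 1)
    (hy' : ∀ i, ‖y' i‖ ≤ 1) :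
    π (pp t x x' y y') = pp (fun a b c d => π (t a b c d)) (fun j => π (x j)) (fun j => π (x' j))
      (fun j => π (y j)) (fun j => π (y' j)) := by
  have m1 : ∀ a b c d, ‖t a b c d * x a‖ ≤ 1 := fun a b c d => DW.mul_le1 (hm _ _ _ _) (hx _)
  have m2 : ∀ a b c d, ‖t a b c d * x a * x' b‖ ≤ 1 := fun a b c d =>
    DW.mul_le1 (m1 _ _ _ _) (hx' _)
  have m3 : ∀ a b c d, ‖t a b c d * x a * x' b * y c‖ ≤ 1 := fun a b c d =>
    DW.mul_le1 (m2 _ _ _ _) (hy _)
  have m4 : ∀ a b c d, ‖t a b c d * x a * x' b * y c * y' d‖ ≤ 1 := fun a b c d =>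
    DW.mul_le1 (m3 _ _ _ _) (hy' _)
  unfold pp
  rw [h.sum3 fun a => DW.sum3_le fun b => DW.sum3_le fun c => DW.sum3_le fun d => m4 _ _ _ _]
  refine Finset.sum_congr rfl fun a _ => ?_
  rw [h.sum3 fun b => DW.sum3_le fun c => DW.sum3_le fun d => m4 _ _ _ _]
  refine Finset.sum_congr rfl fun b _ => ?_
  rw [h.sum3 fun c => DW.sum3_le fun d => m4 _ _ _ _]
  refine Finset.sum_congr rfl fun c _ => ?_
  rw [h.sum3 fun d => m4 _ _ _ _]
  refine Finset.sum_congr rfl fun d _ => ?_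
  rw [h.mul _ _ (m3 _ _ _ _) (hy' _), h.mul _ _ (m2 _ _ _ _) (hy _),
    h.mul _ _ (m1 _ _ _ _) (hx' _), h.mul _ _ (hm _ _ _ _) (hx _)]

theorem pl_le (hm : ∀ a b c d, ‖t a b c d‖ ≤ 1) {y x x' : Fin 3 → L}
    (hy : ∀ i, ‖y i‖ ≤ 1) (hx : ∀ i, ‖x i‖ ≤ 1) (hx' : ∀ i, ‖x' i‖ ≤ 1) :
    ‖pl t y x x'‖ ≤ 1 := pp_le hm hx hx' hy hy

theorem pl_red (h : DW.Res π) (hm : ∀ a b c d, ‖t a b c d‖ ≤ 1)
    {y x x' : Fin 3 → L} (hy : ∀ i, ‖y i‖ ≤ 1) (hx : ∀ i, ‖x i‖ ≤ 1) (hx' : ∀ i, ‖x' i‖ ≤ 1) :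
    π (pl t y x x') = pl (fun a b c d => π (t a b c d))
      (fun j => π (y j)) (fun j => π (x j)) (fun j => π (x' j)) := pp_red h hm hx hx' hy hy

theorem fm_red (h : DW.Res π) (hm : ∀ a b c d, ‖t a b c d‖ ≤ 1)
    {x y : Fin 3 → L} (hx : ∀ i, ‖x i‖ ≤ 1) (hy : ∀ i, ‖y i‖ ≤ 1) :
    π (fm t x y) = fm (fun a b c d => π (t a b c d))
      (fun j => π (x j)) (fun j => π (y j)) := pl_red h hm hy hx hx

theorem liftX (h : DW.Res π) (h2 : (2 : k) ≠ 0) (hs : Sy t)
    (hm : ∀ a b c d, ‖t a b c d‖ ≤ 1) {x y : Fin 3 → L}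
    (hx : ∀ i, ‖x i‖ ≤ 1) (hy : ∀ i, ‖y i‖ ≤ 1) (hF : fm t x y = 0) (z : Fin 3 → k)
    (hz : fm (fun a b c d => π (t a b c d)) z (fun j => π (y j)) = 0)
    (hb : pl (fun a b c d => π (t a b c d)) (fun j => π (y j)) (fun j => π (x j)) z ≠ 0) :
    ∃ x' : Fin 3 → L, (∀ i, ‖x' i‖ ≤ 1) ∧ (∀ i, π (x' i) = z i) ∧ fm t x' y = 0 ∧
      pl t y x x' ≠ 0 := by
  choose u hu huz using fun i => h.surj (z i)
  have hzu : (fun j => π (u j)) = z := funext huz
  have e1 : π (pl t y x u) ≠ 0 := by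
    rw [pl_red h hm hy hx hu, hzu]
    exact hb
  have e2 : π (fm t u y) = 0 := by
    rw [fm_red h hm hu hy, hzu]
    exact hz
  have l1 := pl_le hm hy hx hu
  have l2 : ‖fm t u y‖ ≤ 1 := pl_le hm hy hu hu
  have n1 : ‖pl t y x u‖ = 1 := RK.norm_one_of h l1 e1
  have h2L : ‖(2 : L)‖ = 1 := h.norm_two h2
  have hp0 : pl t y x u ≠ 0 := by
    intro h0
    rw [h0, norm_zero] at n1
    exact zero_ne_one n1
  set c : L := -(2 * pl t y x u) with hc
  have hcn : ‖c‖ = 1 := by rw [hc, norm_neg, norm_mul, h2L, n1, mul_one]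
  have hc0 : c ≠ 0 := by
    intro h0
    rw [h0, norm_zero] at hcn
    exact zero_ne_one hcn
  have key : ∀ i, (c⁻¹ • (fm t u y • x + c • u)) i = fm t u y * x i / c + u i := by
    intro i
    simp only [Pi.smul_apply, Pi.add_apply, smul_eq_mul]
    field_simp
  have hsm : ∀ i, ‖fm t u y * x i / c‖ < 1 := by
    intro i
    rw [norm_div, hcn, div_one, norm_mul]
    have hlt : ‖fm t u y‖ < 1 := (h.ker _ l2).1 e2
    calc ‖fm t u y‖ * ‖x i‖ ≤ ‖fm t u y‖ * 1 := by
          exact mul_le_mul_of_nonneg_left (hx i) (norm_nonneg _)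
      _ < 1 := by rw [mul_one]; exact hlt
  refine ⟨c⁻¹ • (fm t u y • x + c • u), ?_, ?_, fm_ref hs hF u c⁻¹, ?_⟩
  · intro i
    rw [key i]
    exact (IsUltrametricDist.norm_add_le_max _ _).trans (max_le (hsm i).le (hu i))
  · intro i
    rw [key i, h.add _ _ (hsm i).le (hu i), (h.ker _ (hsm i).le).2 (hsm i), zero_add, huz i]
  · rw [pl_smul_right, pl_add_right, pl_smul_right, pl_smul_right, pl_self, hF, mul_zero, zero_add]
    exact mul_ne_zero (inv_ne_zero hc0) (mul_ne_zero hc0 hp0)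

/-- the three quadratic forms -/
def m3 (t : Tn L) (X x : Fin 3 → L) (j : Fin 3) : Fin 3 → Fin 3 → Fin 3 → L := fun i a b =>
  if i = 0 then dm (tr t) X a b else if i = 1 then dm (tr t) x a b else
    if a = j ∧ b = j then 1 else 0

theorem dm_le (hm : ∀ a b c d, ‖t a b c d‖ ≤ 1) {y : Fin 3 → L}
    (hy : ∀ i, ‖y i‖ ≤ 1) (a b : Fin 3) : ‖dm t y a b‖ ≤ 1 := by
  change ‖∑ c, ∑ d, t a b c d * y c * y d‖ ≤ 1
  exact DW.sum3_le fun c => DW.sum3_le fun d =>
    DW.mul_le1 (DW.mul_le1 (hm _ _ _ _) (hy _)) (hy _)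

omit [IsUltrametricDist L] in
theorem dm_fm (X Y : Fin 3 → L) : ∑ a, ∑ b, dm (tr t) X a b * Y a * Y b = fm t X Y := by
  rw [← fm_swap]
  simp only [fm, pp, dm, Matrix.of_apply, Finset.sum_mul]
  refine Finset.sum_congr rfl fun a _ => Finset.sum_congr rfl fun b _ =>
    Finset.sum_congr rfl fun c _ => Finset.sum_congr rfl fun d _ => ?_
  ring

omit [IsUltrametricDist L] in
theorem dm_pl (X Y : Fin 3 → L) (b : Fin 3) :
    ∑ a, dm (tr t) X a b * Y a = pl (tr t) X Y (Pi.single b 1) := by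
  simp only [pl, pp, dm, Matrix.of_apply, Finset.sum_mul]
  refine Finset.sum_congr rfl fun a _ => ?_
  symm
  rw [Finset.sum_eq_single b]
  · refine Finset.sum_congr rfl fun c _ => Finset.sum_congr rfl fun d _ => ?_
    rw [Pi.single_eq_same]; ring
  · intro c _ hc
    refine Finset.sum_eq_zero fun d _ => Finset.sum_eq_zero fun e _ => ?_
    rw [Pi.single_eq_of_ne hc]; ring
  · intro hb
    exact absurd (Finset.mem_univ b) hb

end red

end LC

open LC in
theorem lc (hT : StmTR) : StmLC := by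
  obtain ⟨q₀, hT⟩ := hT
  refine ⟨q₀, ?_⟩
  intro L k _ _ _ _ _ π h hq h2 t hs hm x y x' y' hx hy hx' hy' hx0 exx eyy hF hF' hD hJ hU
  set t' : Tn k := fun a b c d => π (t a b c d) with ht'
  set z : Fin 3 → k := fun i => π (x i) with hz
  set w : Fin 3 → k := fun i => π (y i) with hw
  have ez : (fun i => π (x' i)) = z := funext fun i => (exx i).symm
  have ew : (fun i => π (y' i)) = w := funext fun i => (eyy i).symm
  have h2L : ‖(2 : L)‖ = 1 := h.norm_two h2
  have hs' : Sy t' := ⟨fun a b c d => by simp only [ht']; rw [hs.1],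
    fun a b c d => by simp only [ht']; rw [hs.2]⟩
  have hsr : Sy (tr t) := Sy.tr hs
  have hsr' : Sy (tr t') := Sy.tr hs'
  have hmr : ∀ a b c d, ‖tr t a b c d‖ ≤ 1 := fun a b c d => hm c d a b
  have z0 : z ≠ 0 := fun h0 => by
    obtain ⟨i, hi⟩ := hx0
    exact hi (congrFun h0 i)
  have Fzw : fm t' z w = 0 := by
    rw [hz, hw, ht', ← fm_red h hm hx hy, hF, h.zero]
  -- Step 1
  obtain ⟨x₁, hx₁F, hx₁b, hx₁p⟩ := hT k t' hq h2 hs' z w z0 Fzw hD hJ hU
  -- Step 2
  obtain ⟨X₁, iX₁, rX₁, FX₁, bX₁⟩ := liftX h h2 hs hm hx hy hF x₁ hx₁F hx₁b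
  have eX₁ : (fun i => π (X₁ i)) = x₁ := funext rX₁
  -- Step 3
  have u₁ : ∃ u, pl (tr t') x₁ w u ≠ 0 := by
    obtain ⟨i, j, hij⟩ := hx₁p
    by_contra hc
    push Not at hc
    exact hij (by rw [hc, hc, zero_mul, zero_mul])
  obtain ⟨ζ, hζF, hζa⟩ := exP (t := tr t') h2 hsr'
    (x := w) (y := x₁) (by rw [fm_swap]; exact hx₁F) u₁
  obtain ⟨Z, iZ, rZ, FZ, aZ⟩ := liftX (t := tr t) h h2 hsr hmr hy iX₁
    (by rw [fm_swap]; exact FX₁) ζ
    (by rw [eX₁]; exact hζF) (by rw [eX₁]; exact hζa)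
  have eZ : (fun i => π (Z i)) = ζ := funext rZ
  -- Step 4
  have w0 : ∃ j, w j ≠ 0 := by
    by_contra hc
    push Not at hc
    apply hD
    have : dm t' w = 0 := by
      ext a b
      simp [dm, hc]
    rw [this]
    exact Matrix.det_zero
  obtain ⟨j, hj⟩ := w0
  have o1 : ∑ i, pl (tr t') x₁ w (Pi.single i 1) * w i = 0 := by
    rw [← pl_single, pl_self, fm_swap]; exact hx₁F
  have o2 : ∑ i, pl (tr t') z w (Pi.single i 1) * w i = 0 := by
    rw [← pl_single, pl_self, fm_swap]; exact Fzw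
  obtain ⟨lam, hlam⟩ := RK.LC.cross2 (u := fun i => pl (tr t') x₁ w (Pi.single i 1))
    (v := fun i => pl (tr t') z w (Pi.single i 1)) (t := w) (by
      obtain ⟨i, j, hij⟩ := hx₁p
      intro hc
      exact hij (hc i j)) o1 o2
  have hcj : RK.LC.cr (fun i => pl (tr t') x₁ w (Pi.single i 1))
      (fun i => pl (tr t') z w (Pi.single i 1)) j ≠ 0 := by
    intro h0
    apply hj
    rw [hlam j, h0, mul_zero]
  have iM : ∀ i a b, ‖m3 t X₁ x' j i a b‖ ≤ 1 := by
    intro i a b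
    unfold m3
    split_ifs
    · exact dm_le hmr iX₁ a b
    · exact dm_le hmr hx' a b
    · rw [norm_one]
    · rw [norm_zero]; exact zero_le_one
  have sM : ∀ i a b, m3 t X₁ x' j i a b = m3 t X₁ x' j i b a := by
    intro i a b
    have : ∀ X : Fin 3 → L, dm (tr t) X a b = dm (tr t) X b a := by
      intro X
      simp only [dm, Matrix.of_apply]
      refine Finset.sum_congr rfl fun c _ => Finset.sum_congr rfl fun d _ => ?_
      rw [hsr.1 a b c d]
    unfold m3
    rw [this X₁, this x']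
    simp only [and_comm]
  have jM : ∀ i b, RK.jm (m3 t X₁ x' j) y i b =
      if i = 0 then pl (tr t) X₁ y (Pi.single b 1) else
        if i = 1 then pl (tr t) x' y (Pi.single b 1) else if b = j then y j else 0 := by
    intro i b
    simp only [RK.jm, Matrix.of_apply, m3]
    split_ifs with h0 h1 h3
    · exact dm_pl X₁ y b
    · exact dm_pl x' y b
    · subst h3
      simp
    · simp [h3]
  have sl : ∀ b : Fin 3, ∀ i, ‖(Pi.single b 1 : Fin 3 → L) i‖ ≤ 1 := by
    intro b i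
    rw [Pi.single_apply]
    split_ifs
    · rw [norm_one]
    · rw [norm_zero]; exact zero_le_one
  have sr : ∀ b : Fin 3, (fun i => π ((Pi.single b 1 : Fin 3 → L) i)) = Pi.single b 1 := by
    intro b
    funext i
    rw [Pi.single_apply, Pi.single_apply]
    split_ifs
    · exact h.one
    · exact h.zero
  have iJ : ∀ i b, ‖RK.jm (m3 t X₁ x' j) y i b‖ ≤ 1 := by
    intro i b
    rw [jM]
    split_ifs
    · exact pl_le hmr iX₁ hy (sl b)
    · exact pl_le hmr hx' hy (sl b)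
    · exact hy j
    · rw [norm_zero]; exact zero_le_one
  have rJ : ∀ i b, π (RK.jm (m3 t X₁ x' j) y i b) =
      if i = 0 then pl (tr t') x₁ w (Pi.single b 1) else
        if i = 1 then pl (tr t') z w (Pi.single b 1) else if b = j then w j else 0 := by
    intro i b
    rw [jM]
    split_ifs
    · rw [pl_red h hmr iX₁ hy (sl b), eX₁, sr b]; rfl
    · rw [pl_red h hmr hx' hy (sl b), ez, sr b]; rfl
    · rfl
    · exact h.zero
  obtain ⟨dJ, rdJ⟩ := RK.LC.det_red h _ iJ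
  have uJ : ‖(RK.jm (m3 t X₁ x' j) y).det‖ = 1 := by
    refine RK.norm_one_of h dJ ?_
    rw [rdJ]
    simp only [rJ]
    have : (Matrix.of fun i b : Fin 3 => if i = 0 then pl (tr t') x₁ w (Pi.single b 1) else
        if i = 1 then pl (tr t') z w (Pi.single b 1) else if b = j then w j else 0).det =
        w j * RK.LC.cr (fun i => pl (tr t') x₁ w (Pi.single i 1))
          (fun i => pl (tr t') z w (Pi.single i 1)) j := by
      rw [Matrix.det_fin_three]
      simp only [Matrix.of_apply, RK.LC.cr]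
      fin_cases j <;> simp <;> ring
    rw [this]
    exact mul_ne_zero hj hcj
  obtain ⟨Y, hY1, hY2⟩ := RK.hen L (m3 t X₁ x' j) h2L sM iM y ![0, 0, y j ^ 2] hy uJ (by
    intro i
    have b0 : ∀ i, RK.bq (m3 t X₁ x' j) y y i = if i = 0 then fm t X₁ y else
        if i = 1 then fm t x' y else y j ^ 2 := by
      intro i
      simp only [RK.bq, m3]
      split_ifs
      · exact dm_fm X₁ y
      · exact dm_fm x' y
      · rw [Finset.sum_eq_single j, Finset.sum_eq_single j]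
        · simp; ring
        · intro b _ hb
          simp [hb]
        · intro hb; exact absurd (Finset.mem_univ j) hb
        · intro b _ hb
          refine Finset.sum_eq_zero fun e _ => ?_
          simp [hb]
        · intro hb; exact absurd (Finset.mem_univ j) hb
    rw [b0 i]
    fin_cases i
    · simp [FX₁]
    · simp only [Fin.mk_one, Fin.isValue, one_ne_zero, ↓reduceIte, Matrix.cons_val_one,
        Matrix.cons_val_zero, sub_zero]
      refine (h.ker _ (pl_le hm hy hx' hx')).1 ?_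
      rw [pl_red h hm hy hx' hx', ez]
      exact Fzw
    · simp)
  have iY : ∀ i, ‖Y i‖ ≤ 1 := by
    intro i
    have : Y i = (Y i - y i) + y i := by ring
    rw [this]
    exact (IsUltrametricDist.norm_add_le_max _ _).trans (max_le (hY1 i).le (hy i))
  have eY : (fun i => π (Y i)) = w := by
    funext i
    have : Y i = (Y i - y i) + y i := by ring
    rw [this, h.add _ _ (hY1 i).le (hy i), (h.ker _ (hY1 i).le).2 (hY1 i), zero_add]
  have F1 : fm t X₁ Y = 0 := by
    have := hY2 0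
    rw [← dm_fm]
    simpa [RK.bq, m3] using this
  have F2 : fm t x' Y = 0 := by
    have := hY2 1
    rw [← dm_fm]
    simpa [RK.bq, m3] using this
  -- Step 5
  obtain ⟨ξ, hξF, hξa⟩ := exP (t := tr t') h2 hsr'
    (x := w) (y := z) (by rw [fm_swap]; exact Fzw) hU
  obtain ⟨Ξ, iΞ, rΞ, FΞ, aΞ⟩ := liftX (t := tr t) h h2 hsr hmr iY hx'
    (by rw [fm_swap]; exact F2) ξ
    (by rw [ez]; exact hξF) (by rw [ez, eY]; exact hξa)
  have eΞ : (fun i => π (Ξ i)) = ξ := funext rΞ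
  refine ⟨(X₁, y), FX₁, ?_, (X₁, Z), by rw [fm_swap] at FZ; exact FZ, ?_, (X₁, Y), F1, ?_,
    (x', Y), F2, ?_, (x', Ξ), by rw [fm_swap] at FΞ; exact FΞ, ?_, (x', y'), hF', ?_, rfl⟩
  · simp only [St, ↓reduceIte]
    exact ⟨trivial, bX₁⟩
  · simp only [St, Bool.false_eq_true, ↓reduceIte]
    exact ⟨trivial, aZ⟩
  · simp only [St, Bool.false_eq_true, ↓reduceIte]
    refine ⟨trivial, fun h0 => ?_⟩
    have := pl_red (t := tr t) h hmr iX₁ iZ iY
    rw [h0, h.zero, eX₁, eZ, eY] at this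
    apply hζa
    rw [pl_symm hsr']
    exact this.symm
  · simp only [St, ↓reduceIte]
    refine ⟨trivial, fun h0 => ?_⟩
    have := pl_red h hm iY iX₁ hx'
    rw [h0, h.zero, eX₁, ez, eY] at this
    apply hx₁b
    rw [pl_symm hs']
    exact this.symm
  · simp only [St, Bool.false_eq_true, ↓reduceIte]
    exact ⟨trivial, aΞ⟩
  · simp only [St, Bool.false_eq_true, ↓reduceIte]
    refine ⟨trivial, fun h0 => ?_⟩
    have := pl_red (t := tr t) h hmr hx' iΞ hy'
    rw [h0, h.zero, ez, eΞ, ew] at this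
    apply hξa
    rw [pl_symm hsr']
    exact this.symm

end Pool.Agent.T6.H77.VR
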