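import Pool.Agent.T6.H77.VR.Stm

/-!
# Counting on the lines through a point (module LN)
-/

set_option autoImplicit false

namespace Pool.Agent.T6.H77.VR

theorem ln : StmLN := by
  classical
  intro k _ _ B w₀ C h
  obtain ⟨q, hq⟩ : ∃ q, q = Fintype.card k := ⟨_, rfl⟩
  have hq1 : 1 < q := by rw [hq]; exact Fintype.one_lt_card
  obtain ⟨S, hS⟩ : ∃ S : Finset (Fin 3 → k), S = Finset.univ.filter fun w => B w ∧ w ≠ w₀ :=
    ⟨_, rfl⟩
  obtain ⟨U, hU⟩ : ∃ U : Finset k, U = Finset.univ.filter fun l => l ≠ 0 := ⟨_, rfl⟩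
  obtain ⟨V, hV⟩ : ∃ V : Finset (Fin 3 → k), V = Finset.univ.filter fun v => v ≠ 0 := ⟨_, rfl⟩
  obtain ⟨T, hT⟩ : ∃ T : Finset (k × (Fin 3 → k)),
      T = Finset.univ.filter fun p => p.2 ≠ 0 ∧ B (w₀ + p.1 • p.2) := ⟨_, rfl⟩
  have cU : U.card + 1 = q := by
    rw [hU, Finset.filter_ne', Finset.card_erase_of_mem (Finset.mem_univ _), Finset.card_univ, ← hq]
    omega
  have cV : V.card + 1 = q ^ 3 := by
    have h0 : 0 < q ^ 3 := by positivity
    rw [hV, Finset.filter_ne', Finset.card_erase_of_mem (Finset.mem_univ _), Finset.card_univ,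
      Fintype.card_fun, Fintype.card_fin, ← hq]
    omega
  have h1 : T.card ≤ C * V.card := by
    refine Finset.card_le_mul_card_image_of_maps_to (f := Prod.snd) ?_ C ?_
    · intro p hp
      rw [hT, Finset.mem_filter] at hp
      rw [hV, Finset.mem_filter]
      exact ⟨Finset.mem_univ _, hp.2.1⟩
    · intro v _
      refine le_trans ?_ (h v)
      have h2 : {l : k | B (w₀ + l • v)} = ↑(Finset.univ.filter fun l : k => B (w₀ + l • v)) := by
        ext l; simp
      rw [h2, Set.ncard_coe_finset]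
      refine Finset.card_le_card_of_injOn Prod.fst ?_ ?_
      · intro p hp
        rw [Finset.mem_coe, Finset.mem_filter, hT, Finset.mem_filter] at hp
        rw [Finset.mem_coe, Finset.mem_filter]
        refine ⟨Finset.mem_univ _, ?_⟩
        rw [← hp.2]
        exact hp.1.2.2
      · intro p hp p' hp' he
        rw [Finset.mem_coe, Finset.mem_filter] at hp hp'
        exact Prod.ext he (hp.2.trans hp'.2.symm)
  have h2 : (U ×ˢ S).card ≤ T.card := by
    refine Finset.card_le_card_of_injOn (fun p => (p.1, p.1⁻¹ • (p.2 - w₀))) ?_ ?_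
    · intro p hp
      rw [Finset.mem_coe, Finset.mem_product, hU, hS, Finset.mem_filter, Finset.mem_filter] at hp
      obtain ⟨⟨-, hl⟩, -, hB, hne⟩ := hp
      rw [Finset.mem_coe, hT, Finset.mem_filter]
      refine ⟨Finset.mem_univ _, ?_, ?_⟩
      · exact smul_ne_zero (inv_ne_zero hl) (sub_ne_zero.2 hne)
      · change B (w₀ + p.1 • (p.1⁻¹ • (p.2 - w₀)))
        rw [smul_smul, mul_inv_cancel₀ hl, one_smul, add_sub_cancel]
        exact hB
    · intro p hp p' hp' he
      rw [Finset.mem_coe, Finset.mem_product, hU, hS, Finset.mem_filter, Finset.mem_filter]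
        at hp hp'
      rw [Prod.mk.injEq] at he
      obtain ⟨he1, he2⟩ := he
      rw [he1] at he2
      have h3 := smul_right_injective _ (inv_ne_zero hp'.1.2) he2
      exact Prod.ext he1 (sub_left_injective h3)
  rw [Finset.card_product] at h2
  obtain ⟨r, hr⟩ : ∃ r, q = r + 1 := ⟨q - 1, by omega⟩
  have hr0 : 0 < r := by omega
  have cU' : U.card = r := by omega
  have cV' : V.card = r * (r ^ 2 + 3 * r + 3) := by
    have h3 : (r + 1) ^ 3 = r * (r ^ 2 + 3 * r + 3) + 1 := by ring
    rw [hr, h3] at cV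
    omega
  have h3 : r * S.card ≤ r * (C * (r ^ 2 + 3 * r + 3)) := by
    calc r * S.card ≤ T.card := by rw [← cU']; exact h2
      _ ≤ C * V.card := h1
      _ = r * (C * (r ^ 2 + 3 * r + 3)) := by rw [cV']; ring
  have h4 : S.card ≤ C * (r ^ 2 + 3 * r + 3) := Nat.le_of_mul_le_mul_left h3 hr0
  have h5 : {w | B w}.ncard ≤ S.card + 1 := by
    have h6 : {w | B w} ⊆ ↑(insert w₀ S) := by
      intro w hw
      rw [Finset.coe_insert]
      by_cases hww : w = w₀
      · exact Or.inl hww
      · refine Or.inr ?_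
        rw [Finset.mem_coe, hS, Finset.mem_filter]
        exact ⟨Finset.mem_univ _, hw, hww⟩
    refine (Set.ncard_le_ncard h6 (Finset.finite_toSet _)).trans ?_
    rw [Set.ncard_coe_finset]
    exact Finset.card_insert_le _ _
  refine h5.trans (Nat.add_le_add_right (h4.trans ?_) 1)
  rw [← hq, hr]
  calc C * (r ^ 2 + 3 * r + 3) ≤ C * (3 * (r + 1) ^ 2) := by
        apply Nat.mul_le_mul_left
        nlinarith
    _ = 3 * C * (r + 1) ^ 2 := by ring

end Pool.Agent.T6.H77.VR
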