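import Pool.Agent.T6.H77.VR.Stm
import Pool.Agent.T6.H77.DW.LINK
import Pool.Agent.T6.H77.DW.LIFT

/-!
# Hypersurfaces of bidegree (2, 2): moves and reductions (helper79, after helper77)
-/

set_option autoImplicit false

namespace Pool.Agent.T6.H77.VR

namespace RED

section alg

variable {k : Type} [Field k] {t : Tn k}

theorem padd1 (x z x' y y' : Fin 3 → k) :
    pp t (x + z) x' y y' = pp t x x' y y' + pp t z x' y y' := by
  simp only [pp, Pi.add_apply, ← Finset.sum_add_distrib]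
  refine Finset.sum_congr rfl fun a _ => Finset.sum_congr rfl fun b _ =>
    Finset.sum_congr rfl fun c _ => Finset.sum_congr rfl fun d _ => by ring

theorem padd2 (x z x' y y' : Fin 3 → k) :
    pp t x (x' + z) y y' = pp t x x' y y' + pp t x z y y' := by
  simp only [pp, Pi.add_apply, ← Finset.sum_add_distrib]
  refine Finset.sum_congr rfl fun a _ => Finset.sum_congr rfl fun b _ =>
    Finset.sum_congr rfl fun c _ => Finset.sum_congr rfl fun d _ => by ring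

theorem psm (p q r s : k) (x x' y y' : Fin 3 → k) :
    pp t (p • x) (q • x') (r • y) (s • y') = p * q * r * s * pp t x x' y y' := by
  simp only [pp, Pi.smul_apply, smul_eq_mul, Finset.mul_sum]
  refine Finset.sum_congr rfl fun a _ => Finset.sum_congr rfl fun b _ =>
    Finset.sum_congr rfl fun c _ => Finset.sum_congr rfl fun d _ => by ring

theorem psm1 (p : k) (x x' y y' : Fin 3 → k) :
    pp t (p • x) x' y y' = p * pp t x x' y y' := by
  have := psm (t := t) p 1 1 1 x x' y y'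
  simpa using this

theorem psm2 (p : k) (x x' y y' : Fin 3 → k) :
    pp t x (p • x') y y' = p * pp t x x' y y' := by
  have := psm (t := t) 1 p 1 1 x x' y y'
  simpa using this

theorem psym1 (hs : Sy t) (x x' y y' : Fin 3 → k) : pp t x x' y y' = pp t x' x y y' := by
  unfold pp
  rw [Finset.sum_comm]
  refine Finset.sum_congr rfl fun a _ => Finset.sum_congr rfl fun b _ =>
    Finset.sum_congr rfl fun c _ => Finset.sum_congr rfl fun d _ => ?_
  rw [hs.1 b a]; ring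

theorem sum4 (f : Fin 3 → Fin 3 → Fin 3 → Fin 3 → k) :
    ∑ a, ∑ b, ∑ c, ∑ d, f c d a b = ∑ a, ∑ b, ∑ c, ∑ d, f a b c d := by
  calc ∑ a, ∑ b, ∑ c, ∑ d, f c d a b = ∑ a, ∑ c, ∑ b, ∑ d, f c d a b :=
        Finset.sum_congr rfl fun a _ => Finset.sum_comm
    _ = ∑ c, ∑ a, ∑ b, ∑ d, f c d a b := Finset.sum_comm
    _ = ∑ c, ∑ a, ∑ d, ∑ b, f c d a b :=
        Finset.sum_congr rfl fun c _ => Finset.sum_congr rfl fun a _ => Finset.sum_comm
    _ = ∑ c, ∑ d, ∑ a, ∑ b, f c d a b := Finset.sum_congr rfl fun c _ => Finset.sum_comm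

theorem ptr (x x' y y' : Fin 3 → k) : pp (tr t) y y' x x' = pp t x x' y y' := by
  unfold pp tr
  rw [← sum4]
  refine Finset.sum_congr rfl fun a _ => Finset.sum_congr rfl fun b _ =>
    Finset.sum_congr rfl fun c _ => Finset.sum_congr rfl fun d _ => by ring

theorem ftr (x y : Fin 3 → k) : fm (tr t) y x = fm t x y := ptr x x y y

theorem sytr (hs : Sy t) : Sy (tr t) :=
  ⟨fun a b c d => hs.2 c d a b, fun a b c d => hs.1 c d a b⟩

theorem plsym (hs : Sy t) (y x x' : Fin 3 → k) : pl t y x x' = pl t y x' x := psym1 hs _ _ _ _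

theorem fsm (b c : k) (x y : Fin 3 → k) :
    fm t (b • x) (c • y) = (b * c) ^ 2 * fm t x y := by
  unfold fm
  rw [psm]; ring

theorem plsm (b b' c : k) (y x x' : Fin 3 → k) :
    pl t (c • y) (b • x) (b' • x') = b * b' * c ^ 2 * pl t y x x' := by
  unfold pl
  rw [psm]; ring

theorem fadd (hs : Sy t) (x u y : Fin 3 → k) :
    fm t (x + u) y = fm t x y + 2 * pl t y x u + fm t u y := by
  unfold fm pl
  rw [padd1, padd2, padd2, psym1 hs u x]; ring

/-- the reflected point -/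
theorem fref (hs : Sy t) {x y : Fin 3 → k} (h : fm t x y = 0) (u : Fin 3 → k) (c : k) :
    fm t (c • (fm t u y • x + (-(2 * pl t y x u)) • u)) y = 0 := by
  have h2 : ∀ (d : k) (z : Fin 3 → k), fm t (d • z) y = d ^ 2 * fm t z y := by
    intro d z
    have := fsm (t := t) d 1 z y
    rw [one_smul] at this
    rw [this]; ring
  rw [h2, fadd hs, h2, h2, h]
  unfold pl
  rw [psm1, psm2]
  ring

end alg

end RED

section alg

variable {k : Type} [Field k] {t : Tn k}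

theorem St.smul {b' : Bool} {p q : (Fin 3 → k) × (Fin 3 → k)} (h : St t b' p q) {b c d : k}
    (hb : b ≠ 0) (hc : c ≠ 0) (hd : d ≠ 0) :
    St t b' (b • p.1, c • p.2) (if b' then (d • q.1, c • q.2) else (b • q.1, d • q.2)) := by
  cases b'
  · simp only [St, Bool.false_eq_true, ↓reduceIte] at h ⊢
    refine ⟨by rw [h.1], ?_⟩
    rw [RED.plsm]
    exact mul_ne_zero (mul_ne_zero (mul_ne_zero hc hd) (pow_ne_zero _ hb)) h.2
  · simp only [St, ↓reduceIte] at h ⊢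
    refine ⟨by rw [h.1], ?_⟩
    rw [RED.plsm]
    exact mul_ne_zero (mul_ne_zero (mul_ne_zero hb hd) (pow_ne_zero _ hc)) h.2

theorem St.symm (hs : Sy t) {b : Bool}
    {p q : (Fin 3 → k) × (Fin 3 → k)} (h : St t b p q) : St t b q p := by
  cases b
  · simp only [St, Bool.false_eq_true, ↓reduceIte] at h ⊢
    exact ⟨h.1.symm, by rw [← h.1, RED.plsym (RED.sytr hs)]; exact h.2⟩
  · simp only [St, ↓reduceIte] at h ⊢
    exact ⟨h.1.symm, by rw [← h.1, RED.plsym hs]; exact h.2⟩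

theorem Wd.append {w w' : List Bool} {p q r : (Fin 3 → k) × (Fin 3 → k)} (h : Wd t w p q)
    (h' : Wd t w' q r) : Wd t (w ++ w') p r := by
  induction w generalizing p with
  | nil =>
    change p = q at h
    rw [h]
    exact h'
  | cons b w ih =>
    obtain ⟨s, hs, hst, hw⟩ := h
    exact ⟨s, hs, hst, ih hw⟩

theorem Wd.fm0 {w : List Bool} {p q : (Fin 3 → k) × (Fin 3 → k)} (h : Wd t w p q)
    (hp : fm t p.1 p.2 = 0) : fm t q.1 q.2 = 0 := by
  induction w generalizing p with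
  | nil =>
    change p = q at h
    rw [← h]
    exact hp
  | cons b w ih =>
    obtain ⟨s, hs, hst, hw⟩ := h
    exact ih hw hs

theorem Wd.rev (hy : Sy t)
    {w : List Bool} {p q : (Fin 3 → k) × (Fin 3 → k)} (h : Wd t w p q)
    (hp : fm t p.1 p.2 = 0) : Wd t w.reverse q p := by
  induction w generalizing p with
  | nil =>
    change p = q at h
    change q = p
    exact h.symm
  | cons b w ih =>
    obtain ⟨s, hs, hst, hw⟩ := h
    rw [List.reverse_cons]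
    exact (ih hw hs).append ⟨p, hp, hst.symm hy, rfl⟩

theorem Wd.scale {w : List Bool} {p q : (Fin 3 → k) × (Fin 3 → k)} (h : Wd t w p q)
    (b c b' c' : k) (hb : b ≠ 0) (hc : c ≠ 0) (hb' : b' ≠ 0) (hc' : c' ≠ 0)
    (h1 : true ∈ w ∨ b = b') (h2 : false ∈ w ∨ c = c') :
    Wd t w (b • p.1, c • p.2) (b' • q.1, c' • q.2) := by
  induction w generalizing p b c with
  | nil =>
    change p = q at h
    have e1 : b = b' := h1.resolve_left (by simp)
    have e2 : c = c' := h2.resolve_left (by simp)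
    rw [h, e1, e2]
    rfl
  | cons e w ih =>
    obtain ⟨s, hs, hst, hw⟩ := h
    cases e
    · refine ⟨(b • s.1, c' • s.2), ?_, ?_, ?_⟩
      · rw [RED.fsm, hs, mul_zero]
      · have := hst.smul hb hc hc'
        simpa using this
      · exact ih hw b c' hb hc' (by simpa using h1) (Or.inr rfl)
    · refine ⟨(b' • s.1, c • s.2), ?_, ?_, ?_⟩
      · rw [RED.fsm, hs, mul_zero]
      · have := hst.smul hb hc hb'
        simpa using this
      · exact ih hw b' c hb' hc (Or.inr rfl) (by simpa using h2)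

end alg

/-! ### reductions -/

section red

variable {L k : Type} [NontriviallyNormedField L] [IsUltrametricDist L] [Field k] {π : L → k}
  {t : Tn L}

theorem pp_le (ht : ∀ a b c d, ‖t a b c d‖ ≤ 1) {x x' y y' : Fin 3 → L} (hx : ∀ i, ‖x i‖ ≤ 1)
    (hx' : ∀ i, ‖x' i‖ ≤ 1) (hy : ∀ i, ‖y i‖ ≤ 1) (hy' : ∀ i, ‖y' i‖ ≤ 1) :
    ‖pp t x x' y y'‖ ≤ 1 :=
  DW.sum3_le fun a => DW.sum3_le fun b => DW.sum3_le fun c => DW.sum3_le fun d =>
    DW.mul_le1 (DW.mul_le1 (DW.mul_le1 (DW.mul_le1 (ht a b c d) (hx a)) (hx' b)) (hy c)) (hy' d)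

theorem pp_red (h : DW.Res π) (ht : ∀ a b c d, ‖t a b c d‖ ≤ 1) {x x' y y' : Fin 3 → L}
    (hx : ∀ i, ‖x i‖ ≤ 1) (hx' : ∀ i, ‖x' i‖ ≤ 1) (hy : ∀ i, ‖y i‖ ≤ 1)
    (hy' : ∀ i, ‖y' i‖ ≤ 1) :
    π (pp t x x' y y') = pp (fun a b c d => π (t a b c d)) (fun i => π (x i))
      (fun i => π (x' i)) (fun i => π (y i)) (fun i => π (y' i)) := by
  have l1 : ∀ a b c d, ‖t a b c d * x a‖ ≤ 1 := fun a b c d => DW.mul_le1 (ht a b c d) (hx a)
  have l2 : ∀ a b c d, ‖t a b c d * x a * x' b‖ ≤ 1 := fun a b c d =>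
    DW.mul_le1 (l1 a b c d) (hx' b)
  have l3 : ∀ a b c d, ‖t a b c d * x a * x' b * y c‖ ≤ 1 := fun a b c d =>
    DW.mul_le1 (l2 a b c d) (hy c)
  have l4 : ∀ a b c d, ‖t a b c d * x a * x' b * y c * y' d‖ ≤ 1 := fun a b c d =>
    DW.mul_le1 (l3 a b c d) (hy' d)
  unfold pp
  rw [h.sum3 fun a => DW.sum3_le fun b => DW.sum3_le fun c => DW.sum3_le fun d => l4 a b c d]
  refine Finset.sum_congr rfl fun a _ => ?_
  rw [h.sum3 fun b => DW.sum3_le fun c => DW.sum3_le fun d => l4 a b c d]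
  refine Finset.sum_congr rfl fun b _ => ?_
  rw [h.sum3 fun c => DW.sum3_le fun d => l4 a b c d]
  refine Finset.sum_congr rfl fun c _ => ?_
  rw [h.sum3 fun d => l4 a b c d]
  refine Finset.sum_congr rfl fun d _ => ?_
  rw [h.mul _ _ (l3 a b c d) (hy' d), h.mul _ _ (l2 a b c d) (hy c),
    h.mul _ _ (l1 a b c d) (hx' b), h.mul _ _ (ht a b c d) (hx a)]

theorem pl_le (ht : ∀ a b c d, ‖t a b c d‖ ≤ 1) {y x x' : Fin 3 → L}
    (hy : ∀ i, ‖y i‖ ≤ 1) (hx : ∀ i, ‖x i‖ ≤ 1) (hx' : ∀ i, ‖x' i‖ ≤ 1) :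
    ‖pl t y x x'‖ ≤ 1 := pp_le ht hx hx' hy hy

theorem pl_red (h : DW.Res π) (ht : ∀ a b c d, ‖t a b c d‖ ≤ 1)
    {y x x' : Fin 3 → L} (hy : ∀ i, ‖y i‖ ≤ 1) (hx : ∀ i, ‖x i‖ ≤ 1) (hx' : ∀ i, ‖x' i‖ ≤ 1) :
    π (pl t y x x') = pl (fun a b c d => π (t a b c d))
      (fun j => π (y j)) (fun j => π (x j)) (fun j => π (x' j)) := pp_red h ht hx hx' hy hy

theorem fm_red (h : DW.Res π) (ht : ∀ a b c d, ‖t a b c d‖ ≤ 1)
    {x y : Fin 3 → L} (hx : ∀ i, ‖x i‖ ≤ 1) (hy : ∀ i, ‖y i‖ ≤ 1) :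
    π (fm t x y) = fm (fun a b c d => π (t a b c d))
      (fun j => π (x j)) (fun j => π (y j)) := pp_red h ht hx hx hy hy

/-- integral points with reduction `p` -/
structure Rd (π : L → k) (P : (Fin 3 → L) × (Fin 3 → L)) (p : (Fin 3 → k) × (Fin 3 → k)) :
    Prop where
  h1 : ∀ i, ‖P.1 i‖ ≤ 1
  h2 : ∀ i, ‖P.2 i‖ ≤ 1
  e1 : ∀ i, π (P.1 i) = p.1 i
  e2 : ∀ i, π (P.2 i) = p.2 i

theorem norm_one_of (h : DW.Res π) {x : L} (hx : ‖x‖ ≤ 1) (h0 : π x ≠ 0) : ‖x‖ = 1 :=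
  le_antisymm hx (not_lt.1 fun hl => h0 ((h.ker x hx).2 hl))

theorem red_div (h : DW.Res π) {x y : L} (hx : ‖x‖ ≤ 1) (hy : ‖y‖ ≤ 1) (h0 : π y ≠ 0) :
    ‖x / y‖ ≤ 1 ∧ π (x / y) = π x / π y := by
  have h1 := norm_one_of h hy h0
  have h2 : ‖x / y‖ ≤ 1 := by rw [norm_div, h1, div_one]; exact hx
  refine ⟨h2, ?_⟩
  have hy0 : y ≠ 0 := by
    rintro rfl
    rw [norm_zero] at h1
    exact zero_ne_one h1
  rw [eq_div_iff h0, ← h.mul _ _ h2 hy, div_mul_cancel₀ _ hy0]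

/-- the lift of a point of a conic -/
theorem liftX (h : DW.Res π) (h2 : (2 : k) ≠ 0) (hs : Sy t)
    (ht : ∀ a b c d, ‖t a b c d‖ ≤ 1) {x y : Fin 3 → L}
    (hx : ∀ i, ‖x i‖ ≤ 1) (hy : ∀ i, ‖y i‖ ≤ 1) (hF : fm t x y = 0) (z : Fin 3 → k)
    (hz : fm (fun a b c d => π (t a b c d)) z (fun j => π (y j)) = 0)
    (hb : pl (fun a b c d => π (t a b c d)) (fun j => π (y j)) (fun j => π (x j)) z ≠ 0) :
    ∃ x' : Fin 3 → L, (∀ i, ‖x' i‖ ≤ 1) ∧ (∀ i, π (x' i) = z i) ∧ fm t x' y = 0 ∧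
      pl t y x x' ≠ 0 := by
  choose u hu huz using fun i => h.surj (z i)
  have hzu : (fun j => π (u j)) = z := funext huz
  have e1 : π (pl t y x u) ≠ 0 := by
    rw [pl_red h ht hy hx hu, hzu]
    exact hb
  have e2 : π (fm t u y) = 0 := by
    rw [fm_red h ht hu hy, hzu]
    exact hz
  have l1 := pl_le ht hy hx hu
  have l2 : ‖fm t u y‖ ≤ 1 := pl_le ht hy hu hu
  have n1 : ‖pl t y x u‖ = 1 := norm_one_of h l1 e1
  have h2L : ‖(2 : L)‖ = 1 := h.norm_two h2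
  have hp0 : pl t y x u ≠ 0 := by
    intro h0
    rw [h0, norm_zero] at n1
    exact zero_ne_one n1
  have h20 : (2 : L) ≠ 0 := by
    intro h0
    rw [h0, norm_zero] at h2L
    exact zero_ne_one h2L
  set c : L := -(2 * pl t y x u) with hc
  have hcn : ‖c‖ = 1 := by rw [hc, norm_neg, norm_mul, h2L, n1, mul_one]
  have hc0 : c ≠ 0 := by
    intro h0
    rw [h0, norm_zero] at hcn
    exact zero_ne_one hcn
  have key : ∀ i, (c⁻¹ • (fm t u y • x + c • u)) i = fm t u y * x i / c + u i := by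
    intro i
    simp only [Pi.smul_apply, Pi.add_apply, smul_eq_mul]
    field_simp
  have hsm : ∀ i, ‖fm t u y * x i / c‖ < 1 := by
    intro i
    rw [norm_div, hcn, div_one, norm_mul]
    have hlt : ‖fm t u y‖ < 1 := (h.ker _ l2).1 e2
    calc ‖fm t u y‖ * ‖x i‖ ≤ ‖fm t u y‖ * 1 := by
          exact mul_le_mul_of_nonneg_left (hx i) (norm_nonneg _)
      _ < 1 := by rw [mul_one]; exact hlt
  refine ⟨c⁻¹ • (fm t u y • x + c • u), ?_, ?_, RED.fref hs hF u c⁻¹, ?_⟩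
  · intro i
    rw [key i]
    exact (IsUltrametricDist.norm_add_le_max _ _).trans (max_le (hsm i).le (hu i))
  · intro i
    rw [key i, h.add _ _ (hsm i).le (hu i), (h.ker _ (hsm i).le).2 (hsm i), zero_add, huz i]
  · have e3 : pl t y x (c⁻¹ • (fm t u y • x + c • u)) =
        c⁻¹ * (fm t u y * fm t x y + c * pl t y x u) := by
      unfold pl
      rw [RED.psm2, RED.padd2, RED.psm2, RED.psm2]
      rfl
    rw [e3, hF, mul_zero, zero_add]
    exact mul_ne_zero (inv_ne_zero hc0) (mul_ne_zero hc0 hp0)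

/-- the lift of a point of a conic, in the other direction -/
theorem liftY (h : DW.Res π) (h2 : (2 : k) ≠ 0) (hs : Sy t)
    (ht : ∀ a b c d, ‖t a b c d‖ ≤ 1) {x y : Fin 3 → L}
    (hx : ∀ i, ‖x i‖ ≤ 1) (hy : ∀ i, ‖y i‖ ≤ 1) (hF : fm t x y = 0) (z : Fin 3 → k)
    (hz : fm (fun a b c d => π (t a b c d)) (fun j => π (x j)) z = 0)
    (hb : pl (tr (fun a b c d => π (t a b c d))) (fun j => π (x j)) (fun j => π (y j)) z ≠ 0) :
    ∃ y' : Fin 3 → L, (∀ i, ‖y' i‖ ≤ 1) ∧ (∀ i, π (y' i) = z i) ∧ fm t x y' = 0 ∧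
      pl (tr t) x y y' ≠ 0 := by
  have hz' : fm (fun a b c d => π (tr t a b c d)) z (fun j => π (x j)) = 0 := by
    rw [← hz]
    exact RED.ftr (t := fun a b c d => π (t a b c d)) (fun j => π (x j)) z
  obtain ⟨y', h3, h4, h5, h6⟩ := liftX h h2 (RED.sytr hs) (fun a b c d => ht c d a b) hy hx
    (by rw [RED.ftr]; exact hF) z hz' hb
  exact ⟨y', h3, h4, by rw [RED.ftr] at h5; exact h5, h6⟩

theorem liftS (h : DW.Res π) (h2 : (2 : k) ≠ 0) (hs : Sy t)
    (ht : ∀ a b c d, ‖t a b c d‖ ≤ 1) {b : Bool} {P : (Fin 3 → L) × (Fin 3 → L)}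
    {p r : (Fin 3 → k) × (Fin 3 → k)} (hP : Rd π P p) (hF : fm t P.1 P.2 = 0)
    (hr : fm (fun a b c d => π (t a b c d)) r.1 r.2 = 0)
    (hst : St (fun a b c d => π (t a b c d)) b p r) :
    ∃ R : (Fin 3 → L) × (Fin 3 → L), Rd π R r ∧ fm t R.1 R.2 = 0 ∧ St t b P R := by
  have e1 : (fun i => π (P.1 i)) = p.1 := funext hP.e1
  have e2 : (fun i => π (P.2 i)) = p.2 := funext hP.e2
  cases b
  · simp only [St, Bool.false_eq_true, ↓reduceIte] at hst
    obtain ⟨y', h3, h4, h5, h6⟩ := liftY h h2 hs ht hP.h1 hP.h2 hF r.2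
      (by rw [e1, hst.1]; exact hr) (by rw [e1, e2]; exact hst.2)
    refine ⟨(P.1, y'), ⟨hP.h1, h3, fun i => by rw [← hst.1]; exact hP.e1 i, h4⟩, h5, ?_⟩
    simp only [St, Bool.false_eq_true, ↓reduceIte]
    exact ⟨trivial, h6⟩
  · simp only [St, ↓reduceIte] at hst
    obtain ⟨x', h3, h4, h5, h6⟩ := liftX h h2 hs ht hP.h1 hP.h2 hF r.1
      (by rw [e2, hst.1]; exact hr) (by rw [e1, e2]; exact hst.2)
    refine ⟨(x', P.2), ⟨h3, hP.h2, h4, fun i => by rw [← hst.1]; exact hP.e2 i⟩, h5, ?_⟩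
    simp only [St, ↓reduceIte]
    exact ⟨trivial, h6⟩

/-- chains over the residue field lift -/
theorem liftW (h : DW.Res π) (h2 : (2 : k) ≠ 0) (hs : Sy t)
    (ht : ∀ a b c d, ‖t a b c d‖ ≤ 1) {w : List Bool} {P : (Fin 3 → L) × (Fin 3 → L)}
    {p r : (Fin 3 → k) × (Fin 3 → k)} (hP : Rd π P p) (hF : fm t P.1 P.2 = 0)
    (hw : Wd (fun a b c d => π (t a b c d)) w p r) :
    ∃ R : (Fin 3 → L) × (Fin 3 → L), Rd π R r ∧ fm t R.1 R.2 = 0 ∧ Wd t w P R := by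
  induction w generalizing P p with
  | nil =>
    change p = r at hw
    exact ⟨P, hw ▸ hP, hF, rfl⟩
  | cons b w ih =>
    obtain ⟨s, hs1, hst, hw'⟩ := hw
    obtain ⟨S, h3, h4, h5⟩ := liftS h h2 hs ht hP hF hs1 hst
    obtain ⟨R, h6, h7, h8⟩ := ih h3 h4 hw'
    exact ⟨R, h6, h7, S, h4, h5, h8⟩

end red

end Pool.Agent.T6.H77.VR
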