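import Pool.Agent.T6.H77.VR.BAS
import Pool.Agent.T6.H77.VR.RED
import Pool.Agent.T6.H77.DW.LOC

/-!
# Connectivity over local fields with large residue fields (helper77)
-/

set_option autoImplicit false

namespace Pool.Agent.T6.H77.VR

namespace LOC

variable {L k : Type} [NontriviallyNormedField L] [IsUltrametricDist L] [CompleteSpace L]
  [Field k] [Fintype k] {π : L → k} {t : Tn L}

/-- the first move -/
theorem start (hC : StmCO) (hNS : StmNS) (h : DW.Res π)
    (hq : 20 ≤ Fintype.card k) (two : (2 : k) ≠ 0) (hs : Sy t) (ht : ∀ a b c d, ‖t a b c d‖ ≤ 1)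
    (hg : Gs (fun a b c d => π (t a b c d)))
    (sm : ∀ x y : Fin 3 → k, x ≠ 0 → y ≠ 0 → fm (fun a b c d => π (t a b c d)) x y = 0 →
      (∃ x', pp (fun a b c d => π (t a b c d)) x x' y y ≠ 0) ∨
        ∃ y', pp (fun a b c d => π (t a b c d)) x x y y' ≠ 0) (x y : Fin 3 → L)
    (hx : ∀ i, ‖x i‖ ≤ 1) (hy : ∀ i, ‖y i‖ ≤ 1) (hx0 : ∃ i, x i = 1) (hy0 : ∃ i, y i = 1)
    (hF : fm t x y = 0) (hb : ∃ x', pl t y x x' ≠ 0) :
    ∃ x' : Fin 3 → L, (∀ i, ‖x' i‖ ≤ 1) ∧ fm t x' y = 0 ∧ pl t y x x' ≠ 0 ∧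
      ∃ z, pl (tr fun a b c d => π (t a b c d)) (fun i => π (x' i)) (fun i => π (y i)) z ≠ 0 := by
  set t' : Tn k := fun a b c d => π (t a b c d) with ht'
  set z : Fin 3 → k := fun i => π (x i) with hz
  set w : Fin 3 → k := fun i => π (y i) with hw
  have hs' : Sy t' := ⟨fun a b c d => congrArg π (hs.1 a b c d),
    fun a b c d => congrArg π (hs.2 a b c d)⟩
  have z0 : z ≠ 0 := fun h0 => by
    obtain ⟨i, hi⟩ := hx0
    have := congrFun h0 i
    simp only [hz, hi, h.one] at this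
    exact one_ne_zero this
  have w0 : w ≠ 0 := fun h0 => by
    obtain ⟨i, hi⟩ := hy0
    have := congrFun h0 i
    simp only [hw, hi, h.one] at this
    exact one_ne_zero this
  have Fzw : fm t' z w = 0 := by
    rw [hz, hw, ← fm_red h ht hx hy, hF, h.zero]
  by_cases hc : ∃ u, pl t' w z u ≠ 0
  · obtain ⟨x₁, hx₁F, hx₁b, hx₁a⟩ : ∃ x₁, fm t' x₁ w = 0 ∧ pl t' w z x₁ ≠ 0 ∧
        ∃ u, pl (tr t') x₁ w u ≠ 0 := by
      by_contra hcc
      push Not at hcc
      have c1 := hC k t' two hs' z w Fzw hc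
      have c2 := hg.bx w w0
      have c3 : {x' | fm t' x' w = 0 ∧ pl t' w z x' ≠ 0} ⊆
          {x | ∀ y', pp t' x x w y' = 0} := fun x hx y' => by
        have := hcc x hx.1 hx.2 y'
        rwa [pl_tr] at this
      have c4 := Set.ncard_le_ncard c3 (Set.toFinite _)
      nlinarith
    obtain ⟨X₁, iX₁, rX₁, FX₁, bX₁⟩ := liftX h two hs ht hx hy hF x₁ hx₁F hx₁b
    refine ⟨X₁, iX₁, FX₁, bX₁, ?_⟩
    rw [funext rX₁]
    exact hx₁a
  · push Not at hc
    have ha : ∃ u, pl (tr t') z w u ≠ 0 := by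
      rcases sm z w z0 w0 Fzw with hs | hs
      · obtain ⟨u, hu⟩ := hs
        exact absurd (hc u) hu
      · obtain ⟨u, hu⟩ := hs
        exact ⟨u, by rw [pl_tr]; exact hu⟩
    obtain ⟨x', h1, h2, h3, h4⟩ := hNS L k π h two t hs ht x y hx hy hF hb hc (hg.nz w w0)
    refine ⟨x', h1, h3, h4, ?_⟩
    rw [funext h2]
    exact ha

end LOC

open LOC in
theorem loc (hC : StmCO) (hNS : StmNS) (hFQ : StmFQ) (hLC : StmLC) : StmLOC := by
  obtain ⟨q₁, hFQ⟩ := hFQ
  obtain ⟨q₂, hLC⟩ := hLC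
  set W2 : List Bool := [false, true, false, true, false, true, false, false, true, false, true]
    with hW2
  refine ⟨max 20 (max q₁ q₂), true :: ([false, true, false] ++
    ([true, false, false, true, false, false] ++ (W2.reverse ++ [true]))), ?_⟩
  intro L k _ _ _ _ _ π h hq t hs ht hG p q hFp hFq hbq
  have hq0 : 20 ≤ Fintype.card k := (le_max_left _ _).trans hq
  have hq1 : q₁ ≤ Fintype.card k := ((le_max_left _ _).trans (le_max_right _ _)).trans hq
  have hq2 : q₂ ≤ Fintype.card k := ((le_max_right _ _).trans (le_max_right _ _)).trans hq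
  have key : ∀ p : (Fin 3 → L) × (Fin 3 → L), fm t p.1 p.2 = 0 →
      (∃ x', pl t p.2 p.1 x' ≠ 0) → ∃ (b c : L) (x y X : Fin 3 → L), b ≠ 0 ∧ c ≠ 0 ∧
      p = (b • x, c • y) ∧ (∀ i, ‖X i‖ ≤ 1) ∧ (∀ i, ‖y i‖ ≤ 1) ∧ fm t x y = 0 ∧
      fm t X y = 0 ∧ pl t y x X ≠ 0 ∧
      ∃ z, pl (tr fun a b c d => π (t a b c d)) (fun i => π (X i)) (fun i => π (y i)) z ≠ 0 := by
    intro p hFp hbp
    obtain ⟨u, hu⟩ := hbp
    have p1 : p.1 ≠ 0 := by
      intro h0
      apply hu
      rw [h0, pl_pp, pp_zero1]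
    have p2 : p.2 ≠ 0 := by
      intro h0
      apply hu
      rw [h0, pl_pp, pp_zero3]
    obtain ⟨b, x, hb, hbx, ix, hx1⟩ := DW.LOC.prim p.1 p1
    obtain ⟨c, y, hc, hcy, iy, hy1⟩ := DW.LOC.prim p.2 p2
    have hF : fm t x y = 0 := by
      have : fm t p.1 p.2 = (b * c) ^ 2 * fm t x y := by rw [hbx, hcy, fm_smul]
      rw [hFp] at this
      exact (mul_eq_zero.1 this.symm).resolve_left (pow_ne_zero _ (mul_ne_zero hb hc))
    have hbu : pl t y x u ≠ 0 := by
      intro h0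
      apply hu
      have := pl_smul (t := t) b 1 c y x u
      rw [one_smul] at this
      rw [hbx, hcy, this, h0, mul_zero]
    obtain ⟨X, h1, h2, h3, h4⟩ := start hC hNS h hq0 hG.two hs ht hG.sx hG.sm x y ix iy hx1 hy1
      hF ⟨u, hbu⟩
    exact ⟨b, c, x, y, X, hb, hc, Prod.ext hbx hcy, h1, iy, hF, h2, h3, h4⟩
  have hA : ∀ p : (Fin 3 → L) × (Fin 3 → L), fm t p.1 p.2 = 0 →
      (∃ x', pl t p.2 p.1 x' ≠ 0) → Wd t (true :: ([false, true, false] ++
    ([true, false, false, true, false, false] ++ (W2.reverse ++ [true])))) p q := by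
    intro p hFp hbp
    obtain ⟨b, c, x, y, X, hb, hc, hp, iX, iy, hF, FX, bX, aX⟩ := key p hFp hbp
    obtain ⟨b', c', x', y', X', hb', hc', hq', iX', iy', hF', FX', bX', aX'⟩ := key q hFq hbq
    have rFX : fm (fun a b c d => π (t a b c d)) (fun i => π (X i))
        (fun i => π (y i)) = 0 := by rw [← fm_red h ht iX iy, FX, h.zero]
    have rFX' : fm (fun a b c d => π (t a b c d)) (fun i => π (X' i))
        (fun i => π (y' i)) = 0 := by rw [← fm_red h ht iX' iy', FX', h.zero]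
    obtain ⟨z, w, hz0, hzw, hD, hJ, hu, hW, hW'⟩ := hFQ k _ hq1 hG _ _ _ _ rFX aX rFX' aX'
    obtain ⟨R, hR1, hR2, hR3⟩ := liftW (P := (X, y)) h hG.two hs ht
      ⟨iX, iy, fun _ => rfl, fun _ => rfl⟩ FX hW
    obtain ⟨R', hR1', hR2', hR3'⟩ := liftW (P := (X', y')) h hG.two hs ht
      ⟨iX', iy', fun _ => rfl, fun _ => rfl⟩ FX' hW'
    have hz1 : ∃ i, π (R.1 i) ≠ 0 := by
      by_contra hcc
      push Not at hcc
      apply hz0
      exact funext fun i => by
        have := hR1.e1 i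
        rw [hcc i] at this
        exact this.symm
    have eR1 : (fun i => π (R.1 i)) = z := funext hR1.e1
    have eR2 : (fun i => π (R.2 i)) = w := funext hR1.e2
    have hmid := hLC L k π h hq2 hG.two t hs ht R.1 R.2 R'.1 R'.2 hR1.h1 hR1.h2 hR1'.h1
      hR1'.h2 hz1 (fun i => by rw [hR1.e1, hR1'.e1]) (fun i => by rw [hR1.e2, hR1'.e2]) hR2 hR2'
      (by rw [eR2]; exact hD) (by rw [eR2]; exact hJ) (by rw [eR1, eR2]; exact hu)
    have hlast : Wd t [true] (X', y') (x', y') := by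
      refine ⟨(x', y'), hF', ?_, rfl⟩
      simp only [St, ↓reduceIte]
      exact ⟨trivial, by rw [pl_symm hs]; exact bX'⟩
    have htot := ((hR3.append (hmid.append ((hR3'.rev hs FX').append hlast))))
    have hall : Wd t (true :: ([false, true, false] ++
      ([true, false, false, true, false, false] ++ (W2.reverse ++ [true])))) (x, y) (x', y') := by
      refine ⟨(X, y), FX, ?_, htot⟩
      simp only [St, ↓reduceIte]
      exact ⟨trivial, bX⟩
    rw [hp, hq']
    exact hall.scale b c b' c' hb hc hb' hc' (Or.inl (by simp)) (Or.inl (by simp))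
  refine ⟨hA p hFp, ?_⟩
  rintro ⟨u, hu⟩
  rw [pl_tr] at hu
  have p1 : p.1 ≠ 0 := by
    intro h0
    apply hu
    rw [h0, pp_zero1]
  have p2 : p.2 ≠ 0 := by
    intro h0
    apply hu
    rw [h0, pp_zero3]
  obtain ⟨b, x, hb, hbx, ix, hx1⟩ := DW.LOC.prim p.1 p1
  obtain ⟨c, y, hc, hcy, iy, hy1⟩ := DW.LOC.prim p.2 p2
  have hF : fm t x y = 0 := by
    have : fm t p.1 p.2 = (b * c) ^ 2 * fm t x y := by rw [hbx, hcy, fm_smul]
    rw [hFp] at this
    exact (mul_eq_zero.1 this.symm).resolve_left (pow_ne_zero _ (mul_ne_zero hb hc))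
  have hbu : pp t x x y u ≠ 0 := by
    intro h0
    apply hu
    rw [hbx, hcy, pp_smul1, pp_smul2, pp_smul3, h0]
    ring
  obtain ⟨Y, h1, h2, h3, z, h4⟩ := start (t := tr t) hC hNS h hq0 hG.two hs.tr
    (fun a b c d => ht c d a b) hG.sz (by
      intro x y hx hy hxy
      have e1 : fm (fun a b c d => π (t a b c d)) y x = 0 := by
        rw [← fm_tr]; exact hxy
      rcases hG.sm y x hy hx e1 with ⟨v, hv⟩ | ⟨v, hv⟩
      · exact Or.inr ⟨v, by
          change pp (tr fun a b c d => π (t a b c d)) _ _ _ _ ≠ 0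
          rw [pp_tr]; exact hv⟩
      · exact Or.inl ⟨v, by
          change pp (tr fun a b c d => π (t a b c d)) _ _ _ _ ≠ 0
          rw [pp_tr]; exact hv⟩) y x iy ix hy1 hx1
    (by rw [fm_tr]; exact hF) ⟨u, by rw [pl_tr]; exact hbu⟩
  rw [fm_tr] at h2
  have h5 : pl (fun a b c d => π (t a b c d)) (fun i => π (Y i)) (fun i => π (x i)) z ≠ 0 := h4
  have h6 : ∃ x', pl t Y x x' ≠ 0 := by
    choose v hv hvz using fun i => h.surj (z i)
    refine ⟨v, fun h0 => h5 ?_⟩
    rw [← funext hvz, ← pl_red h ht h1 ix hv, h0, h.zero]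
  have hfin := hA (x, Y) h2 h6
  have hall : Wd t (false :: (true :: ([false, true, false] ++
      ([true, false, false, true, false, false] ++ (W2.reverse ++ [true]))))) (x, y) q := by
    refine ⟨(x, Y), h2, ?_, hfin⟩
    simp only [St, Bool.false_eq_true, ↓reduceIte]
    exact ⟨trivial, h3⟩
  have hp : p = (b • x, c • y) := Prod.ext hbx hcy
  have := hall.scale b c 1 1 hb hc one_ne_zero one_ne_zero (Or.inl (by simp)) (Or.inl (by simp))
  rw [one_smul, one_smul] at this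
  rw [hp]
  exact this

end Pool.Agent.T6.H77.VR
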