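import Pool.Agent.T6.H77.VR.BAS
import Pool.Agent.T6.H77.DW.LIFT

/-!
# A small move away from the vertex (port of `ns` of RK/NSD of helper43, helper70)
-/

set_option autoImplicit false

open Finset Filter Topology

namespace Pool.Agent.T6.H77.VR

namespace NS

variable {L k : Type} [NontriviallyNormedField L] [IsUltrametricDist L] [Field k] {π : L → k}

theorem m4_le1 {t : Tn L} (ht : ∀ a b c d, ‖t a b c d‖ ≤ 1) {x x' y y' : Fin 3 → L}
    (hx : ∀ i, ‖x i‖ ≤ 1) (hx' : ∀ i, ‖x' i‖ ≤ 1) (hy : ∀ i, ‖y i‖ ≤ 1) (hy' : ∀ i, ‖y' i‖ ≤ 1)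
    (a b c d : Fin 3) : ‖t a b c d * x a * x' b * y c * y' d‖ ≤ 1 :=
  DW.mul_le1 (DW.mul_le1 (DW.mul_le1 (DW.mul_le1 (ht a b c d) (hx a)) (hx' b)) (hy c)) (hy' d)

theorem pp_le1 {t : Tn L} (ht : ∀ a b c d, ‖t a b c d‖ ≤ 1) {x x' y y' : Fin 3 → L}
    (hx : ∀ i, ‖x i‖ ≤ 1) (hx' : ∀ i, ‖x' i‖ ≤ 1) (hy : ∀ i, ‖y i‖ ≤ 1) (hy' : ∀ i, ‖y' i‖ ≤ 1) :
    ‖pp t x x' y y'‖ ≤ 1 :=
  DW.sum3_le fun a => DW.sum3_le fun b => DW.sum3_le fun c => DW.sum3_le fun d =>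
    m4_le1 ht hx hx' hy hy' a b c d

theorem pp_red (h : DW.Res π) {t : Tn L} (ht : ∀ a b c d, ‖t a b c d‖ ≤ 1)
    {x x' y y' : Fin 3 → L} (hx : ∀ i, ‖x i‖ ≤ 1) (hx' : ∀ i, ‖x' i‖ ≤ 1) (hy : ∀ i, ‖y i‖ ≤ 1)
    (hy' : ∀ i, ‖y' i‖ ≤ 1) :
    π (pp t x x' y y') = pp (fun a b c d => π (t a b c d)) (fun j => π (x j)) (fun j => π (x' j))
      (fun j => π (y j)) (fun j => π (y' j)) := by
  unfold pp
  rw [h.sum3 fun a => DW.sum3_le fun b => DW.sum3_le fun c => DW.sum3_le fun d =>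
    m4_le1 ht hx hx' hy hy' a b c d]
  refine Finset.sum_congr rfl fun a _ => ?_
  rw [h.sum3 fun b => DW.sum3_le fun c => DW.sum3_le fun d => m4_le1 ht hx hx' hy hy' a b c d]
  refine Finset.sum_congr rfl fun b _ => ?_
  rw [h.sum3 fun c => DW.sum3_le fun d => m4_le1 ht hx hx' hy hy' a b c d]
  refine Finset.sum_congr rfl fun c _ => ?_
  rw [h.sum3 fun d => m4_le1 ht hx hx' hy hy' a b c d]
  refine Finset.sum_congr rfl fun d _ => ?_
  rw [h.mul _ _ (DW.mul_le1 (DW.mul_le1 (DW.mul_le1 (ht a b c d) (hx a)) (hx' b)) (hy c)) (hy' d),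
    h.mul _ _ (DW.mul_le1 (DW.mul_le1 (ht a b c d) (hx a)) (hx' b)) (hy c),
    h.mul _ _ (DW.mul_le1 (ht a b c d) (hx a)) (hx' b), h.mul _ _ (ht a b c d) (hx a)]

end NS

open NS in
/-- NS: a small move away from a point whose reduction is the vertex of the conic -/
theorem ns : StmNS := by
  intro L k _ _ _ _ π hπ h2 t hs ht x y hx hy hF hx' hz hf
  have h2L : ‖(2 : L)‖ = 1 := hπ.norm_two h2
  have h20 : (2 : L) ≠ 0 := by
    intro h; rw [h, norm_zero] at h2L; exact zero_ne_one h2L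
  obtain ⟨z, hz'⟩ := hf
  choose u₀ hu₀ hu₀z using fun i => hπ.surj (z i)
  -- an index with a nonzero coordinate
  obtain ⟨j, hj⟩ : ∃ j, pl t y x (Pi.single j 1) ≠ 0 := by
    by_contra hc
    push Not at hc
    obtain ⟨x', hx'⟩ := hx'
    apply hx'
    rw [pl_pp, pp_single2]
    refine Finset.sum_eq_zero fun j _ => ?_
    have := hc j
    rw [pl_pp] at this
    rw [this, mul_zero]
  -- the vector `u`
  obtain ⟨u, hu1, huz, hu⟩ : ∃ u : Fin 3 → L, (∀ i, ‖u i‖ ≤ 1) ∧ (∀ i, π (u i) = z i) ∧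
      pl t y x u ≠ 0 := by
    by_cases h0 : pl t y x u₀ ≠ 0
    · exact ⟨u₀, hu₀, hu₀z, h0⟩
    · push Not at h0
      obtain ⟨c, hc0, hc1⟩ := NormedField.exists_norm_lt_one L
      have hc0' : c ≠ 0 := norm_pos_iff.1 hc0
      have key : ∀ i, ‖(u₀ + c • (Pi.single j (1 : L) : Fin 3 → L)) i - u₀ i‖ < 1 := by
        intro i
        rw [Pi.add_apply, add_sub_cancel_left, Pi.smul_apply, smul_eq_mul, norm_mul]
        by_cases hij : i = j
        · rw [hij, Pi.single_eq_same, norm_one, mul_one]; exact hc1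
        · rw [Pi.single_eq_of_ne hij, norm_zero, mul_zero]; exact one_pos
      refine ⟨u₀ + c • (Pi.single j (1 : L) : Fin 3 → L), fun i => (hπ.eq_of (hu₀ i) (key i)).1,
        fun i => ?_, ?_⟩
      · rw [(hπ.eq_of (hu₀ i) (key i)).2, hu₀z]
      · rw [pl_add_right, pl_smul_right, h0, zero_add]
        exact mul_ne_zero hc0' hj
  have hzu : (fun i => π (u i)) = z := funext huz
  have hq : ‖fm t u y‖ = 1 := by
    refine hπ.norm_one_of (pp_le1 ht hu1 hu1 hy hy) ?_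
    rw [fm_pp, pp_red hπ ht hu1 hu1 hy hy, hzu]
    exact hz'
  have hq0 : fm t u y ≠ 0 := by
    intro h; rw [h, norm_zero] at hq; exact zero_ne_one hq
  have hb : ‖pl t y x u‖ < 1 := by
    rw [pl_pp, ← hπ.ker _ (pp_le1 ht hx hu1 hy hy), pp_red hπ ht hx hu1 hy hy]
    exact hz _
  set s := 2 * pl t y x u / fm t u y with hsd
  have htn : ‖s‖ < 1 := by
    rw [hsd, norm_div, hq, div_one, norm_mul, h2L, one_mul]; exact hb
  have htq : s * fm t u y = 2 * pl t y x u := by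
    rw [hsd]; field_simp
  have hxi : ∀ i, ‖(x + (-s) • u) i - x i‖ < 1 := by
    intro i
    rw [Pi.add_apply, add_sub_cancel_left, Pi.smul_apply, smul_eq_mul, norm_mul, norm_neg]
    calc ‖s‖ * ‖u i‖ ≤ ‖s‖ * 1 := mul_le_mul_of_nonneg_left (hu1 i) (norm_nonneg _)
      _ < 1 := by rw [mul_one]; exact htn
  refine ⟨x + (-s) • u, fun i => (hπ.eq_of (hx i) (hxi i)).1, fun i =>
    (hπ.eq_of (hx i) (hxi i)).2, ?_, ?_⟩
  · rw [fm_add hs, pl_smul_right, fm_smul_x, hF]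
    linear_combination s * htq
  · rw [pl_add_right, pl_self, hF, zero_add, pl_smul_right]
    refine mul_ne_zero (neg_ne_zero.2 ?_) hu
    rw [hsd]
    exact div_ne_zero (mul_ne_zero h20 hu) hq0

end Pool.Agent.T6.H77.VR
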