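import Pool.Agent.T6.H77.VR.Stm

/-!
# A point on the conic with a square discriminant (module PT)
-/

set_option autoImplicit false

namespace Pool.Agent.T6.H77.VR

namespace PT

theorem lin1 {R : Type} [CommRing R] (t : Tn R) (s : R) (x u x' y y' : Fin 3 → R) :
    pp t (s • x + u) x' y y' = s * pp t x x' y y' + pp t u x' y y' := by
  unfold pp
  simp only [Finset.mul_sum, ← Finset.sum_add_distrib]
  refine Finset.sum_congr rfl fun a _ => Finset.sum_congr rfl fun b _ =>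
    Finset.sum_congr rfl fun c _ => Finset.sum_congr rfl fun d _ => ?_
  simp only [Pi.add_apply, Pi.smul_apply, smul_eq_mul]
  ring

theorem lin2 {R : Type} [CommRing R] (t : Tn R) (s : R) (x u x' y y' : Fin 3 → R) :
    pp t x' (s • x + u) y y' = s * pp t x' x y y' + pp t x' u y y' := by
  unfold pp
  simp only [Finset.mul_sum, ← Finset.sum_add_distrib]
  refine Finset.sum_congr rfl fun a _ => Finset.sum_congr rfl fun b _ =>
    Finset.sum_congr rfl fun c _ => Finset.sum_congr rfl fun d _ => ?_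
  simp only [Pi.add_apply, Pi.smul_apply, smul_eq_mul]
  ring

theorem sy1 {R : Type} [CommRing R] {t : Tn R} (hs : Sy t) (x x' y y' : Fin 3 → R) :
    pp t x x' y y' = pp t x' x y y' := by
  unfold pp
  rw [Finset.sum_comm]
  refine Finset.sum_congr rfl fun a _ => Finset.sum_congr rfl fun b _ =>
    Finset.sum_congr rfl fun c _ => Finset.sum_congr rfl fun d _ => ?_
  rw [hs.1 b a c d]
  ring

theorem quad {R : Type} [CommRing R] {t : Tn R} (hs : Sy t) (s : R) (x u y y' : Fin 3 → R) :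
    pp t (s • x + u) (s • x + u) y y' =
      s ^ 2 * pp t x x y y' + 2 * s * pp t x u y y' + pp t u u y y' := by
  rw [lin1, lin2, lin2, sy1 hs u x]
  ring

theorem de_eq {R : Type} [CommRing R] {t : Tn R} (hs : Sy t) (s : R) (x₀ b₁ b₂ u : Fin 3 → R)
    (h1 : fm t x₀ b₁ = 0) (h2 : fm t x₀ b₂ = 0) (h3 : pp t x₀ x₀ b₁ b₂ = 0) :
    de t b₁ b₂ (s • x₀ + u) =
      4 * cA t x₀ b₁ b₂ u * s ^ 2 + 2 * cB t x₀ b₁ b₂ u * s + de t b₁ b₂ u := by
  unfold fm at h1 h2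
  unfold de fm cA cB
  rw [quad hs, quad hs, quad hs, h1, h2, h3]
  ring

end PT

theorem pt : StmPT := by
  classical
  intro k _ _ t h2 hs x₀ b₁ b₂ u w hb1 hb2 hb12 ha hsq hns
  obtain ⟨r, hr⟩ := hsq
  obtain ⟨a, ead⟩ : ∃ a, a = fm t x₀ w := ⟨_, rfl⟩
  obtain ⟨b, ebd⟩ : ∃ b, b = pl t w x₀ u := ⟨_, rfl⟩
  obtain ⟨c, ecd⟩ : ∃ c, c = fm t u w := ⟨_, rfl⟩
  obtain ⟨A, eAd⟩ : ∃ A, A = cA t x₀ b₁ b₂ u := ⟨_, rfl⟩
  obtain ⟨B, eBd⟩ : ∃ B, B = cB t x₀ b₁ b₂ u := ⟨_, rfl⟩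
  obtain ⟨D, eDd⟩ : ∃ D, D = de t b₁ b₂ u := ⟨_, rfl⟩
  unfold dl at hr
  unfold nn at hns
  rw [← ead, ← ebd, ← ecd] at hr
  rw [← ead, ← ebd, ← ecd, ← eAd, ← eBd, ← eDd] at hns
  rw [← ead] at ha
  have hf : ∀ s : k, fm t (s • x₀ + u) w = a * s ^ 2 + 2 * b * s + c := by
    intro s
    rw [fm, PT.quad hs, ead, ebd, ecd]
    unfold fm pl
    ring
  have hd : ∀ s : k, de t b₁ b₂ (s • x₀ + u) = 4 * A * s ^ 2 + 2 * B * s + D := by
    intro s
    rw [PT.de_eq hs s x₀ b₁ b₂ u hb1 hb2 hb12, eAd, eBd, eDd]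
  obtain ⟨s1, e1⟩ : ∃ s1, s1 = (-b + r) / a := ⟨_, rfl⟩
  obtain ⟨s2, e2⟩ : ∃ s2, s2 = (-b - r) / a := ⟨_, rfl⟩
  have z1 : a * s1 ^ 2 + 2 * b * s1 + c = 0 := by
    rw [e1]
    field_simp
    linear_combination -hr
  have z2 : a * s2 ^ 2 + 2 * b * s2 + c = 0 := by
    rw [e2]
    field_simp
    linear_combination -hr
  have hsum : a * (s1 + s2) = -(2 * b) := by
    rw [e1, e2]
    field_simp
    ring
  have hprod : a * (s1 * s2) = c := by
    have h3 : a * (a * (s1 * s2)) = a * c := by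
      rw [e1, e2]
      field_simp
      linear_combination hr
    exact mul_left_cancel₀ ha h3
  have hres : a ^ 2 * ((4 * A * s1 ^ 2 + 2 * B * s1 + D) * (4 * A * s2 ^ 2 + 2 * B * s2 + D)) =
      (a * D - 4 * c * A) ^ 2 - 4 * (a * B - 4 * b * A) * (b * D - c * B) := by
    have h4 : a ^ 2 * ((4 * A * s1 ^ 2 + 2 * B * s1 + D) * (4 * A * s2 ^ 2 + 2 * B * s2 + D)) =
        16 * A ^ 2 * (a * (s1 * s2)) ^ 2 + 8 * A * B * (a * (s1 * s2)) * (a * (s1 + s2)) +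
        4 * A * D * ((a * (s1 + s2)) ^ 2 - 2 * a * (a * (s1 * s2))) +
        4 * B ^ 2 * a * (a * (s1 * s2)) + 2 * B * D * a * (a * (s1 + s2)) + a ^ 2 * D ^ 2 := by
      ring
    rw [h4, hsum, hprod]
    ring
  obtain ⟨D1, hD1⟩ : ∃ D1, D1 = 4 * A * s1 ^ 2 + 2 * B * s1 + D := ⟨_, rfl⟩
  obtain ⟨D2, hD2⟩ : ∃ D2, D2 = 4 * A * s2 ^ 2 + 2 * B * s2 + D := ⟨_, rfl⟩
  rw [← hD1, ← hD2] at hres
  have hns' : ¬ IsSquare (D1 * D2) := by
    rintro ⟨z, hz⟩
    apply hns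
    refine ⟨a * z, ?_⟩
    rw [← hres, hz]
    ring
  have hne : D1 * D2 ≠ 0 := by
    intro h0
    apply hns'
    rw [h0]
    exact ⟨0, by ring⟩
  have hor : IsSquare D1 ∨ IsSquare D2 := by
    by_contra hcon
    push Not at hcon
    have q1 := quadraticChar_neg_one_iff_not_isSquare.2 hcon.1
    have q2 := quadraticChar_neg_one_iff_not_isSquare.2 hcon.2
    apply hns'
    rw [← quadraticChar_one_iff_isSquare hne, map_mul, q1, q2]
    norm_num
  rcases hor with ⟨d, hdd⟩ | ⟨d, hdd⟩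
  · refine ⟨s1, d, ?_, ?_, ?_⟩
    · rw [hf, z1]
    · rintro rfl
      apply hne
      rw [hdd]
      ring
    · rw [hd, ← hD1, hdd]
      ring
  · refine ⟨s2, d, ?_, ?_, ?_⟩
    · rw [hf, z2]
    · rintro rfl
      apply hne
      rw [hdd]
      ring
    · rw [hd, ← hD2, hdd]
      ring

end Pool.Agent.T6.H77.VR
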