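import Pool.Agent.T6.H77.VR.Stm
import Pool.Agent.T6.H77.RK.ZJD

/-!
# Zeros of a nonzero quadratic form (module QZ, helper70)
-/

set_option autoImplicit false

namespace Pool.Agent.T6.H77.VR

namespace QZ

open Polynomial

theorem fm_line {k : Type} [Field k] (t : Tn k) (z x y : Fin 3 → k) (l : k) :
    fm t (z + l • x) y = fm t x y * l ^ 2 + (pp t z x y y + pp t x z y y) * l + fm t z y := by
  unfold fm pp
  simp only [Finset.sum_mul, ← Finset.sum_add_distrib, Pi.add_apply, Pi.smul_apply, smul_eq_mul]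
  refine Finset.sum_congr rfl fun a _ => Finset.sum_congr rfl fun b _ =>
    Finset.sum_congr rfl fun c _ => Finset.sum_congr rfl fun d _ => ?_
  ring

end QZ

open Polynomial QZ in
/-- QZ: zeros of a nonzero quadratic form -/
theorem qz : StmQZ := by
  intro k _ _ t y ⟨x, hx⟩
  refine RK.ZJD.cnt _ x 2 fun z => ?_
  refine ⟨C (fm t x y) * X ^ 2 + C (pp t z x y y + pp t x z y y) * X + C (fm t z y), ?_,
    RK.ZJD.quad_deg _ _ _, ?_⟩
  · intro h0
    have h1 := RK.ZJD.quad_coeff (fm t z y) (pp t z x y y + pp t x z y y) (fm t x y)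
    rw [h0, coeff_zero] at h1
    exact hx h1.symm
  · intro l hl
    have hl' : fm t (z + l • x) y = 0 := hl
    rw [fm_line] at hl'
    simpa using hl'

end Pool.Agent.T6.H77.VR
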