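import Pool.Agent.T6.H77.VR.Stm

/-!
# Module SQ: square roots in a family of polynomials (helper55)
-/

set_option autoImplicit false

namespace Pool.Agent.T6.H77.VR.SQ

open Polynomial Finset

section rec

variable {R : Type} [CommRing R]

/-- the coefficients of the square root, multiplied by powers of `a 0`; `c` is the inverse of `2` -/
def hh (c : R) (a : ℕ → R) : ℕ → R
  | 0 => 1
  | j + 1 => c * (a 0 ^ j * a (j + 1) - ∑ i : Fin j, hh c a (i.1 + 1) * hh c a (j - i.1))
decreasing_by
  · have := i.2; omega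
  · omega

theorem hh_zero (c : R) (a : ℕ → R) : hh c a 0 = 1 := by rw [hh]

theorem hh_succ (c : R) (a : ℕ → R) (j : ℕ) : hh c a (j + 1) =
    c * (a 0 ^ j * a (j + 1) - ∑ i ∈ range j, hh c a (i + 1) * hh c a (j - i)) := by
  rw [hh, Finset.sum_range]

theorem hh_map {S : Type} [CommRing S] (φ : R →+* S) (c : R) (a : ℕ → R) (j : ℕ) :
    φ (hh c a j) = hh (φ c) (fun i => φ (a i)) j := by
  induction j using Nat.strong_induction_on with
  | _ j ih =>
    cases j with
    | zero => rw [hh_zero, hh_zero, map_one]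
    | succ j =>
      rw [hh_succ, hh_succ, map_mul, map_sub, map_mul, map_pow, map_sum]
      congr 2
      refine Finset.sum_congr rfl fun i hi => ?_
      rw [Finset.mem_range] at hi
      rw [map_mul, ih (i + 1) (by omega), ih (j - i) (by omega)]

theorem split_sum (f : ℕ → R) (hf : f 0 = 1) (j : ℕ) :
    ∑ x ∈ antidiagonal (j + 1), f x.1 * f x.2 =
      2 * f (j + 1) + ∑ i ∈ range j, f (i + 1) * f (j - i) := by
  rw [Finset.Nat.sum_antidiagonal_eq_sum_range_succ (fun a b => f a * f b), Finset.sum_range_succ,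
    Finset.sum_range_succ', Nat.sub_zero, Nat.sub_self, hf]
  have h : ∑ i ∈ range j, f (i + 1) * f (j + 1 - (i + 1)) = ∑ i ∈ range j, f (i + 1) * f (j - i) := by
    refine Finset.sum_congr rfl fun i _ => ?_
    rw [Nat.add_sub_add_right]
  rw [h]
  ring

theorem hh_spec (c : R) (hc : c * 2 = 1) (a : ℕ → R) (j : ℕ) :
    a 0 ^ j * a (j + 1) = ∑ x ∈ antidiagonal (j + 1), hh c a x.1 * hh c a x.2 := by
  rw [split_sum _ (hh_zero c a), hh_succ]
  linear_combination (-(a 0 ^ j * a (j + 1) - ∑ i ∈ range j, hh c a (i + 1) * hh c a (j - i))) * hc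

theorem hh_unique (c : R) (hc : c * 2 = 1) (a η : ℕ → R) (h0 : η 0 = 1)
    (h : ∀ j, a j = a 0 * ∑ x ∈ antidiagonal j, η x.1 * η x.2) (j : ℕ) :
    hh c a j = a 0 ^ j * η j := by
  induction j using Nat.strong_induction_on with
  | _ j ih =>
    cases j with
    | zero => rw [hh_zero, h0, pow_zero, one_mul]
    | succ j =>
      rw [hh_succ, h (j + 1), split_sum _ h0]
      have h1 : ∑ i ∈ range j, hh c a (i + 1) * hh c a (j - i) =
          a 0 ^ (j + 1) * ∑ i ∈ range j, η (i + 1) * η (j - i) := by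
        rw [Finset.mul_sum]
        refine Finset.sum_congr rfl fun i hi => ?_
        rw [Finset.mem_range] at hi
        rw [ih (i + 1) (by omega), ih (j - i) (by omega)]
        have h2 : a 0 ^ (j + 1) = a 0 ^ (i + 1) * a 0 ^ (j - i) := by
          rw [← pow_add]
          congr 1
          omega
        rw [h2]
        ring
      rw [h1]
      linear_combination (a 0 ^ (j + 1) * η (j + 1)) * hc

end rec

theorem hh_deg {k : Type} [Field k] (c : k) (A : ℕ → k[X]) (e : ℕ) (hA : ∀ i, (A i).natDegree ≤ e)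
    (j : ℕ) : (hh (C c) A j).natDegree ≤ j * e := by
  induction j using Nat.strong_induction_on with
  | _ j ih =>
    cases j with
    | zero => rw [hh_zero, natDegree_one]; omega
    | succ j =>
      rw [hh_succ]
      refine (natDegree_C_mul_le _ _).trans ((natDegree_sub_le _ _).trans (max_le ?_ ?_))
      · refine (natDegree_mul_le_of_le (natDegree_pow_le_of_le j (hA 0)) (hA _)).trans ?_
        nlinarith
      · refine natDegree_sum_le_of_forall_le _ _ fun i hi => ?_
        rw [Finset.mem_range] at hi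
        refine (natDegree_mul_le_of_le (ih (i + 1) (by omega)) (ih (j - i) (by omega))).trans ?_
        rw [← add_mul]
        refine Nat.mul_le_mul_right _ (by omega)

section field

variable {k : Type} [Field k]

/-- FACT 1 -/
theorem fact1 (h2 : (2 : k) ≠ 0) (m : ℕ) (f : k[X]) (hf : f.natDegree ≤ 2 * m) (h0 : f.coeff 0 ≠ 0)
    (c : k) (h : k[X]) (hfh : f = C c * h ^ 2) (j : ℕ) (hj : m < j) :
    hh (2 : k)⁻¹ (fun i => f.coeff i) j = 0 := by
  have hc : c ≠ 0 := by
    rintro rfl
    rw [hfh] at h0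
    simp at h0
  have hh0 : h.coeff 0 ≠ 0 := by
    intro hh
    rw [hfh, coeff_C_mul, coeff_zero_eq_eval_zero, eval_pow, ← coeff_zero_eq_eval_zero, hh] at h0
    simp at h0
  have hd : h.natDegree ≤ m := by
    rw [hfh, natDegree_C_mul hc, natDegree_pow] at hf
    omega
  have hcf : ∀ j, f.coeff j = c * ∑ x ∈ antidiagonal j, h.coeff x.1 * h.coeff x.2 := by
    intro j
    rw [hfh, coeff_C_mul, pow_two, coeff_mul]
  have hu := hh_unique (2 : k)⁻¹ (inv_mul_cancel₀ h2) (fun i => f.coeff i)
    (fun i => h.coeff i / h.coeff 0) (div_self hh0) (fun j => by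
      have h1 : f.coeff 0 = c * (h.coeff 0 * h.coeff 0) := by
        rw [hcf 0]
        simp
      change f.coeff j = f.coeff 0 * ∑ x ∈ antidiagonal j, h.coeff x.1 / h.coeff 0 *
        (h.coeff x.2 / h.coeff 0)
      rw [h1, hcf j, Finset.mul_sum, Finset.mul_sum]
      refine Finset.sum_congr rfl fun x _ => ?_
      field_simp) j
  rw [hu, coeff_eq_zero_of_natDegree_lt (lt_of_le_of_lt hd hj), zero_div, mul_zero]

/-- FACT 2 -/
theorem fact2 (h2 : (2 : k) ≠ 0) (m : ℕ) (f : k[X]) (hf : f.natDegree ≤ 2 * m) (h0 : f.coeff 0 ≠ 0)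
    (hz : ∀ j, m < j → j ≤ 2 * m → hh (2 : k)⁻¹ (fun i => f.coeff i) j = 0) :
    ∃ h : k[X], f = C (f.coeff 0) * h ^ 2 := by
  set a : ℕ → k := fun i => f.coeff i with ha
  set H : ℕ → k := hh (2 : k)⁻¹ a with hH
  have ha0 : a 0 ≠ 0 := h0
  let g : k[X] := ∑ i ∈ range (m + 1), C (H i / a 0 ^ i) * X ^ i
  have hg : ∀ i, g.coeff i = if i ≤ m then H i / a 0 ^ i else 0 := by
    intro i
    simp only [g, finsetSum_coeff, coeff_C_mul, coeff_X_pow]
    by_cases hi : i ≤ m
    · rw [if_pos hi, Finset.sum_eq_single i]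
      · simp
      · intro b _ hb
        rw [if_neg (Ne.symm hb), mul_zero]
      · intro hb
        exact absurd (Finset.mem_range.mpr (by omega)) hb
    · rw [if_neg hi]
      refine Finset.sum_eq_zero fun b hb => ?_
      rw [Finset.mem_range] at hb
      rw [if_neg (by omega), mul_zero]
  have hgd : g.natDegree ≤ m := by
    rw [natDegree_le_iff_coeff_eq_zero]
    intro N hN
    rw [hg, if_neg (by omega)]
  refine ⟨g, ?_⟩
  ext j
  by_cases hj : j ≤ 2 * m
  · rw [coeff_C_mul, pow_two, coeff_mul]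
    have h1 : ∀ x ∈ antidiagonal j, g.coeff x.1 * g.coeff x.2 = (H x.1 * H x.2) / a 0 ^ j := by
      intro x hx
      rw [HasAntidiagonal.mem_antidiagonal] at hx
      rw [hg, hg, ← hx, pow_add]
      by_cases h1 : x.1 ≤ m
      · rw [if_pos h1]
        by_cases h3 : x.2 ≤ m
        · rw [if_pos h3]
          field_simp
        · rw [if_neg h3, hz x.2 (by omega) (by omega)]
          simp
      · rw [if_neg h1, hz x.1 (by omega) (by omega)]
        simp
    rw [Finset.sum_congr rfl h1, ← Finset.sum_div]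
    cases j with
    | zero =>
      simp [hH, hh_zero]
    | succ j =>
      rw [← hh_spec (2 : k)⁻¹ (inv_mul_cancel₀ h2) a j]
      change a (j + 1) = a 0 * (a 0 ^ j * a (j + 1) / a 0 ^ (j + 1))
      rw [pow_succ]
      field_simp
  · rw [coeff_eq_zero_of_natDegree_lt (by omega), coeff_eq_zero_of_natDegree_lt]
    refine lt_of_le_of_lt (natDegree_C_mul_le _ _) (lt_of_le_of_lt (natDegree_pow_le) ?_)
    omega

theorem shift (f : k[X]) (T c : k) (h : k[X]) (hf : f = C c * h ^ 2) :
    f.comp (X + C T) = C c * (h.comp (X + C T)) ^ 2 := by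
  rw [hf, mul_comp, C_comp, pow_comp]

theorem shift_back (f : k[X]) (T c : k) (h : k[X]) (hf : f.comp (X + C T) = C c * h ^ 2) :
    f = C c * (h.comp (X - C T)) ^ 2 := by
  have h1 : (f.comp (X + C T)).comp (X - C T) = f := by
    rw [comp_assoc, add_comp, X_comp, C_comp, sub_add_cancel, comp_X]
  rw [← h1, hf, mul_comp, C_comp, pow_comp]

theorem coeff_deg (P : k[X][X]) (T : k) (e : ℕ) (hP : ∀ i, (P.coeff i).natDegree ≤ e) (i : ℕ) :
    ((P.comp (X + C (C T))).coeff i).natDegree ≤ e := by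
  rw [comp, eval₂_eq_sum_range, finsetSum_coeff]
  refine natDegree_sum_le_of_forall_le _ _ fun j _ => ?_
  rw [coeff_C_mul, coeff_X_add_C_pow, ← C_pow, ← C_eq_natCast, ← C_mul]
  refine (natDegree_mul_C_le _ _).trans (hP j)

end field

/-- FACT 1 and FACT 2 together -/
theorem main (m e : ℕ) (k : Type) [Field k] [Fintype k] (hq : 2 * m + 2 ≤ Fintype.card k)
    (h2 : (2 : k) ≠ 0) (P : k[X][X]) (hPd : P.natDegree ≤ 2 * m)
    (hPe : ∀ i, (P.coeff i).natDegree ≤ e) (l₀ : k) (hN : NSq (P.map (evalRingHom l₀))) :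
    {l : k | ¬ NSq (P.map (evalRingHom l))}.ncard ≤ e + 2 * m * e := by
  classical
  have hd : ∀ l : k, (P.map (evalRingHom l)).natDegree ≤ 2 * m := fun l =>
    natDegree_map_le.trans hPd
  -- a value of `T`
  obtain ⟨T, hT⟩ : ∃ T : k, (P.map (evalRingHom l₀)).eval T ≠ 0 := by
    by_contra hcon
    push Not at hcon
    have h0 : P.map (evalRingHom l₀) ≠ 0 := by
      intro h
      refine hN 0 1 ?_
      rw [h]
      simp
    have h1 := card_roots' (P.map (evalRingHom l₀))
    have h3 : (Finset.univ : Finset k).card ≤ (P.map (evalRingHom l₀)).roots.toFinset.card := by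
      refine Finset.card_le_card fun x _ => ?_
      rw [Multiset.mem_toFinset, mem_roots h0]
      exact hcon x
    have h4 := Multiset.toFinset_card_le (P.map (evalRingHom l₀)).roots
    rw [Finset.card_univ] at h3
    have := hd l₀
    omega
  set Q : k[X][X] := P.comp (X + C (C T)) with hQ
  have hQm : ∀ l : k, Q.map (evalRingHom l) = (P.map (evalRingHom l)).comp (X + C T) := by
    intro l
    rw [hQ, map_comp, Polynomial.map_add, map_X, map_C, coe_evalRingHom, eval_C]
  have hQd : ∀ l : k, (Q.map (evalRingHom l)).natDegree ≤ 2 * m := by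
    intro l
    rw [hQm, natDegree_comp, natDegree_X_add_C, mul_one]
    exact hd l
  set A : ℕ → k[X] := fun i => Q.coeff i with hA
  have hAe : ∀ i, (A i).natDegree ≤ e := fun i => coeff_deg P T e hPe i
  have hAc : ∀ (l : k) (i : ℕ), (A i).eval l = (Q.map (evalRingHom l)).coeff i := by
    intro l i
    rw [coeff_map, coe_evalRingHom]
  set H : ℕ → k[X] := hh (C (2 : k)⁻¹) A with hH
  have hHe : ∀ (l : k) (j : ℕ), (H j).eval l =
      hh (2 : k)⁻¹ (fun i => (Q.map (evalRingHom l)).coeff i) j := by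
    intro l j
    have h1 := hh_map (evalRingHom l) (C (2 : k)⁻¹) A j
    rw [coe_evalRingHom, eval_C] at h1
    rw [hH, h1]
    congr 1
    funext i
    exact hAc l i
  have hA0 : (A 0).eval l₀ ≠ 0 := by
    rw [hAc, hQm, coeff_zero_eq_eval_zero, eval_comp, eval_add, eval_X, eval_C, zero_add]
    exact hT
  obtain ⟨j, hj1, hj2, hj⟩ : ∃ j, m < j ∧ j ≤ 2 * m ∧ (H j).eval l₀ ≠ 0 := by
    by_contra hcon
    push Not at hcon
    obtain ⟨h, hh⟩ := fact2 h2 m (Q.map (evalRingHom l₀)) (hQd l₀) (by rw [← hAc]; exact hA0)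
      (fun j h1 h3 => by rw [← hHe]; exact hcon j h1 h3)
    have h5 : (P.map (evalRingHom l₀)).comp (X + C T) =
        C ((Q.map (evalRingHom l₀)).coeff 0) * h ^ 2 := by rw [← hQm]; exact hh
    exact hN _ _ (shift_back _ T _ h h5)
  have hne : A 0 * H j ≠ 0 := by
    intro h
    have h1 := congrArg (eval l₀) h
    rw [eval_mul, eval_zero] at h1
    exact (mul_ne_zero hA0 hj) h1
  have hsub : {l : k | ¬ NSq (P.map (evalRingHom l))} ⊆ ((A 0 * H j).roots.toFinset : Set k) := by
    intro l hl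
    rw [Set.mem_ofPred_eq, NSq] at hl
    push Not at hl
    obtain ⟨c, h, hh⟩ := hl
    rw [Finset.mem_coe, Multiset.mem_toFinset, mem_roots hne, IsRoot.def, eval_mul]
    by_cases h0 : (A 0).eval l = 0
    · rw [h0, zero_mul]
    · rw [hHe, fact1 h2 m (Q.map (evalRingHom l)) (hQd l) (by rw [← hAc]; exact h0) c
        (h.comp (X + C T)) (by rw [hQm]; exact shift _ T c h hh) j hj1, mul_zero]
  have hHd : (H j).natDegree ≤ j * e := hh_deg _ A e hAe j
  calc {l : k | ¬ NSq (P.map (evalRingHom l))}.ncard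
      ≤ ((A 0 * H j).roots.toFinset : Set k).ncard := Set.ncard_le_ncard hsub (Finset.finite_toSet _)
    _ = (A 0 * H j).roots.toFinset.card := Set.ncard_coe_finset _
    _ ≤ Multiset.card (A 0 * H j).roots := Multiset.toFinset_card_le _
    _ ≤ (A 0 * H j).natDegree := card_roots' _
    _ ≤ (A 0).natDegree + (H j).natDegree := natDegree_mul_le
    _ ≤ e + 2 * m * e := Nat.add_le_add (hAe 0) (hHd.trans (Nat.mul_le_mul_right _ hj2))

end Pool.Agent.T6.H77.VR.SQ

namespace Pool.Agent.T6.H77.VR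

theorem sq : StmSQ := fun m e => ⟨2 * m + 2, e + 2 * m * e, fun k _ _ hq h2 P hPd hPe l₀ hN =>
  SQ.main m e k hq h2 P hPd hPe l₀ hN⟩

end Pool.Agent.T6.H77.VR
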