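import Pool.Agent.T6.H77.VR.Stm

/-!
# Transversality (helper42 for helper77's project VR)
-/

set_option autoImplicit false

namespace Pool.Agent.T6.H77.VR.TR

open Polynomial

/-- bilinear form of a matrix -/
def bf {k : Type} [CommRing k] (A : Matrix (Fin 3) (Fin 3) k) (u v : Fin 3 → k) : k :=
  ∑ a, ∑ b, A a b * u a * v b

lemma bf_comb {k : Type} [CommRing k] (A : Matrix (Fin 3) (Fin 3) k)
    (hA : ∀ a b, A a b = A b a) (u v : Fin 3 → k) (a b : k) :
    bf A (a • u + b • v) (a • u + b • v) =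
      a ^ 2 * bf A u u + 2 * a * b * bf A u v + b ^ 2 * bf A v v := by
  unfold bf
  simp only [Fin.sum_univ_three, Pi.add_apply, Pi.smul_apply, smul_eq_mul]
  rw [hA 1 0, hA 2 0, hA 2 1]
  ring

lemma bf_lin {k : Type} [CommRing k] (A : Matrix (Fin 3) (Fin 3) k)
    (x u v : Fin 3 → k) (a b : k) :
    bf A x (a • u + b • v) = a * bf A x u + b * bf A x v := by
  unfold bf
  simp only [Fin.sum_univ_three, Pi.add_apply, Pi.smul_apply, smul_eq_mul]
  ring

lemma cub {k : Type} [Field k] [Fintype k] (hq : 5 ≤ Fintype.card k) (s₀ a b c d : k)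
    (h : ∀ s, s ≠ s₀ → a + b * s + c * s ^ 2 + d * s ^ 3 = 0) : a = 0 := by
  classical
  by_contra ha
  have hp0 : (C a + C b * X + C c * X ^ 2 + C d * X ^ 3 : k[X]) ≠ 0 := by
    intro h0
    have h1 := congrArg (fun p : k[X] => p.eval 0) h0
    simp at h1
    exact ha h1
  have hdeg : (C a + C b * X + C c * X ^ 2 + C d * X ^ 3 : k[X]).natDegree ≤ 3 := by
    compute_degree
  have hsub : (Finset.univ.erase s₀) ⊆
      (C a + C b * X + C c * X ^ 2 + C d * X ^ 3 : k[X]).roots.toFinset := by
    intro s hs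
    rw [Multiset.mem_toFinset, mem_roots hp0, IsRoot.def]
    have := h s (Finset.ne_of_mem_erase hs)
    simp only [eval_add, eval_C, eval_mul, eval_X, eval_pow]
    exact this
  have h1 := Finset.card_le_card hsub
  rw [Finset.card_erase_of_mem (Finset.mem_univ _), Finset.card_univ] at h1
  have h2 := (Multiset.toFinset_card_le
    (C a + C b * X + C c * X ^ 2 + C d * X ^ 3 : k[X]).roots).trans ((card_roots' _).trans hdeg)
  omega

/-- a vector orthogonal to `x` which is not isotropic -/
lemma exw {k : Type} [Field k] (A : Matrix (Fin 3) (Fin 3) k) (hA : ∀ a b, A a b = A b a)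
    (hd : A.det ≠ 0) (x x' : Fin 3 → k) (hx0 : bf A x x = 0)
    (hP : bf A x x' ≠ 0) : ∃ w, bf A x w = 0 ∧ bf A w w ≠ 0 := by
  set y : Fin 3 → k := fun i => ∑ b, A i b * x b with hy
  set y' : Fin 3 → k := fun i => ∑ b, A i b * x' b with hy'
  set w : Fin 3 → k := ![y 1 * y' 2 - y 2 * y' 1, y 2 * y' 0 - y 0 * y' 2,
    y 0 * y' 1 - y 1 * y' 0] with hw
  set z : Fin 3 → k := ![x 1 * x' 2 - x 2 * x' 1, x 2 * x' 0 - x 0 * x' 2,
    x 0 * x' 1 - x 1 * x' 0] with hz
  have hAw : ∀ i, ∑ b, A i b * w b = A.det * z i := by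
    intro i
    fin_cases i <;>
    · simp only [hw, hz, hy, hy', Matrix.det_fin_three, Fin.sum_univ_three, Fin.zero_eta,
        Fin.mk_one, Fin.reduceFinMk, Matrix.cons_val]
      rw [hA 1 0, hA 2 0, hA 2 1]
      ring
  have hbw : ∀ u : Fin 3 → k, bf A u w = A.det * (u 0 * z 0 + u 1 * z 1 + u 2 * z 2) := by
    intro u
    have h0 := hAw 0
    have h1 := hAw 1
    have h2 := hAw 2
    unfold bf
    simp only [Fin.sum_univ_three] at h0 h1 h2 ⊢
    linear_combination u 0 * h0 + u 1 * h1 + u 2 * h2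
  have hxz : x 0 * z 0 + x 1 * z 1 + x 2 * z 2 = 0 := by
    simp only [hz, Matrix.cons_val]
    ring
  have hwz : w 0 * z 0 + w 1 * z 1 + w 2 * z 2 = bf A x x * bf A x' x' - bf A x x' ^ 2 := by
    unfold bf
    simp only [hw, hz, hy, hy', Fin.sum_univ_three, Matrix.cons_val]
    rw [hA 1 0, hA 2 0, hA 2 1]
    ring
  refine ⟨w, ?_, ?_⟩
  · rw [hbw, hxz, mul_zero]
  · rw [hbw, hwz, hx0, zero_mul, zero_sub]
    exact mul_ne_zero hd (neg_ne_zero.2 (pow_ne_zero _ hP))

theorem key {k : Type} [Field k] [Fintype k] (hq : 5 ≤ Fintype.card k) (h2 : (2 : k) ≠ 0)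
    (A B : Matrix (Fin 3) (Fin 3) k) (hA : ∀ a b, A a b = A b a) (hB : ∀ a b, B a b = B b a)
    (hd : A.det ≠ 0) (x : Fin 3 → k) (hx : x ≠ 0) (hx0 : bf A x x = 0) (hx1 : bf B x x = 0)
    (h : ∀ v, bf A v v = 0 → bf A x v ≠ 0 → bf B v v = 0) :
    ∃ c, ∀ u, bf B u u = c * bf A u u := by
  obtain ⟨v, hv⟩ : ∃ v, bf A x v ≠ 0 := by
    by_contra hn
    push Not at hn
    apply hx
    apply Matrix.eq_zero_of_mulVec_eq_zero hd
    funext i
    have h3 := hn (Pi.single i 1)
    rw [Matrix.mulVec, dotProduct]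
    unfold bf at h3
    simp only [Pi.zero_apply]
    rw [← h3]
    apply Finset.sum_congr rfl
    intro a _
    rw [Finset.sum_eq_single i]
    · simp [hA i a]
    · intro b _ hb
      simp [hb]
    · simp
  have hR0 : ∀ u, bf A (bf A u u • x + (-2 * bf A x u) • u)
      (bf A u u • x + (-2 * bf A x u) • u) = 0 := by
    intro u
    rw [bf_comb A hA, hx0]
    ring
  have hR1 : ∀ u, bf A x (bf A u u • x + (-2 * bf A x u) • u) = -2 * bf A x u ^ 2 := by
    intro u
    rw [bf_lin, hx0]
    ring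
  have hR : ∀ u, bf A x u ≠ 0 → bf A x u * bf B u u - bf A u u * bf B x u = 0 := by
    intro u hu
    have e3 := h _ (hR0 u) (by
      rw [hR1]
      exact mul_ne_zero (neg_ne_zero.2 h2) (pow_ne_zero _ hu))
    rw [bf_comb B hB, hx1] at e3
    have e4 : (4 * bf A x u) * (bf A x u * bf B u u - bf A u u * bf B x u) = 0 := by
      linear_combination e3
    have h4 : (4 : k) ≠ 0 := by
      have : (4 : k) = 2 * 2 := by norm_num
      rw [this]
      exact mul_ne_zero h2 h2
    exact (mul_eq_zero.1 e4).resolve_left (mul_ne_zero h4 hu)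
  have hne : ∀ u s, s ≠ -bf A x u / bf A x v → bf A x (u + s • v) ≠ 0 := by
    intro u s hs h0
    have e : bf A x (u + s • v) = bf A x u + s * bf A x v := by
      have := bf_lin A x u v 1 s
      simpa using this
    rw [e] at h0
    apply hs
    rw [eq_div_iff hv]
    linear_combination h0
  have hcomb : ∀ (M : Matrix (Fin 3) (Fin 3) k), (∀ a b, M a b = M b a) → ∀ (u w : Fin 3 → k) (s : k),
      bf M (u + s • w) (u + s • w) = bf M u u + 2 * s * bf M u w + s ^ 2 * bf M w w := by
    intro M hM u w s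
    have := bf_comb M hM u w 1 s
    simpa using this
  have hlin : ∀ (M : Matrix (Fin 3) (Fin 3) k) (u w : Fin 3 → k) (s : k),
      bf M x (u + s • w) = bf M x u + s * bf M x w := by
    intro M u w s
    have := bf_lin M x u w 1 s
    simpa using this
  -- Step A
  have hS : ∀ u, bf A x u * bf B u u - bf A u u * bf B x u = 0 := by
    intro u
    apply cub hq (-bf A x u / bf A x v) _
      (bf A x u * (2 * bf B u v) + bf A x v * bf B u u - bf A u u * bf B x v
        - 2 * bf A u v * bf B x u)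
      (bf A x u * bf B v v + bf A x v * (2 * bf B u v) - bf A v v * bf B x u
        - 2 * bf A u v * bf B x v)
      (bf A x v * bf B v v - bf A v v * bf B x v)
    intro s hs
    have e := hR (u + s • v) (hne u s hs)
    rw [hlin A, hlin B, hcomb A hA, hcomb B hB] at e
    linear_combination e
  -- Step B
  obtain ⟨w, hw0, hw1⟩ := exw A hA hd x (bf A v v • x + (-2 * bf A x v) • v) hx0 (by
    rw [hR1]
    exact mul_ne_zero (neg_ne_zero.2 h2) (pow_ne_zero _ hv))
  have hT : ∀ u, bf A x u = 0 → bf A u u ≠ 0 → bf B x u = 0 := by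
    intro u hu hu1
    have e := hS u
    rw [hu] at e
    have e1 : bf A u u * bf B x u = 0 := by linear_combination -e
    exact (mul_eq_zero.1 e1).resolve_left hu1
  have hw2 : bf B x w = 0 := hT w hw0 hw1
  have hH : ∀ u, bf A x u = 0 → bf B x u = 0 := by
    intro u hu
    by_cases hu1 : bf A u u = 0
    · have hs : ∃ s : k, bf A (u + s • w) (u + s • w) ≠ 0 := by
        by_contra hn
        push Not at hn
        have e1 := hn 1
        have e2 := hn (-1)
        rw [hcomb A hA] at e1 e2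
        have e3 : 2 * bf A w w = 0 := by linear_combination e1 + e2 - 2 * hu1
        exact hw1 ((mul_eq_zero.1 e3).resolve_left h2)
      obtain ⟨s, hs⟩ := hs
      have e := hT (u + s • w) (by rw [hlin A, hu, hw0]; ring) hs
      rw [hlin B, hw2] at e
      linear_combination e
    · exact hT u hu hu1
  -- Step C
  have hC : ∀ u, bf B x u = bf B x v / bf A x v * bf A x u := by
    intro u
    have e := hH (u + (-bf A x u / bf A x v) • v) (by
      rw [hlin A]
      field_simp
      ring)
    rw [hlin B] at e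
    field_simp
    field_simp at e
    linear_combination e
  refine ⟨bf B x v / bf A x v, ?_⟩
  have hD : ∀ u, bf A x u ≠ 0 → bf B u u = bf B x v / bf A x v * bf A u u := by
    intro u hu
    have e := hS u
    rw [hC u] at e
    have e1 : bf A x u * (bf B u u - bf B x v / bf A x v * bf A u u) = 0 := by
      linear_combination e
    have e2 := (mul_eq_zero.1 e1).resolve_left hu
    linear_combination e2
  intro u
  have e := cub hq (-bf A x u / bf A x v) (bf B u u - bf B x v / bf A x v * bf A u u)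
    (2 * bf B u v - bf B x v / bf A x v * (2 * bf A u v))
    (bf B v v - bf B x v / bf A x v * bf A v v) 0 (by
      intro s hs
      have e := hD (u + s • v) (hne u s hs)
      rw [hcomb A hA, hcomb B hB] at e
      linear_combination e)
  linear_combination e

/-- the matrix of `pp t · · y y'` -/
def mxx {k : Type} [CommRing k] (t : Tn k) (y y' : Fin 3 → k) : Matrix (Fin 3) (Fin 3) k :=
  Matrix.of fun a b => ∑ c, ∑ d, t a b c d * y c * y' d

lemma pp_mxx {k : Type} [CommRing k] (t : Tn k) (x x' y y' : Fin 3 → k) :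
    pp t x x' y y' = bf (mxx t y y') x x' := by
  unfold pp bf mxx
  simp only [Matrix.of_apply, Finset.sum_mul]
  refine Finset.sum_congr rfl fun a _ => Finset.sum_congr rfl fun b _ =>
    Finset.sum_congr rfl fun c _ => Finset.sum_congr rfl fun d _ => ?_
  ring

lemma mxx_symm {k : Type} [CommRing k] (t : Tn k) (hs : ∀ a b c d, t a b c d = t b a c d)
    (y y' : Fin 3 → k) (a b : Fin 3) : mxx t y y' a b = mxx t y y' b a := by
  unfold mxx
  rw [Matrix.of_apply, Matrix.of_apply]
  refine Finset.sum_congr rfl fun c _ => Finset.sum_congr rfl fun d _ => ?_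
  rw [hs a b]

/-- the coefficients of `pp t z z y ·` -/
def gv {k : Type} [CommRing k] (t : Tn k) (y z : Fin 3 → k) (d : Fin 3) : k :=
  ∑ a, ∑ b, ∑ c, t a b c d * z a * z b * y c

lemma pp_gv {k : Type} [CommRing k] (t : Tn k) (z y u : Fin 3 → k) :
    pp t z z y u = gv t y z 0 * u 0 + gv t y z 1 * u 1 + gv t y z 2 * u 2 := by
  unfold pp gv
  simp only [Fin.sum_univ_three]
  ring

lemma pl_tr {k : Type} [CommRing k] (t : Tn k) (z y u : Fin 3 → k) :
    pl (tr t) z y u = pp t z z y u := by
  unfold pl pp tr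
  simp only [Fin.sum_univ_three]
  ring

lemma pl_gv {k : Type} [CommRing k] (t : Tn k) (z y : Fin 3 → k) (i : Fin 3) :
    pl (tr t) z y (Pi.single i 1) = gv t y z i := by
  rw [pl_tr, pp_gv]
  fin_cases i <;> simp

end Pool.Agent.T6.H77.VR.TR

namespace Pool.Agent.T6.H77.VR

open TR in
/-- TR -/
theorem tr1 : StmTR := by
  refine ⟨5, ?_⟩
  intro k _ _ t hq h2 hs x y hx hF hd hJ hu
  by_contra hcon
  push Not at hcon
  have hg0 : ∃ i, gv t y x i ≠ 0 := by
    by_contra hn
    push Not at hn
    obtain ⟨u, hu⟩ := hu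
    apply hu
    rw [pl_tr, pp_gv, hn 0, hn 1, hn 2]
    ring
  have hmin : ∀ x₁, fm t x₁ y = 0 → pl t y x x₁ ≠ 0 → ∀ i j,
      gv t y x₁ i * gv t y x j = gv t y x₁ j * gv t y x i := by
    intro x₁ h1 h3 i j
    have := hcon x₁ h1 h3 i j
    simpa only [pl_gv] using this
  have hc : ∀ η : Fin 3 → k, pp t x x y η = 0 → ∃ c : k, ∀ i, η i = c * y i := by
    intro η hη
    obtain ⟨c, hc⟩ := key hq h2 (mxx t y y) (mxx t y η)
      (mxx_symm t hs.1 y y) (mxx_symm t hs.1 y η) hd x hx (by rw [← pp_mxx]; exact hF) (by rw [← pp_mxx]; exact hη)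
      (by
        intro v hv hxv
        rw [← pp_mxx] at hv hxv ⊢
        obtain ⟨j, hj⟩ := hg0
        have hm := hmin v hv hxv
        have e : gv t y x j * pp t v v y η = gv t y v j * pp t x x y η := by
          rw [pp_gv, pp_gv]
          linear_combination η 0 * hm 0 j + η 1 * hm 1 j + η 2 * hm 2 j
        rw [hη, mul_zero] at e
        exact (mul_eq_zero.1 e).resolve_left hj)
    refine ⟨c, ?_⟩
    have h5 := hJ (η - c • y) (by
      intro u
      have e := hc u
      rw [← pp_mxx, ← pp_mxx, pp_gv, pp_gv] at e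
      rw [pp_gv]
      simp only [Pi.sub_apply, Pi.smul_apply, smul_eq_mul]
      linear_combination e)
    intro i
    have h6 := congrFun h5 i
    simp only [Pi.sub_apply, Pi.smul_apply, smul_eq_mul, Pi.zero_apply] at h6
    linear_combination h6
  obtain ⟨c1, h1⟩ := hc ![0, gv t y x 2, -gv t y x 1] (by
    rw [pp_gv]
    simp only [Matrix.cons_val]
    ring)
  obtain ⟨c2, h3⟩ := hc ![-gv t y x 2, 0, gv t y x 0] (by
    rw [pp_gv]
    simp only [Matrix.cons_val]
    ring)
  obtain ⟨c3, h4⟩ := hc ![gv t y x 1, -gv t y x 0, 0] (by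
    rw [pp_gv]
    simp only [Matrix.cons_val]
    ring)
  have a0 := h1 0
  have a1 := h1 1
  have a2 := h1 2
  have b0 := h3 0
  have b1 := h3 1
  have b2 := h3 2
  have d0 := h4 0
  have d1 := h4 1
  have d2 := h4 2
  simp only [Matrix.cons_val] at a0 a1 a2 b0 b1 b2 d0 d1 d2
  have g2 : gv t y x 2 = 0 := by
    by_contra hg
    rcases mul_eq_zero.1 a0.symm with h | h
    · apply hg; rw [a1, h]; ring
    · apply hg; rw [← neg_eq_zero, b0, h]; ring
  have g1 : gv t y x 1 = 0 := by
    by_contra hg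
    rcases mul_eq_zero.1 a0.symm with h | h
    · apply hg; rw [← neg_eq_zero, a2, h]; ring
    · apply hg; rw [d0, h]; ring
  have g0 : gv t y x 0 = 0 := by
    by_contra hg
    rcases mul_eq_zero.1 b1.symm with h | h
    · apply hg; rw [b2, h]; ring
    · apply hg; rw [← neg_eq_zero, d1, h]; ring
  obtain ⟨i, hi⟩ := hg0
  fin_cases i
  · exact hi g0
  · exact hi g1
  · exact hi g2

end Pool.Agent.T6.H77.VR
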