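import Pool.Agent.T6.H77.VR.Stm
import Pool.Agent.H341R2.WeilSharp

/-!
# WT: values of two polynomials of small degree, square and not square
-/

set_option autoImplicit false

namespace Pool.Agent.T6.H77.VR.WT

open Polynomial Finset

theorem deg_pos {k : Type} [Field k] {f : k[X]} (h : NSq f) : 1 ≤ f.natDegree := by
  by_contra h0
  have h1 : f.natDegree = 0 := by omega
  have h2 := eq_C_of_natDegree_eq_zero h1
  exact h (f.coeff 0) 1 (by rw [one_pow, mul_one]; exact h2)

theorem bound {k : Type} [Field k] [Fintype k] [DecidableEq k] (hF : ringChar k ≠ 2) {f : k[X]}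
    (h : NSq f) {m : ℕ} (hm : f.natDegree ≤ m) :
    |∑ x : k, (quadraticChar k (f.eval x) : ℝ)| ≤ (m - 1) * Real.sqrt (Fintype.card k) := by
  have h1 := Pool.Agent.H341R2.Sharp.weil_sharp hF f (deg_pos h) h
  have h2 : (f.natDegree : ℝ) ≤ m := by exact_mod_cast hm
  have h3 : 0 ≤ Real.sqrt (Fintype.card k) := Real.sqrt_nonneg _
  refine le_trans ?_ (mul_le_mul_of_nonneg_right (sub_le_sub_right h2 1) h3)
  convert h1

end Pool.Agent.T6.H77.VR.WT

namespace Pool.Agent.T6.H77.VR

open Polynomial Finset

theorem wt : StmWT := by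
  classical
  refine ⟨100000, fun k _ _ hq h2 f g hf hg nf ng nfg => ?_⟩
  have hF : ringChar k ≠ 2 := by
    intro h
    apply h2
    have h3 := CharP.cast_eq_zero k (ringChar k)
    rw [h] at h3
    exact_mod_cast h3
  have f0 : f ≠ 0 := by
    rintro rfl
    exact nf 0 0 (by simp)
  have g0 : g ≠ 0 := by
    rintro rfl
    exact ng 0 0 (by simp)
  obtain ⟨c, hc⟩ : ∃ c : k → ℝ, c = fun x => (quadraticChar k (f.eval x) : ℝ) := ⟨_, rfl⟩
  obtain ⟨d, hd⟩ : ∃ d : k → ℝ, d = fun x => (quadraticChar k (g.eval x) : ℝ) := ⟨_, rfl⟩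
  have b1 : |∑ x, c x| ≤ ((2 : ℕ) - 1 : ℝ) * Real.sqrt (Fintype.card k) := by
    rw [hc]
    exact WT.bound hF nf hf
  have b2 : |∑ x, d x| ≤ ((8 : ℕ) - 1 : ℝ) * Real.sqrt (Fintype.card k) := by
    rw [hd]
    exact WT.bound hF ng hg
  have b3 : |∑ x, c x * d x| ≤ ((10 : ℕ) - 1 : ℝ) * Real.sqrt (Fintype.card k) := by
    have h3 := WT.bound hF nfg (m := 10) (natDegree_mul_le.trans (by omega))
    have h4 : ∀ x : k, (quadraticChar k ((f * g).eval x) : ℝ) = c x * d x := by
      intro x
      rw [hc, hd]
      simp only [eval_mul, map_mul]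
      push_cast
      ring
    simpa only [h4] using h3
  -- the set to be counted
  set N : Set k := {τ : k | IsSquare (f.eval τ) ∧ f.eval τ ≠ 0 ∧ ¬ IsSquare (g.eval τ)} with hN
  have hNc : N.ncard = (univ.filter (fun τ => τ ∈ N)).card := by
    rw [← Set.ncard_coe_finset]
    congr 1
    ext τ
    simp
  set Z : Finset k := (f * g).roots.toFinset with hZ
  have hZc : Z.card ≤ 10 := by
    refine (Multiset.toFinset_card_le _).trans ?_
    refine (card_roots' _).trans ?_
    exact natDegree_mul_le.trans (by omega)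
  have hpt : ∀ x : k, (1 + c x) * (1 - d x) ≤
      (if x ∈ N then 4 else 0) + (if x ∈ Z then (4 : ℝ) else 0) := by
    intro x
    have hc1 : c x = (quadraticChar k (f.eval x) : ℝ) := by rw [hc]
    have hd1 : d x = (quadraticChar k (g.eval x) : ℝ) := by rw [hd]
    by_cases hfx : f.eval x = 0
    · have hxZ : x ∈ Z := by
        rw [hZ, Multiset.mem_toFinset, mem_roots (mul_ne_zero f0 g0), IsRoot.def, eval_mul, hfx,
          zero_mul]
      have hc0 : c x = 0 := by rw [hc1, hfx]; simp
      rw [if_pos hxZ, hc0]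
      have hd2 : -1 ≤ d x := by
        rw [hd1]
        by_cases hgx : g.eval x = 0
        · rw [hgx]; simp
        · rcases quadraticChar_dichotomy hgx with h | h <;> rw [h] <;> norm_num
      split_ifs <;> linarith
    · by_cases hgx : g.eval x = 0
      · have hxZ : x ∈ Z := by
          rw [hZ, Multiset.mem_toFinset, mem_roots (mul_ne_zero f0 g0), IsRoot.def, eval_mul, hgx,
            mul_zero]
        have hd0 : d x = 0 := by rw [hd1, hgx]; simp
        rw [if_pos hxZ, hd0]
        have hc2 : c x ≤ 1 := by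
          rw [hc1]
          rcases quadraticChar_dichotomy hfx with h | h <;> rw [h] <;> norm_num
        split_ifs <;> linarith
      · have hZ0 : (0 : ℝ) ≤ if x ∈ Z then (4 : ℝ) else 0 := by split_ifs <;> norm_num
        have hN0 : (0 : ℝ) ≤ if x ∈ N then (4 : ℝ) else 0 := by split_ifs <;> norm_num
        rcases quadraticChar_dichotomy hfx with h | h
        · rcases quadraticChar_dichotomy hgx with h' | h'
          · have : d x = 1 := by rw [hd1, h']; norm_num
            rw [this]
            linarith
          · have hx : x ∈ N :=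
              ⟨(quadraticChar_one_iff_isSquare hfx).1 h, hfx,
                quadraticChar_neg_one_iff_not_isSquare.1 h'⟩
            have e1 : d x = -1 := by rw [hd1, h']; norm_num
            have e2 : c x = 1 := by rw [hc1, h]; norm_num
            rw [if_pos hx, e1, e2]
            linarith
        · have : c x = -1 := by rw [hc1, h]; norm_num
          rw [this]
          linarith
  have hsum := Finset.sum_le_sum (fun x (_ : x ∈ (univ : Finset k)) => hpt x)
  have hL : ∑ x : k, (1 + c x) * (1 - d x) =
      Fintype.card k + ∑ x, c x - ∑ x, d x - ∑ x, c x * d x := by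
    have : ∀ x : k, (1 + c x) * (1 - d x) = 1 + c x - d x - c x * d x := fun x => by ring
    simp only [this, Finset.sum_sub_distrib, Finset.sum_add_distrib, Finset.sum_const,
      Finset.card_univ, nsmul_eq_mul, mul_one]
  have hR : ∑ x : k, ((if x ∈ N then 4 else 0) + (if x ∈ Z then (4 : ℝ) else 0)) =
      4 * N.ncard + 4 * Z.card := by
    rw [Finset.sum_add_distrib, ← Finset.sum_filter, ← Finset.sum_filter, Finset.sum_const,
      Finset.sum_const, hNc, Finset.filter_mem_eq_inter, Finset.univ_inter]
    simp only [nsmul_eq_mul]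
    ring
  rw [hL, hR] at hsum
  have hs1 : (Real.sqrt (Fintype.card k)) ^ 2 = Fintype.card k := Real.sq_sqrt (by positivity)
  have hs2 : 300 ≤ Real.sqrt (Fintype.card k) := by
    apply Real.le_sqrt_of_sq_le
    have : (100000 : ℝ) ≤ Fintype.card k := by exact_mod_cast hq
    linarith
  have hZr : (Z.card : ℝ) ≤ 10 := by exact_mod_cast hZc
  have e1 := (abs_le.1 b1).1
  have e2 := (abs_le.1 b2).2
  have e3 := (abs_le.1 b3).2
  norm_num at e1 e2 e3
  have hfin : (Fintype.card k : ℝ) ≤ 8 * N.ncard := by
    nlinarith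
  exact_mod_cast hfin

end Pool.Agent.T6.H77.VR
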