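import Pool.Agent.T6.H77.VR.Stm

/-!
# Hypersurfaces of bidegree (2, 2) in `P² × P²`: basic lemmas (helper77)
-/

set_option autoImplicit false

namespace Pool.Agent.T6.H77.VR

theorem tr_tr {R : Type} (t : Tn R) : tr (tr t) = t := rfl

theorem Sy.tr {R : Type} {t : Tn R} (h : Sy t) : Sy (VR.tr t) := ⟨fun a b c d => h.2 c d a b,
  fun a b c d => h.1 c d a b⟩

section ring

variable {R : Type} [CommRing R] {t : Tn R}

theorem pp_tr (x x' y y' : Fin 3 → R) : pp (tr t) y y' x x' = pp t x x' y y' := by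
  simp only [pp, tr, Fin.sum_univ_three]; ring

theorem fm_tr (x y : Fin 3 → R) : fm (tr t) y x = fm t x y := pp_tr x x y y

theorem fm_pp (x y : Fin 3 → R) : fm t x y = pp t x x y y := rfl

theorem pl_pp (y x x' : Fin 3 → R) : pl t y x x' = pp t x x' y y := rfl

theorem pl_tr (x y y' : Fin 3 → R) : pl (tr t) x y y' = pp t x x y y' := pp_tr x x y y'

theorem pl_self (x y : Fin 3 → R) : pl t y x x = fm t x y := rfl

theorem pp_symm_x (hs : Sy t) (x x' y y' : Fin 3 → R) : pp t x x' y y' = pp t x' x y y' := by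
  unfold pp
  rw [Finset.sum_comm]
  refine Finset.sum_congr rfl fun a _ => Finset.sum_congr rfl fun b _ => Finset.sum_congr rfl
    fun c _ => Finset.sum_congr rfl fun d _ => ?_
  rw [hs.1 b a]; ring

theorem pp_symm_y (hs : Sy t) (x x' y y' : Fin 3 → R) : pp t x x' y y' = pp t x x' y' y := by
  have := pp_symm_x hs.tr y y' x x'
  rwa [pp_tr, pp_tr] at this

theorem pl_symm (hs : Sy t) (y x x' : Fin 3 → R) : pl t y x x' = pl t y x' x :=
  pp_symm_x hs x x' y y

theorem pp_add1 (x z x' y y' : Fin 3 → R) :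
    pp t (x + z) x' y y' = pp t x x' y y' + pp t z x' y y' := by
  simp only [pp, Pi.add_apply, ← Finset.sum_add_distrib]
  refine Finset.sum_congr rfl fun a _ => Finset.sum_congr rfl fun b _ => Finset.sum_congr rfl
    fun c _ => Finset.sum_congr rfl fun d _ => ?_
  ring

theorem pp_add2 (x x' z y y' : Fin 3 → R) :
    pp t x (x' + z) y y' = pp t x x' y y' + pp t x z y y' := by
  simp only [pp, Pi.add_apply, ← Finset.sum_add_distrib]
  refine Finset.sum_congr rfl fun a _ => Finset.sum_congr rfl fun b _ => Finset.sum_congr rfl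
    fun c _ => Finset.sum_congr rfl fun d _ => ?_
  ring

theorem pp_add3 (x x' y z y' : Fin 3 → R) :
    pp t x x' (y + z) y' = pp t x x' y y' + pp t x x' z y' := by
  rw [← pp_tr, pp_add1, pp_tr, pp_tr]

theorem pp_add4 (x x' y y' z : Fin 3 → R) :
    pp t x x' y (y' + z) = pp t x x' y y' + pp t x x' y z := by
  rw [← pp_tr, pp_add2, pp_tr, pp_tr]

theorem pp_smul1 (c : R) (x x' y y' : Fin 3 → R) :
    pp t (c • x) x' y y' = c * pp t x x' y y' := by
  simp only [pp, Pi.smul_apply, smul_eq_mul, Finset.mul_sum]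
  refine Finset.sum_congr rfl fun a _ => Finset.sum_congr rfl fun b _ => Finset.sum_congr rfl
    fun c _ => Finset.sum_congr rfl fun d _ => ?_
  ring

theorem pp_smul2 (c : R) (x x' y y' : Fin 3 → R) :
    pp t x (c • x') y y' = c * pp t x x' y y' := by
  simp only [pp, Pi.smul_apply, smul_eq_mul, Finset.mul_sum]
  refine Finset.sum_congr rfl fun a _ => Finset.sum_congr rfl fun b _ => Finset.sum_congr rfl
    fun c _ => Finset.sum_congr rfl fun d _ => ?_
  ring

theorem pp_smul3 (c : R) (x x' y y' : Fin 3 → R) :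
    pp t x x' (c • y) y' = c * pp t x x' y y' := by
  rw [← pp_tr, pp_smul1, pp_tr]

theorem pp_smul4 (c : R) (x x' y y' : Fin 3 → R) :
    pp t x x' y (c • y') = c * pp t x x' y y' := by
  rw [← pp_tr, pp_smul2, pp_tr]

theorem pp_neg1 (x x' y y' : Fin 3 → R) : pp t (-x) x' y y' = -pp t x x' y y' := by
  rw [← neg_one_smul R x, pp_smul1]; ring

theorem pp_neg2 (x x' y y' : Fin 3 → R) : pp t x (-x') y y' = -pp t x x' y y' := by
  rw [← neg_one_smul R x', pp_smul2]; ring

theorem pp_neg3 (x x' y y' : Fin 3 → R) : pp t x x' (-y) y' = -pp t x x' y y' := by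
  rw [← neg_one_smul R y, pp_smul3]; ring

theorem pp_neg4 (x x' y y' : Fin 3 → R) : pp t x x' y (-y') = -pp t x x' y y' := by
  rw [← neg_one_smul R y', pp_smul4]; ring

theorem pp_zero1 (x' y y' : Fin 3 → R) : pp t 0 x' y y' = 0 := by
  rw [← zero_smul R (0 : Fin 3 → R), pp_smul1, zero_mul]

theorem pp_zero2 (x y y' : Fin 3 → R) : pp t x 0 y y' = 0 := by
  rw [← zero_smul R (0 : Fin 3 → R), pp_smul2, zero_mul]

theorem pp_zero3 (x x' y' : Fin 3 → R) : pp t x x' 0 y' = 0 := by
  rw [← zero_smul R (0 : Fin 3 → R), pp_smul3, zero_mul]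

theorem pp_zero4 (x x' y : Fin 3 → R) : pp t x x' y 0 = 0 := by
  rw [← zero_smul R (0 : Fin 3 → R), pp_smul4, zero_mul]

theorem fm_smul (b c : R) (x y : Fin 3 → R) : fm t (b • x) (c • y) = (b * c) ^ 2 * fm t x y := by
  simp only [fm, pp_smul1, pp_smul2, pp_smul3, pp_smul4]; ring

theorem fm_smul_x (b : R) (x y : Fin 3 → R) : fm t (b • x) y = b ^ 2 * fm t x y := by
  simp only [fm, pp_smul1, pp_smul2]; ring

theorem fm_smul_y (c : R) (x y : Fin 3 → R) : fm t x (c • y) = c ^ 2 * fm t x y := by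
  simp only [fm, pp_smul3, pp_smul4]; ring

theorem pl_smul (b b' c : R) (y x x' : Fin 3 → R) :
    pl t (c • y) (b • x) (b' • x') = b * b' * c ^ 2 * pl t y x x' := by
  simp only [pl, pp_smul1, pp_smul2, pp_smul3, pp_smul4]; ring

theorem pl_add_right (y x x' z : Fin 3 → R) :
    pl t y x (x' + z) = pl t y x x' + pl t y x z := pp_add2 x x' z y y

theorem pl_add_left (y x z x' : Fin 3 → R) :
    pl t y (x + z) x' = pl t y x x' + pl t y z x' := pp_add1 x z x' y y

theorem pl_smul_right (c : R) (y x x' : Fin 3 → R) :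
    pl t y x (c • x') = c * pl t y x x' := pp_smul2 c x x' y y

theorem pl_smul_left (c : R) (y x x' : Fin 3 → R) :
    pl t y (c • x) x' = c * pl t y x x' := pp_smul1 c x x' y y

theorem fm_add (hs : Sy t) (x u y : Fin 3 → R) :
    fm t (x + u) y = fm t x y + 2 * pl t y x u + fm t u y := by
  simp only [fm, pl, pp_add1, pp_add2, pp_symm_x hs u x]; ring

theorem fm_add_y (hs : Sy t) (x y v : Fin 3 → R) :
    fm t x (y + v) = fm t x y + 2 * pp t x x y v + fm t x v := by
  simp only [fm, pp_add3, pp_add4, pp_symm_y hs x x v y]; ring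

/-- the quadratic form `F(·, y)` in terms of its matrix -/
theorem pl_dm (y x x' : Fin 3 → R) : pl t y x x' = ∑ a, ∑ b, dm t y a b * x a * x' b := by
  unfold pl pp dm
  simp only [Matrix.of_apply, Finset.sum_mul]
  refine Finset.sum_congr rfl fun a _ => Finset.sum_congr rfl fun b _ => Finset.sum_congr rfl
    fun c _ => Finset.sum_congr rfl fun d _ => ?_
  ring

theorem fm_dm (y x : Fin 3 → R) : fm t x y = ∑ a, ∑ b, dm t y a b * x a * x b := pl_dm y x x

theorem dm_symm (hs : Sy t) (y : Fin 3 → R) (a b : Fin 3) : dm t y a b = dm t y b a := by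
  unfold dm
  simp only [Matrix.of_apply]
  exact Finset.sum_congr rfl fun c _ => Finset.sum_congr rfl fun d _ => by rw [hs.1 a b]

/-- a linear form in the last argument, in coordinates -/
theorem pp_single4 (x x' y y' : Fin 3 → R) :
    pp t x x' y y' = ∑ j, y' j * pp t x x' y (Pi.single j 1) := by
  have e : y' = ∑ j, y' j • (Pi.single j 1 : Fin 3 → R) := by
    funext i
    simp [Finset.sum_apply, Pi.single_apply]
  conv_lhs => rw [e]
  rw [Fin.sum_univ_three, pp_add4, pp_add4, pp_smul4, pp_smul4, pp_smul4, Fin.sum_univ_three]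

theorem pp_single2 (x x' y y' : Fin 3 → R) :
    pp t x x' y y' = ∑ j, x' j * pp t x (Pi.single j 1) y y' := by
  rw [← pp_tr, pp_single4]
  exact Finset.sum_congr rfl fun j _ => by rw [pp_tr]

/-- the reflected point -/
theorem fm_ref (hs : Sy t) {x y : Fin 3 → R} (h : fm t x y = 0) (u : Fin 3 → R) :
    fm t (fm t u y • x + (-(2 * pl t y x u)) • u) y = 0 := by
  rw [fm_add hs, fm_smul_x, fm_smul_x, h, pl_smul_left, pl_smul_right]
  ring

theorem pl_ref {x y : Fin 3 → R} (h : fm t x y = 0) (u : Fin 3 → R) :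
    pl t y x (fm t u y • x + (-(2 * pl t y x u)) • u) = -(2 * pl t y x u ^ 2) := by
  rw [pl_add_right, pl_smul_right, pl_smul_right, pl_self, h]
  ring

end ring

section map

variable {R S : Type} [CommRing R] [CommRing S] (σ : R →+* S) (t : Tn R)

theorem pp_map (x x' y y' : Fin 3 → R) : σ (pp t x x' y y') =
    pp (fun a b c d => σ (t a b c d)) (fun i => σ (x i)) (fun i => σ (x' i)) (fun i => σ (y i))
      (fun i => σ (y' i)) := by
  simp only [pp, map_sum, map_mul]

theorem fm_map (x y : Fin 3 → R) : σ (fm t x y) =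
    fm (fun a b c d => σ (t a b c d)) (fun i => σ (x i)) (fun i => σ (y i)) := pp_map σ t x x y y

theorem pl_map (y x x' : Fin 3 → R) : σ (pl t y x x') =
    pl (fun a b c d => σ (t a b c d)) (fun i => σ (y i)) (fun i => σ (x i)) (fun i => σ (x' i)) :=
  pp_map σ t x x' y y

theorem de_map (b₁ b₂ x : Fin 3 → R) : σ (de t b₁ b₂ x) =
    de (fun a b c d => σ (t a b c d)) (fun i => σ (b₁ i)) (fun i => σ (b₂ i))
      (fun i => σ (x i)) := by
  simp only [de, map_sub, map_mul, map_pow, pp_map, fm_map]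

theorem cA_map (x₀ b₁ b₂ u : Fin 3 → R) : σ (cA t x₀ b₁ b₂ u) =
    cA (fun a b c d => σ (t a b c d)) (fun i => σ (x₀ i)) (fun i => σ (b₁ i)) (fun i => σ (b₂ i))
      (fun i => σ (u i)) := by
  simp only [cA, map_sub, map_mul, map_pow, pp_map]

theorem cB_map (x₀ b₁ b₂ u : Fin 3 → R) : σ (cB t x₀ b₁ b₂ u) =
    cB (fun a b c d => σ (t a b c d)) (fun i => σ (x₀ i)) (fun i => σ (b₁ i)) (fun i => σ (b₂ i))
      (fun i => σ (u i)) := by
  simp only [cB, map_sub, map_mul, pp_map, map_ofNat]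

theorem dl_map (x₀ u w : Fin 3 → R) : σ (dl t x₀ u w) =
    dl (fun a b c d => σ (t a b c d)) (fun i => σ (x₀ i)) (fun i => σ (u i))
      (fun i => σ (w i)) := by
  simp only [dl, map_sub, map_mul, map_pow, pl_map, fm_map]

theorem nn_map (x₀ b₁ b₂ u w : Fin 3 → R) : σ (nn t x₀ b₁ b₂ u w) =
    nn (fun a b c d => σ (t a b c d)) (fun i => σ (x₀ i)) (fun i => σ (b₁ i)) (fun i => σ (b₂ i))
      (fun i => σ (u i)) (fun i => σ (w i)) := by
  simp only [nn, map_sub, map_mul, map_pow, map_ofNat, pl_map, fm_map, de_map, cA_map, cB_map]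

theorem dm_map (y : Fin 3 → R) : σ (dm t y).det =
    (dm (fun a b c d => σ (t a b c d)) (fun i => σ (y i))).det := by
  rw [RingHom.map_det]
  congr 1
  ext a b
  simp only [RingHom.mapMatrix_apply, Matrix.map_apply, dm, Matrix.of_apply, map_sum, map_mul]

end map

section poly

open Polynomial

variable {k : Type} [Field k] (t : Tn k)

theorem eval_dp (x₀ u₀ u₁ w : Fin 3 → k) (τ : k) :
    (dp t x₀ u₀ u₁ w).eval τ = dl t x₀ (u₀ + τ • u₁) w := by
  unfold dp
  rw [← coe_evalRingHom, dl_map]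
  simp only [ct, cv, uv, coe_evalRingHom, eval_C, eval_add, eval_mul, eval_X]
  rfl

theorem eval_np (x₀ b₁ b₂ u₀ u₁ w : Fin 3 → k) (τ : k) :
    (np t x₀ b₁ b₂ u₀ u₁ w).eval τ = nn t x₀ b₁ b₂ (u₀ + τ • u₁) w := by
  unfold np
  rw [← coe_evalRingHom, nn_map]
  simp only [ct, cv, uv, coe_evalRingHom, eval_C, eval_add, eval_mul, eval_X]
  rfl

/-- specialization of the family -/
theorem map_dp (x₀ u₀ u₁ w₀ v : Fin 3 → k) (l : k) :
    (dp (ct t) (cv x₀) (cv u₀) (cv u₁) (uv w₀ v)).map (evalRingHom l) =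
      dp t x₀ u₀ u₁ (w₀ + l • v) := by
  unfold dp
  rw [← coe_mapRingHom, dl_map]
  simp only [ct, cv, uv, coe_mapRingHom, map_C, Polynomial.map_add, Polynomial.map_mul,
    map_X, coe_evalRingHom, eval_C, eval_add, eval_mul, eval_X]
  rfl

theorem map_np (x₀ b₁ b₂ u₀ u₁ w₀ v : Fin 3 → k) (l : k) :
    (np (ct t) (cv x₀) (cv b₁) (cv b₂) (cv u₀) (cv u₁) (uv w₀ v)).map (evalRingHom l) =
      np t x₀ b₁ b₂ u₀ u₁ (w₀ + l • v) := by
  unfold np
  rw [← coe_mapRingHom, nn_map]
  simp only [ct, cv, uv, coe_mapRingHom, map_C, Polynomial.map_add, Polynomial.map_mul,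
    map_X, coe_evalRingHom, eval_C, eval_add, eval_mul, eval_X]
  rfl

end poly

end Pool.Agent.T6.H77.VR
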