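import Pool.Agent.T6.H77.VR.Stm
import Pool.Agent.T6.H77.RK.COTW

/-!
# Points on conics (module CO, helper79, after helper38)
-/

set_option autoImplicit false

namespace Pool.Agent.T6.H77.VR

namespace CO

theorem pl_eq {k : Type} [Field k] (t : Tn k) (y x z : Fin 3 → k) :
    pl t y x z = RK.COTW.bl (dm t y) x z := by
  simp only [pl, pp, RK.COTW.bl, dm, Matrix.of_apply, Finset.sum_mul]
  refine Finset.sum_congr rfl fun a _ => Finset.sum_congr rfl fun b _ =>
    Finset.sum_congr rfl fun c _ => Finset.sum_congr rfl fun d _ => by ring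

theorem fm_eq {k : Type} [Field k] (t : Tn k) (x y : Fin 3 → k) :
    fm t x y = RK.COTW.bl (dm t y) x x := pl_eq t y x x

theorem dm_symm {k : Type} [Field k] (t : Tn k) (hs : Sy t) (y : Fin 3 → k) (a b : Fin 3) :
    dm t y a b = dm t y b a := by
  simp only [dm, Matrix.of_apply]
  exact Finset.sum_congr rfl fun c _ => Finset.sum_congr rfl fun d _ => by rw [hs.1 a b c d]

end CO

/-- CO: points on a conic outside the tangent line at one of them -/
theorem co : StmCO := by
  intro k _ _ t h2 hs x y hxy hl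
  simp only [CO.pl_eq, CO.fm_eq] at hxy hl ⊢
  exact RK.COTW.co_aux (dm t y) (CO.dm_symm t hs y) h2 x hxy hl

/-- two points of a smooth conic are joined by exactly two moves -/
theorem tw {k : Type} [Field k] (t : Tn k) (h2 : (2 : k) ≠ 0) (hs : Sy t) (y : Fin 3 → k)
    (hdet : (dm t y).det ≠ 0) (x z : Fin 3 → k) (hx : x ≠ 0) (hz : z ≠ 0) (hxy : fm t x y = 0)
    (hzy : fm t z y = 0) : ∃ u, fm t u y = 0 ∧ pl t y x u ≠ 0 ∧ pl t y z u ≠ 0 := by
  simp only [CO.pl_eq, CO.fm_eq] at hxy hzy ⊢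
  exact RK.COTW.tw_aux (dm t y) (CO.dm_symm t hs y) h2 hdet x z hx hz hxy hzy

end Pool.Agent.T6.H77.VR
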