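import Pool.Agent.T6.H77.DW.Defs

/-!
# Hypersurfaces of bidegree (2, 2) in `P² × P²`: definitions (helper77)
-/

set_option autoImplicit false

namespace Pool.Agent.T6.H77.VR

/-- coefficients of forms of bidegree `(2, 2)` in `x` and `y` -/
abbrev Tn (R : Type) : Type := Fin 3 → Fin 3 → Fin 3 → Fin 3 → R

/-- `∑ t_abcd x_a x'_b y_c y'_d` -/
def pp {R : Type} [CommRing R] (t : Tn R) (x x' y y' : Fin 3 → R) : R :=
  ∑ a, ∑ b, ∑ c, ∑ d, t a b c d * x a * x' b * y c * y' d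

/-- `F(x, y) = ∑ t_abcd x_a x_b y_c y_d` -/
def fm {R : Type} [CommRing R] (t : Tn R) (x y : Fin 3 → R) : R := pp t x x y y

/-- the bilinear form of the quadratic form `F(·, y)` -/
def pl {R : Type} [CommRing R] (t : Tn R) (y x x' : Fin 3 → R) : R := pp t x x' y y

/-- the coefficients with `x` and `y` exchanged -/
def tr {R : Type} (t : Tn R) : Tn R := fun a b c d => t c d a b

/-- the matrix of the quadratic form `F(·, y)` -/
def dm {R : Type} [CommRing R] (t : Tn R) (y : Fin 3 → R) : Matrix (Fin 3) (Fin 3) R :=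
  Matrix.of fun a b => ∑ c, ∑ d, t a b c d * y c * y d

/-- symmetric coefficients -/
def Sy {R : Type} (t : Tn R) : Prop :=
  (∀ a b c d, t a b c d = t b a c d) ∧ ∀ a b c d, t a b c d = t a b d c

/-- the discriminant of `F(x, ·)` on the line of `b₁`, `b₂` -/
def de {R : Type} [CommRing R] (t : Tn R) (b₁ b₂ x : Fin 3 → R) : R :=
  pp t x x b₁ b₂ ^ 2 - fm t x b₁ * fm t x b₂

/-- a quarter of the coefficient of `s²` in `de (s x₀ + u)`, if `F(x₀, ·)` is zero on the line -/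
def cA {R : Type} [CommRing R] (t : Tn R) (x₀ b₁ b₂ u : Fin 3 → R) : R :=
  pp t x₀ u b₁ b₂ ^ 2 - pp t x₀ u b₁ b₁ * pp t x₀ u b₂ b₂

/-- half of the coefficient of `s` in `de (s x₀ + u)`, if `F(x₀, ·)` is zero on the line -/
def cB {R : Type} [CommRing R] (t : Tn R) (x₀ b₁ b₂ u : Fin 3 → R) : R :=
  2 * pp t x₀ u b₁ b₂ * pp t u u b₁ b₂ - pp t x₀ u b₁ b₁ * pp t u u b₂ b₂ -
    pp t x₀ u b₂ b₂ * pp t u u b₁ b₁

/-- the discriminant of `F(s x₀ + u, w)` in `s` -/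
def dl {R : Type} [CommRing R] (t : Tn R) (x₀ u w : Fin 3 → R) : R :=
  pl t w x₀ u ^ 2 - fm t x₀ w * fm t u w

/-- the resultant in `s` of `F(s x₀ + u, w)` and of `de (s x₀ + u)` -/
def nn {R : Type} [CommRing R] (t : Tn R) (x₀ b₁ b₂ u w : Fin 3 → R) : R :=
  (fm t x₀ w * de t b₁ b₂ u - 4 * fm t u w * cA t x₀ b₁ b₂ u) ^ 2 -
    4 * (fm t x₀ w * cB t x₀ b₁ b₂ u - 4 * pl t w x₀ u * cA t x₀ b₁ b₂ u) *
      (pl t w x₀ u * de t b₁ b₂ u - fm t u w * cB t x₀ b₁ b₂ u)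

open Polynomial in
/-- not a constant times a square -/
def NSq {k : Type} [Field k] (f : k[X]) : Prop := ∀ (c : k) (h : k[X]), f ≠ C c * h ^ 2

open Polynomial in
/-- constant vectors -/
noncomputable def cv {R : Type} [CommRing R] (v : Fin 3 → R) : Fin 3 → R[X] := fun i => C (v i)

open Polynomial in
/-- constant coefficients -/
noncomputable def ct {R : Type} [CommRing R] (t : Tn R) : Tn R[X] := fun a b c d => C (t a b c d)

open Polynomial in
/-- the vector `u₀ + X u₁` -/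
noncomputable def uv {R : Type} [CommRing R] (u₀ u₁ : Fin 3 → R) : Fin 3 → R[X] :=
  fun i => C (u₀ i) + X * C (u₁ i)

open Polynomial in
/-- `dl` on the line `u₀ + X u₁`, a polynomial of degree at most `2` -/
noncomputable def dp {R : Type} [CommRing R] (t : Tn R) (x₀ u₀ u₁ w : Fin 3 → R) : R[X] :=
  dl (ct t) (cv x₀) (uv u₀ u₁) (cv w)

open Polynomial in
/-- `nn` on the line `u₀ + X u₁`, a polynomial of degree at most `8` -/
noncomputable def np {R : Type} [CommRing R] (t : Tn R) (x₀ b₁ b₂ u₀ u₁ w : Fin 3 → R) : R[X] :=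
  nn (ct t) (cv x₀) (cv b₁) (cv b₂) (uv u₀ u₁) (cv w)

/-- one-sided conditions on `F` over a finite field: `F(·, y)` is not zero for `y ≠ 0`, it has more
than `4` zeros in common with `F(·, y')` for at most `8` points `y'`, and `F(x, ·)` is singular at
`y` for at most `4` points `x` (in terms of vectors). -/
structure Gs {k : Type} [Field k] [Fintype k] (t : Tn k) : Prop where
  nz : ∀ y : Fin 3 → k, y ≠ 0 → ∃ x, fm t x y ≠ 0
  fx : ∀ y : Fin 3 → k, y ≠ 0 →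
    {y' | 4 * Fintype.card k < {x | fm t x y = 0 ∧ fm t x y' = 0}.ncard}.ncard ≤
      8 * Fintype.card k
  bx : ∀ y : Fin 3 → k, y ≠ 0 → {x | ∀ y', pp t x x y y' = 0}.ncard ≤ 4 * Fintype.card k

/-- `F(x₀, r b₁ + s b₂ + v b₃) = 2 κ r v` is a product of two linear forms, and on the lines
through `x₀` the polynomials `dp`, `np` and their product are, for some `w`, not a constant times a
square; one of the conics `F(·, r b₁ + s b₂) = 0` is smooth. -/
structure Ln {k : Type} [Field k] (t : Tn k) (x₀ b₁ b₂ b₃ u₀ u₁ : Fin 3 → k) : Prop where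
  sp : ∃ κ : k, κ ≠ 0 ∧ ∀ r s v : k, fm t x₀ (r • b₁ + s • b₂ + v • b₃) = 2 * κ * r * v
  bb : (Matrix.of ![b₁, b₂, b₃]).det ≠ 0
  uu : (Matrix.of ![x₀, u₀, u₁]).det ≠ 0
  nd : ∃ w, NSq (dp t x₀ u₀ u₁ w)
  nn : ∃ w, NSq (np t x₀ b₁ b₂ u₀ u₁ w)
  dn : ∃ w, NSq (dp t x₀ u₀ u₁ w * np t x₀ b₁ b₂ u₀ u₁ w)
  ds : ∃ r s : k, (dm t (r • b₁ + s • b₂)).det ≠ 0

/-- Good forms of bidegree `(2, 2)` over a finite field. -/
structure Gd {k : Type} [Field k] [Fintype k] (t : Tn k) : Prop where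
  two : (2 : k) ≠ 0
  sy : Sy t
  sx : Gs t
  sz : Gs (tr t)
  sm : ∀ x y : Fin 3 → k, x ≠ 0 → y ≠ 0 → fm t x y = 0 →
    (∃ x', pp t x x' y y ≠ 0) ∨ ∃ y', pp t x x y y' ≠ 0
  jr : ∃ (y : Fin 3 → k) (x : Fin 3 → Fin 3 → k),
    (Matrix.of fun j c => pp t (x j) (x j) y (Pi.single c 1)).det ≠ 0
  ln : ∃ x₀ b₁ b₂ b₃ u₀ u₁ : Fin 3 → k, Ln t x₀ b₁ b₂ b₃ u₀ u₁

/-- a move: `true` along the conic `F(·, y) = 0`, `false` along the conic `F(x, ·) = 0` -/
def St {k : Type} [Field k] (t : Tn k) (b : Bool) (p q : (Fin 3 → k) × (Fin 3 → k)) : Prop :=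
  if b then p.2 = q.2 ∧ pl t p.2 p.1 q.1 ≠ 0 else p.1 = q.1 ∧ pl (tr t) p.1 p.2 q.2 ≠ 0

/-- a chain of moves through points of `F = 0`, of the types given by a word -/
def Wd {k : Type} [Field k] (t : Tn k) :
    List Bool → (Fin 3 → k) × (Fin 3 → k) → (Fin 3 → k) × (Fin 3 → k) → Prop
  | [], p, q => p = q
  | b :: w, p, q => ∃ r, fm t r.1 r.2 = 0 ∧ St t b p r ∧ Wd t w r q

/-- no direction is lost: the three derivatives of `y ↦ F(·, y)` at `w` are independent -/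
def Jr {k : Type} [Field k] (t : Tn k) (w : Fin 3 → k) : Prop :=
  ∀ η : Fin 3 → k, (∀ x, pp t x x w η = 0) → η = 0

/-- good `w` -/
structure Gw {k : Type} [Field k] [Fintype k] (t : Tn k) (x₀ b₁ b₂ u₀ u₁ w : Fin 3 → k) :
    Prop where
  dt : (dm t w).det ≠ 0
  a0 : fm t x₀ w ≠ 0
  jr : Jr t w
  nd : NSq (dp t x₀ u₀ u₁ w)
  nn : NSq (np t x₀ b₁ b₂ u₀ u₁ w)
  dn : NSq (dp t x₀ u₀ u₁ w * np t x₀ b₁ b₂ u₀ u₁ w)
  ex : ∀ r s : k, r • b₁ + s • b₂ ≠ 0 → (r = 0 ∨ (dm t (r • b₁ + s • b₂)).det = 0) →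
    {x | fm t x (r • b₁ + s • b₂) = 0 ∧ fm t x w = 0}.ncard ≤ 4 * Fintype.card k

end Pool.Agent.T6.H77.VR
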