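import Pool.Agent.T6.H77.VR.Defs

/-!
# Hypersurfaces of bidegree (2, 2) in `P² × P²`: statements of the modules (helper77)
-/

set_option autoImplicit false

namespace Pool.Agent.T6.H77.VR

/-- CO: points on a conic outside the tangent line at one of them -/
def StmCO : Prop := ∀ (k : Type) [Field k] [Fintype k] (t : Tn k), (2 : k) ≠ 0 → Sy t →
  ∀ x y : Fin 3 → k, fm t x y = 0 → (∃ x', pl t y x x' ≠ 0) →
  Fintype.card k ^ 2 ≤ {x' | fm t x' y = 0 ∧ pl t y x x' ≠ 0}.ncard + Fintype.card k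

/-- QZ: zeros of a nonzero quadratic form -/
def StmQZ : Prop := ∀ (k : Type) [Field k] [Fintype k] (t : Tn k) (y : Fin 3 → k),
  (∃ x, fm t x y ≠ 0) → {x | fm t x y = 0}.ncard ≤ 2 * Fintype.card k ^ 2

/-- GX: growth in three moves -/
def StmGX : Prop := ∃ q₀ : ℕ, ∀ (k : Type) [Field k] [Fintype k] (t : Tn k),
  q₀ ≤ Fintype.card k → (2 : k) ≠ 0 → Sy t → Gs t → Gs (tr t) →
  ∀ x y : Fin 3 → k, fm t x y = 0 → (∃ y', pl (tr t) x y y' ≠ 0) →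
  Fintype.card k ^ 3 ≤ 256 * {w | ∃ x₁ y₁ : Fin 3 → k, fm t x y₁ = 0 ∧ pl (tr t) x y y₁ ≠ 0 ∧
    fm t x₁ y₁ = 0 ∧ pl t y₁ x x₁ ≠ 0 ∧ fm t x₁ w = 0 ∧ pl (tr t) x₁ y₁ w ≠ 0}.ncard

open Polynomial in
/-- SQ: the polynomials which are not a constant times a square in a family -/
def StmSQ : Prop := ∀ m e : ℕ, ∃ q₀ C : ℕ, ∀ (k : Type) [Field k] [Fintype k],
  q₀ ≤ Fintype.card k → (2 : k) ≠ 0 → ∀ P : k[X][X], P.natDegree ≤ 2 * m →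
  (∀ i, (P.coeff i).natDegree ≤ e) → ∀ l₀ : k, NSq (P.map (evalRingHom l₀)) →
  {l : k | ¬ NSq (P.map (evalRingHom l))}.ncard ≤ C

/-- LN: counting on the lines through a point -/
def StmLN : Prop := ∀ (k : Type) [Field k] [Fintype k] (B : (Fin 3 → k) → Prop)
  (w₀ : Fin 3 → k) (C : ℕ), (∀ v : Fin 3 → k, {l : k | B (w₀ + l • v)}.ncard ≤ C) →
  {w | B w}.ncard ≤ 3 * C * Fintype.card k ^ 2 + 1

/-- GW: most vectors are good -/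
def StmGW : Prop := ∃ q₀ C : ℕ, ∀ (k : Type) [Field k] [Fintype k] (t : Tn k),
  q₀ ≤ Fintype.card k → Gd t → ∀ x₀ b₁ b₂ b₃ u₀ u₁ : Fin 3 → k, Ln t x₀ b₁ b₂ b₃ u₀ u₁ →
  {w | ¬ Gw t x₀ b₁ b₂ u₀ u₁ w}.ncard ≤ C * Fintype.card k ^ 2

open Polynomial in
/-- WT: Weil -/
def StmWT : Prop := ∃ q₀ : ℕ, ∀ (k : Type) [Field k] [Fintype k], q₀ ≤ Fintype.card k →
  (2 : k) ≠ 0 → ∀ f g : k[X], f.natDegree ≤ 2 → g.natDegree ≤ 8 → NSq f → NSq g → NSq (f * g) →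
  Fintype.card k ≤ 8 * {τ : k | IsSquare (f.eval τ) ∧ f.eval τ ≠ 0 ∧
    ¬ IsSquare (g.eval τ)}.ncard

/-- PT: a point on the conic with a square discriminant -/
def StmPT : Prop := ∀ (k : Type) [Field k] [Fintype k] (t : Tn k), (2 : k) ≠ 0 → Sy t →
  ∀ x₀ b₁ b₂ u w : Fin 3 → k, fm t x₀ b₁ = 0 → fm t x₀ b₂ = 0 → pp t x₀ x₀ b₁ b₂ = 0 →
  fm t x₀ w ≠ 0 → IsSquare (dl t x₀ u w) → ¬ IsSquare (nn t x₀ b₁ b₂ u w) →
  ∃ s d : k, fm t (s • x₀ + u) w = 0 ∧ d ≠ 0 ∧ de t b₁ b₂ (s • x₀ + u) = d ^ 2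

/-- CON: connection with the hub -/
def StmCON : Prop := ∃ q₀ : ℕ, ∀ (k : Type) [Field k] [Fintype k] (t : Tn k),
  q₀ ≤ Fintype.card k → Gd t → ∀ x₀ b₁ b₂ b₃ u₀ u₁ : Fin 3 → k, Ln t x₀ b₁ b₂ b₃ u₀ u₁ →
  ∀ z w : Fin 3 → k, z ≠ 0 → Gw t x₀ b₁ b₂ u₀ u₁ w → fm t z w = 0 →
  Wd t [true, false, true, false] (z, w) (x₀, b₃)

/-- FQ: connectivity over large finite fields -/
def StmFQ : Prop := ∃ q₀ : ℕ, ∀ (k : Type) [Field k] [Fintype k] (t : Tn k),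
  q₀ ≤ Fintype.card k → Gd t →
  ∀ x y x' y' : Fin 3 → k, fm t x y = 0 → (∃ z, pl (tr t) x y z ≠ 0) →
  fm t x' y' = 0 → (∃ z, pl (tr t) x' y' z ≠ 0) →
  ∃ z w : Fin 3 → k, z ≠ 0 ∧ fm t z w = 0 ∧ (dm t w).det ≠ 0 ∧ Jr t w ∧
    (∃ u, pl (tr t) z w u ≠ 0) ∧ Wd t [false, true, false] (x, y) (z, w) ∧
    Wd t [false, true, false, true, false, true, false, false, true, false, true] (x', y') (z, w)

/-- TR: transversality -/
def StmTR : Prop := ∃ q₀ : ℕ, ∀ (k : Type) [Field k] [Fintype k] (t : Tn k),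
  q₀ ≤ Fintype.card k → (2 : k) ≠ 0 → Sy t → ∀ x y : Fin 3 → k, x ≠ 0 → fm t x y = 0 →
  (dm t y).det ≠ 0 → Jr t y → (∃ u, pl (tr t) x y u ≠ 0) →
  ∃ x₁ : Fin 3 → k, fm t x₁ y = 0 ∧ pl t y x x₁ ≠ 0 ∧
    ∃ i j, pl (tr t) x₁ y (Pi.single i 1) * pl (tr t) x y (Pi.single j 1) ≠
      pl (tr t) x₁ y (Pi.single j 1) * pl (tr t) x y (Pi.single i 1)

/-- LC: points with the same general reduction are joined by moves -/
def StmLC : Prop := ∃ q₀ : ℕ, ∀ (L k : Type) [NontriviallyNormedField L] [IsUltrametricDist L]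
  [CompleteSpace L] [Field k] [Fintype k] (π : L → k), DW.Res π → q₀ ≤ Fintype.card k →
  (2 : k) ≠ 0 → ∀ t : Tn L, Sy t → (∀ a b c d, ‖t a b c d‖ ≤ 1) → ∀ x y x' y' : Fin 3 → L,
  (∀ i, ‖x i‖ ≤ 1) → (∀ i, ‖y i‖ ≤ 1) → (∀ i, ‖x' i‖ ≤ 1) → (∀ i, ‖y' i‖ ≤ 1) →
  (∃ i, π (x i) ≠ 0) → (∀ i, π (x i) = π (x' i)) → (∀ i, π (y i) = π (y' i)) →
  fm t x y = 0 → fm t x' y' = 0 →
  (dm (fun a b c d => π (t a b c d)) (fun i => π (y i))).det ≠ 0 →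
  Jr (fun a b c d => π (t a b c d)) (fun i => π (y i)) →
  (∃ u, pl (tr (fun a b c d => π (t a b c d))) (fun i => π (x i)) (fun i => π (y i)) u ≠ 0) →
  Wd t [true, false, false, true, false, false] (x, y) (x', y')

/-- NS: a small move away from a point whose reduction is the vertex of the conic -/
def StmNS : Prop := ∀ (L k : Type) [NontriviallyNormedField L] [IsUltrametricDist L]
  [CompleteSpace L] [Field k] (π : L → k), DW.Res π → (2 : k) ≠ 0 →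
  ∀ t : Tn L, Sy t → (∀ a b c d, ‖t a b c d‖ ≤ 1) → ∀ x y : Fin 3 → L,
  (∀ i, ‖x i‖ ≤ 1) → (∀ i, ‖y i‖ ≤ 1) → fm t x y = 0 → (∃ x', pl t y x x' ≠ 0) →
  (∀ z, pl (fun a b c d => π (t a b c d)) (fun i => π (y i)) (fun i => π (x i)) z = 0) →
  (∃ z, fm (fun a b c d => π (t a b c d)) z (fun i => π (y i)) ≠ 0) →
  ∃ x' : Fin 3 → L, (∀ i, ‖x' i‖ ≤ 1) ∧ (∀ i, π (x' i) = π (x i)) ∧ fm t x' y = 0 ∧
    pl t y x x' ≠ 0

/-- LOC: connectivity over local fields with large residue fields -/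
def StmLOC : Prop := ∃ (q₀ : ℕ) (w : List Bool), ∀ (L k : Type) [NontriviallyNormedField L]
  [IsUltrametricDist L] [CompleteSpace L] [Field k] [Fintype k] (π : L → k), DW.Res π →
  q₀ ≤ Fintype.card k → ∀ t : Tn L, Sy t → (∀ a b c d, ‖t a b c d‖ ≤ 1) →
  Gd (fun a b c d => π (t a b c d)) → ∀ p q : (Fin 3 → L) × (Fin 3 → L),
  fm t p.1 p.2 = 0 → fm t q.1 q.2 = 0 → (∃ x', pl t q.2 q.1 x' ≠ 0) →
  ((∃ x', pl t p.2 p.1 x' ≠ 0) → Wd t w p q) ∧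
  ((∃ y', pl (tr t) p.1 p.2 y' ≠ 0) → Wd t (false :: w) p q)

/-- DEN: the points which are smooth on the conics `F(·, y) = 0` are dense -/
def StmDEN : Prop := ∃ q₀ : ℕ, ∀ (L k : Type) [NontriviallyNormedField L] [IsUltrametricDist L]
  [CompleteSpace L] [Field k] [Fintype k] (π : L → k), DW.Res π → q₀ ≤ Fintype.card k →
  ∀ t : Tn L, Sy t → (∀ a b c d, ‖t a b c d‖ ≤ 1) → Gd (fun a b c d => π (t a b c d)) →
  ∀ x y : Fin 3 → L, x ≠ 0 → y ≠ 0 → fm t x y = 0 → ∀ ε : ℝ, 0 < ε →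
  ∃ x' y' : Fin 3 → L, fm t x' y' = 0 ∧ (∃ z, pl t y' x' z ≠ 0) ∧
    ∀ i, ‖x' i - x i‖ < ε ∧ ‖y' i - y i‖ < ε

/-- CLO: the closure of the rational points is stable under moves at the places of `G` -/
def StmCLO : Prop := ∀ (K ι : Type) [Field K] (L : ι → Type) [∀ v, NontriviallyNormedField (L v)]
  (σ : ∀ v, K →+* L v), (DenseRange fun (b : K) (v : ι) => σ v b) →
  ∀ t : Tn K, (2 : K) ≠ 0 → Sy t → ∀ (w : List Bool) (G : Set ι)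
  (P Q : ∀ v, (Fin 3 → L v) × (Fin 3 → L v)),
  (∀ v ∈ G, fm (fun a b c d => σ v (t a b c d)) (P v).1 (P v).2 = 0 ∧
    Wd (fun a b c d => σ v (t a b c d)) w (P v) (Q v)) →
  (∀ v ∉ G, P v = Q v ∧ (P v).1 ≠ 0 ∧ (P v).2 ≠ 0 ∧
    fm (fun a b c d => σ v (t a b c d)) (P v).1 (P v).2 = 0 ∧
    (dm (fun a b c d => σ v (t a b c d)) (P v).2).det ≠ 0 ∧
    (dm (tr (fun a b c d => σ v (t a b c d))) (P v).1).det ≠ 0) →
  P ∈ closure {S : ∀ v, (Fin 3 → L v) × (Fin 3 → L v) | ∃ x y : Fin 3 → K, fm t x y = 0 ∧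
    S = fun v => (fun i => σ v (x i), fun i => σ v (y i))} →
  Q ∈ closure {S : ∀ v, (Fin 3 → L v) × (Fin 3 → L v) | ∃ x y : Fin 3 → K, fm t x y = 0 ∧
    S = fun v => (fun i => σ v (x i), fun i => σ v (y i))}

end Pool.Agent.T6.H77.VR
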